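import Mathlib

/-! Statements of the project every polynomial whose filled Julia set has zero area is a limit of
polynomials all of whose critical points escape (MP_28f8a1_an). -/

set_option autoImplicit false

open Topology Filter Metric Set Polynomial MeasureTheory

namespace Pool.Agent.H713R3.ZA

/-- the antiderivative (without constant term) of a polynomial of degree less than `N` -/
noncomputable def prim (N : ℕ) (p : ℂ[X]) : ℂ[X] :=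
  ∑ n ∈ Finset.range N, monomial (n + 1) (p.coeff n / (n + 1))

/-- parameters: `n` critical points `x (some i)` and the constant term `x none` -/
abbrev PE (n : ℕ) : Type := Option (Fin n) → ℂ

/-- the polynomial of degree `n + 1` with leading coefficient `a`, critical points `x (some i)` and
constant term `x none` -/
noncomputable def fam (a : ℂ) (n : ℕ) (x : PE n) : ℂ[X] :=
  C (x none) + prim (n + 1) (C (a * ((n : ℂ) + 1)) * ∏ i : Fin n, (X - C (x (some i))))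

/-- the filled Julia set -/
def KJ (T : ℂ[X]) : Set ℂ :=
  {z | ¬ Tendsto (fun k : ℕ => ‖(fun w : ℂ => T.eval w)^[k] z‖) atTop atTop}

/-! ### General analysis -/

/-- Holomorphic root over a convex open set of parameters, all roots being simple. -/
def StROOT : Prop :=
  ∀ (V : Type) [NormedAddCommGroup V] [NormedSpace ℂ V] [FiniteDimensional ℂ V]
    (U : Set V) (F : V → ℂ → ℂ), IsOpen U → Convex ℝ U →
    ContDiffOn ℂ 1 (fun p : V × ℂ => F p.1 p.2) (U ×ˢ univ) →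
    (∀ K : Set V, K ⊆ U → IsCompact K → ∀ M : ℝ, ∃ B : ℝ, ∀ s ∈ K, ∀ z, ‖F s z‖ ≤ M → ‖z‖ ≤ B) →
    (∀ s ∈ U, ∀ z, F s z = 0 → deriv (F s) z ≠ 0) →
    ∀ s₀ ∈ U, ∀ u : ℂ, F s₀ u = 0 →
    ∃ Z : V → ℂ, DifferentiableOn ℂ Z U ∧ Z s₀ = u ∧ (∀ s ∈ U, F s (Z s) = 0) ∧
      ∀ Z' : V → ℂ, ContinuousOn Z' U → (∃ s₁ ∈ U, Z' s₁ = Z s₁) → (∀ s ∈ U, F s (Z' s) = 0) →
        ∀ s ∈ U, Z' s = Z s

/-- Inverse of `z ↦ z + g (x, z)` near infinity, holomorphically in the parameter. -/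
def StINV : Prop :=
  ∀ (V : Type) [NormedAddCommGroup V] [NormedSpace ℂ V] [FiniteDimensional ℂ V]
    (B : Set V) (R C : ℝ) (g : V × ℂ → ℂ), IsOpen B → 0 < R → 0 < C →
    DifferentiableOn ℂ g (B ×ˢ {z : ℂ | R < ‖z‖}) →
    (∀ x ∈ B, ∀ z : ℂ, R < ‖z‖ → ‖g (x, z)‖ ≤ C) →
    ∀ R₁ : ℝ, R + 10 * C ≤ R₁ →
    ∃ ψ : V × ℂ → ℂ, DifferentiableOn ℂ ψ (B ×ˢ {w : ℂ | R₁ < ‖w‖}) ∧
      ∀ x ∈ B, (∀ w : ℂ, R₁ < ‖w‖ → ‖ψ (x, w) - w‖ ≤ C ∧ ψ (x, w) + g (x, ψ (x, w)) = w) ∧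
        ∀ z : ℂ, R₁ - C < ‖z‖ → R₁ < ‖z + g (x, z)‖ → ψ (x, z + g (x, z)) = z

/-- Böttcher's sum. -/
def StBSUM : Prop :=
  ∀ (V : Type) [NormedAddCommGroup V] [NormedSpace ℂ V] [FiniteDimensional ℂ V]
    (B : Set V) (d : ℕ) (a : ℂ) (R K : ℝ) (f : V → ℂ → ℂ), IsOpen B → 2 ≤ d → a ≠ 0 → 1 ≤ R →
    0 ≤ K → 2 * K ≤ R →
    DifferentiableOn ℂ (fun p : V × ℂ => f p.1 p.2) (B ×ˢ {z : ℂ | R < ‖z‖}) →
    (∀ x ∈ B, ∀ z : ℂ, R < ‖z‖ → 2 * ‖z‖ ≤ ‖f x z‖ ∧ ‖f x z / (a * z ^ d) - 1‖ ≤ K / ‖z‖) →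
    ∃ u : V × ℂ → ℂ, DifferentiableOn ℂ u (B ×ˢ {z : ℂ | R < ‖z‖}) ∧
      ∀ x ∈ B, ∀ z : ℂ, R < ‖z‖ → ‖u (x, z)‖ ≤ 2 * K / ‖z‖ ∧
        f x z * Complex.exp (u (x, f x z)) = a * (z * Complex.exp (u (x, z))) ^ d

/-- Identity theorem in several variables. -/
def StIDEN : Prop :=
  ∀ (V : Type) [NormedAddCommGroup V] [NormedSpace ℂ V] [FiniteDimensional ℂ V]
    (Ω : Set V) (f : V → ℂ), IsOpen Ω → IsPreconnected Ω → DifferentiableOn ℂ f Ω →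
    ∀ x₀ ∈ Ω, (∀ᶠ x in 𝓝 x₀, f x = 0) → ∀ x ∈ Ω, f x = 0

/-- A holomorphic kernel field of fewer functions than variables. -/
def StKER : Prop :=
  ∀ (κ : Type) [Fintype κ] [DecidableEq κ] (k₀ : κ) (Ω : Set (κ → ℂ)) (G : κ → (κ → ℂ) → ℂ),
    IsOpen Ω → IsPreconnected Ω → Ω.Nonempty → (∀ k, DifferentiableOn ℂ (G k) Ω) →
    ∃ X : (κ → ℂ) → (κ → ℂ), DifferentiableOn ℂ X Ω ∧ (∃ x ∈ Ω, X x ≠ 0) ∧
      ∀ x ∈ Ω, ∀ k, k ≠ k₀ → fderiv ℂ (G k) x (X x) = 0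

/-- Holomorphic integral curves, with uniform existence time on compact sets. -/
def StFLOW : Prop :=
  ∀ (V : Type) [NormedAddCommGroup V] [NormedSpace ℂ V] [FiniteDimensional ℂ V]
    (Ω K : Set V) (X : V → V), IsOpen Ω → IsCompact K → K ⊆ Ω → DifferentiableOn ℂ X Ω →
    ∃ r : ℝ, 0 < r ∧ ∀ x ∈ K, ∃ γ : ℂ → V, γ 0 = x ∧
      ∀ t ∈ ball (0 : ℂ) r, γ t ∈ Ω ∧ HasDerivAt γ (X (γ t)) t

/-! ### Area -/

/-- Area theorem with a quantitative gain for a conjugacy near infinity between two polynomials. -/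
def StGAIN : Prop :=
  ∀ (d : ℕ) (a : ℂ) (A₀ R C : ℝ), 2 ≤ d → a ≠ 0 → 0 ≤ A₀ → 1 ≤ R → 0 ≤ C →
    ∃ R₀ : ℝ, R < R₀ ∧ ∀ R₅ : ℝ, R₀ ≤ R₅ → ∃ c₀ : ℝ, 0 < c₀ ∧ ∀ (p q : ℂ[X]) (Φ : ℂ → ℂ),
      p.natDegree ≤ d → q.natDegree ≤ d → p.coeff d = a → q.coeff d = a →
      p.coeff (d - 1) = q.coeff (d - 1) → (∀ j, ‖p.coeff j‖ ≤ A₀) → (∀ j, ‖q.coeff j‖ ≤ A₀) →
      DifferentiableOn ℂ Φ {z : ℂ | R < ‖z‖} → InjOn Φ {z : ℂ | R < ‖z‖} →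
      (∀ z : ℂ, R < ‖z‖ → ‖Φ z - z‖ ≤ C) →
      (∀ z : ℂ, R < ‖z‖ → R < ‖p.eval z‖ → q.eval (Φ z) = Φ (p.eval z)) →
      volume (Φ '' {z : ℂ | R₅ < ‖z‖})ᶜ ≤ ENNReal.ofReal
        (Real.pi * R₅ ^ 2 - c₀ * ∑ j ∈ Finset.range (d + 1), ‖q.coeff j - p.coeff j‖ ^ 2)

/-- Mean value inequality for the squared derivative, integrated in the plane. -/
def StAVG : Prop :=
  ∀ (ρ r : ℝ) (W K : Set ℂ) (D : ℂ → ℂ → ℂ), 0 < r → r < ρ → IsOpen W → K ⊆ W →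
    MeasurableSet K → ContinuousOn (fun p : ℂ × ℂ => D p.1 p.2) (ball (0 : ℂ) ρ ×ˢ W) →
    (∀ z ∈ W, DifferentiableOn ℂ (fun t => D t z) (ball (0 : ℂ) ρ)) → (∀ z ∈ W, D 0 z = 1) →
    ENNReal.ofReal (2 * Real.pi) * volume K ≤
      ∫⁻ θ in Ioc (0 : ℝ) (2 * Real.pi), ∫⁻ z in K,
        ENNReal.ofReal (‖D (circleMap 0 r θ) z‖ ^ 2)

/-! ### The family -/

/-- Every polynomial of degree `n + 1` belongs to the family. -/
def StSURJ : Prop :=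
  ∀ (n : ℕ) (T : ℂ[X]), 1 ≤ n → T.natDegree = n + 1 → ∃ x : PE n, fam (T.coeff (n + 1)) n x = T

/-- Local injectivity at one parameter. -/
def StSEP : Prop :=
  ∀ (n : ℕ) (a : ℂ) (x₀ : PE n), 1 ≤ n → a ≠ 0 → ∃ ρ : ℝ, 0 < ρ ∧
    ∀ x : PE n, ‖x - x₀‖ ≤ ρ → fam a n x = fam a n x₀ → x = x₀

/-- The differential of the family is injective where the critical points are distinct. -/
def StNDEG : Prop :=
  ∀ (n : ℕ) (a : ℂ) (x v : PE n), 1 ≤ n → a ≠ 0 → (Function.Injective fun i : Fin n => x (some i)) →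
    (∀ j : ℕ, fderiv ℂ (fun x : PE n => (fam a n x).coeff j) x v = 0) → v = 0

/-- Upper semicontinuity of the area of the filled Julia set, at polynomials with zero area. -/
def StUSC : Prop :=
  ∀ (n : ℕ) (a : ℂ) (x₀ : PE n), 1 ≤ n → a ≠ 0 → volume (KJ (fam a n x₀)) = 0 →
    ∀ η : ℝ, 0 < η → ∃ σ : ℝ, 0 < σ ∧ ∀ x : PE n, ‖x - x₀‖ < σ →
      volume (KJ (fam a n x)) ≤ ENNReal.ofReal η

end Pool.Agent.H713R3.ZA
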