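import Mathlib
import Pool.Agent.H713R3.ZA.Defs
import Pool.Agent.H792R2.Dyn.Family

set_option autoImplicit false

open Topology Filter Metric Set Polynomial MeasureTheory

namespace Pool.Agent.H713R3.ZA

theorem prim_eq (N : ℕ) (p : ℂ[X]) : prim N p = Pool.Agent.H792R2.Dyn.anti N p := rfl

/-- the derivative of the family -/
noncomputable def dfam (a : ℂ) (n : ℕ) (x : PE n) : ℂ[X] :=
  C (a * ((n : ℂ) + 1)) * ∏ i : Fin n, (X - C (x (some i)))

theorem natDegree_prod (n : ℕ) (x : PE n) :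
    (∏ i : Fin n, (X - C (x (some i)))).natDegree = n := by
  rw [natDegree_prod_of_monic _ _ (fun i _ => monic_X_sub_C _)]
  simp

theorem dfam_deg_le (a : ℂ) (n : ℕ) (x : PE n) : (dfam a n x).natDegree ≤ n := by
  unfold dfam
  refine (natDegree_C_mul_le _ _).trans ?_
  rw [natDegree_prod]

theorem fam_eq (a : ℂ) (n : ℕ) (x : PE n) : fam a n x = C (x none) + prim (n + 1) (dfam a n x) := rfl

theorem derivative_fam (a : ℂ) (n : ℕ) (x : PE n) : derivative (fam a n x) = dfam a n x := by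
  rw [fam_eq, derivative_add, derivative_C, zero_add, prim_eq,
    Pool.Agent.H792R2.Dyn.derivative_anti]
  have := dfam_deg_le a n x
  omega

theorem natDegree_fam_le (a : ℂ) (n : ℕ) (x : PE n) : (fam a n x).natDegree ≤ n + 1 := by
  rw [fam_eq, prim_eq]
  refine (natDegree_add_le _ _).trans (max_le (by rw [natDegree_C]; omega) ?_)
  exact Pool.Agent.H792R2.Dyn.natDegree_anti_le _ _

theorem coeff_fam_succ (a : ℂ) (n : ℕ) (x : PE n) (j : ℕ) :
    (fam a n x).coeff (j + 1) = if j < n + 1 then (dfam a n x).coeff j / (j + 1) else 0 := by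
  rw [fam_eq, prim_eq, coeff_add, Pool.Agent.H792R2.Dyn.anti_coeff_succ, coeff_C,
    if_neg (by omega), zero_add]

theorem coeff_fam_zero (a : ℂ) (n : ℕ) (x : PE n) : (fam a n x).coeff 0 = x none := by
  rw [fam_eq, prim_eq, coeff_add, Pool.Agent.H792R2.Dyn.anti_coeff_zero, coeff_C_zero, add_zero]

theorem coeff_fam_top (a : ℂ) (n : ℕ) (x : PE n) : (fam a n x).coeff (n + 1) = a := by
  rw [coeff_fam_succ, if_pos (by omega)]
  have h1 : (dfam a n x).coeff n = a * ((n : ℂ) + 1) := by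
    unfold dfam
    rw [coeff_C_mul]
    have h2 : (∏ i : Fin n, (X - C (x (some i)))).Monic :=
      monic_prod_of_monic _ _ (fun i _ => monic_X_sub_C _)
    have h3 : (∏ i : Fin n, (X - C (x (some i)))).coeff n = 1 := by
      have := h2.coeff_natDegree
      rwa [natDegree_prod] at this
    rw [h3, mul_one]
  rw [h1]
  have : (n : ℂ) + 1 ≠ 0 := Nat.cast_add_one_ne_zero n
  field_simp

theorem natDegree_fam {a : ℂ} (ha : a ≠ 0) (n : ℕ) (x : PE n) :
    (fam a n x).natDegree = n + 1 := by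
  apply le_antisymm (natDegree_fam_le a n x)
  apply le_natDegree_of_ne_zero
  rw [coeff_fam_top]; exact ha

/-- polynomial families with smooth coefficients -/
def PFE {V : Type} [NormedAddCommGroup V] [NormedSpace ℂ V] (p : V → ℂ[X]) : Prop :=
  ∀ j, ContDiff ℂ 1 (fun x => (p x).coeff j)

section
variable {V : Type} [NormedAddCommGroup V] [NormedSpace ℂ V]

theorem PFE.C {g : V → ℂ} (hg : ContDiff ℂ 1 g) : PFE (fun x => Polynomial.C (g x)) := by
  intro j
  simp only [coeff_C]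
  by_cases hj : j = 0
  · simp only [if_pos hj]; exact hg
  · simp only [if_neg hj]; exact contDiff_const

theorem PFE.const (q : ℂ[X]) : PFE (fun _ : V => q) := fun _ => contDiff_const

theorem PFE.add {p q : V → ℂ[X]} (hp : PFE p) (hq : PFE q) : PFE (fun s => p s + q s) := by
  intro n
  simpa [Polynomial.coeff_add] using (hp n).add (hq n)

theorem PFE.sub {p q : V → ℂ[X]} (hp : PFE p) (hq : PFE q) : PFE (fun s => p s - q s) := by
  intro n
  simpa [Polynomial.coeff_sub] using (hp n).sub (hq n)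

theorem PFE.mul {p q : V → ℂ[X]} (hp : PFE p) (hq : PFE q) : PFE (fun s => p s * q s) := by
  intro n
  simp only [Polynomial.coeff_mul]
  exact ContDiff.sum fun i _ => (hp _).mul (hq _)

theorem PFE.prod {ι : Type} (t : Finset ι) {p : ι → V → ℂ[X]} (hp : ∀ i, PFE (p i)) :
    PFE (fun s => ∏ i ∈ t, p i s) := by
  classical
  induction t using Finset.induction_on with
  | empty => simpa using PFE.const (V := V) 1
  | insert i t hi ih =>
    simp only [Finset.prod_insert hi]
    exact (hp i).mul ih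

/-- joint regularity -/
theorem PFE.eval {p : V → ℂ[X]} (hp : PFE p) {N : ℕ} (hN : ∀ x, (p x).natDegree < N) :
    ContDiff ℂ 1 (fun q : V × ℂ => (p q.1).eval q.2) := by
  have h : (fun q : V × ℂ => (p q.1).eval q.2) =
      fun q => ∑ i ∈ Finset.range N, (p q.1).coeff i * q.2 ^ i := by
    funext q
    exact Polynomial.eval_eq_sum_range' (hN q.1) q.2
  rw [h]
  exact ContDiff.sum fun i _ => ((hp i).comp contDiff_fst).mul (contDiff_snd.pow i)

end

theorem contDiff_coord (n : ℕ) (k : Option (Fin n)) : ContDiff ℂ 1 (fun x : PE n => x k) :=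
  contDiff_apply ℂ ℂ k

theorem pfe_dfam (a : ℂ) (n : ℕ) : PFE (fun x : PE n => dfam a n x) := by
  unfold dfam
  apply (PFE.const _).mul
  apply PFE.prod
  intro i
  exact (PFE.const X).sub (PFE.C (contDiff_coord n (some i)))

theorem pfe_fam (a : ℂ) (n : ℕ) : PFE (fun x : PE n => fam a n x) := by
  intro j
  cases j with
  | zero =>
    simp only [coeff_fam_zero]
    exact contDiff_coord n none
  | succ j =>
    simp only [coeff_fam_succ]
    by_cases hj : j < n + 1
    · simp only [if_pos hj]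
      exact (pfe_dfam a n j).div_const _
    · simp only [if_neg hj]
      exact contDiff_const

theorem contDiff_fam (a : ℂ) (n : ℕ) : ContDiff ℂ 1 (fun q : PE n × ℂ => (fam a n q.1).eval q.2) :=
  (pfe_fam a n).eval (N := n + 2) (fun x => by have := natDegree_fam_le a n x; omega)

/-- iterates of the family -/
noncomputable def fx (a : ℂ) (n : ℕ) (x : PE n) : ℂ → ℂ := fun w => (fam a n x).eval w

theorem contDiff_iter {V : Type} [NormedAddCommGroup V] [NormedSpace ℂ V] {f : V → ℂ → ℂ}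
    (hf : ContDiff ℂ 1 (fun p : V × ℂ => f p.1 p.2)) (N : ℕ) :
    ContDiff ℂ 1 (fun p : V × ℂ => (f p.1)^[N] p.2) := by
  induction N with
  | zero => simpa using contDiff_snd
  | succ n ih =>
    have h : (fun p : V × ℂ => (f p.1)^[n + 1] p.2) = fun p => f p.1 ((f p.1)^[n] p.2) := by
      funext p; rw [Function.iterate_succ_apply']
    rw [h]
    exact hf.comp (contDiff_fst.prodMk ih)

theorem contDiff_fx (a : ℂ) (n N : ℕ) : ContDiff ℂ 1 (fun p : PE n × ℂ => (fx a n p.1)^[N] p.2) :=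
  contDiff_iter (contDiff_fam a n) N

/-- coefficient bounds on balls -/
theorem exists_coeff_bound (a : ℂ) (n : ℕ) (B : ℝ) :
    ∃ A : ℝ, 1 ≤ A ∧ ∀ x : PE n, ‖x‖ ≤ B → ∀ j, ‖(fam a n x).coeff j‖ ≤ A := by
  have h1 : ∀ j : ℕ, ∃ A : ℝ, 0 ≤ A ∧ ∀ x : PE n, ‖x‖ ≤ B → ‖(fam a n x).coeff j‖ ≤ A := by
    intro j
    obtain ⟨A, hA⟩ := (isCompact_closedBall (0 : PE n) B).exists_bound_of_continuousOn
      (f := fun x => (fam a n x).coeff j) (pfe_fam a n j).continuous.continuousOn
    refine ⟨max A 0, le_max_right _ _, fun s hs => ?_⟩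
    exact (hA s (mem_closedBall_zero_iff.mpr hs)).trans (le_max_left _ _)
  choose A hA0 hA using h1
  refine ⟨1 + ∑ i ∈ Finset.range (n + 2), A i, ?_, ?_⟩
  · have : 0 ≤ ∑ i ∈ Finset.range (n + 2), A i := Finset.sum_nonneg fun i _ => hA0 i
    linarith
  · intro x hx j
    have hB0 : 0 ≤ ∑ i ∈ Finset.range (n + 2), A i := Finset.sum_nonneg fun i _ => hA0 i
    by_cases hj : j < n + 2
    · have h2 := Finset.single_le_sum (fun j _ => hA0 j) (Finset.mem_range.mpr hj)
      have h3 := hA j x hx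
      linarith
    · rw [Polynomial.coeff_eq_zero_of_natDegree_lt
        (lt_of_le_of_lt (natDegree_fam_le a n x) (by omega)), norm_zero]
      linarith

/-- uniform escape radius -/
theorem exists_esc {a : ℂ} (ha : a ≠ 0) {n : ℕ} (hn : 1 ≤ n) (B : ℝ) :
    ∃ R : ℝ, 1 ≤ R ∧ ∀ x : PE n, ‖x‖ ≤ B → ∀ z, R ≤ ‖z‖ → 2 * ‖z‖ ≤ ‖fx a n x z‖ := by
  obtain ⟨A, hA1, hA⟩ := exists_coeff_bound a n B
  obtain ⟨R, hR1, hR⟩ := Pool.Agent.H792R2.Dyn.escape_radius (d := n + 1) (by omega)
    (norm_pos_iff.mpr ha) (by linarith : 0 ≤ A)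
  exact ⟨R, hR1, fun x hx z hz => hR (fam a n x) (natDegree_fam_le a n x)
    (by rw [coeff_fam_top]) (hA x hx) z hz⟩

/-- comparison with the leading term -/
theorem lead_bound {d : ℕ} {a : ℂ} (ha : a ≠ 0) {A : ℝ} (hA : 0 ≤ A) {p : ℂ[X]}
    (hp : p.natDegree ≤ d) (hlead : p.coeff d = a) (hcoef : ∀ j, ‖p.coeff j‖ ≤ A) {z : ℂ}
    (hz : 1 ≤ ‖z‖) : ‖p.eval z / (a * z ^ d) - 1‖ ≤ (d * A / ‖a‖) / ‖z‖ := by
  have hz0 : z ≠ 0 := by
    rintro rfl; rw [norm_zero] at hz; linarith
  have hzd : z ^ d ≠ 0 := pow_ne_zero _ hz0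
  have h1 : p.eval z / (a * z ^ d) - 1 = (∑ i ∈ Finset.range d, p.coeff i * z ^ i) / (a * z ^ d) := by
    rw [Polynomial.eval_eq_sum_range' (Nat.lt_succ_of_le hp), Finset.sum_range_succ, hlead]
    field_simp
    ring
  rw [h1, norm_div, norm_mul, norm_pow]
  have hzpos : 0 < ‖z‖ := by linarith
  have hapos : 0 < ‖a‖ := norm_pos_iff.mpr ha
  have h2 : ‖∑ i ∈ Finset.range d, p.coeff i * z ^ i‖ ≤ d * A * (‖z‖ ^ d / ‖z‖) := by
    calc ‖∑ i ∈ Finset.range d, p.coeff i * z ^ i‖
        ≤ ∑ i ∈ Finset.range d, ‖p.coeff i * z ^ i‖ := norm_sum_le _ _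
      _ ≤ ∑ _i ∈ Finset.range d, A * (‖z‖ ^ d / ‖z‖) := by
          apply Finset.sum_le_sum
          intro i hi
          rw [norm_mul, norm_pow]
          have hi' := Finset.mem_range.1 hi
          apply mul_le_mul (hcoef i) _ (by positivity) hA
          rw [le_div_iff₀ hzpos, ← pow_succ]
          exact pow_le_pow_right₀ hz (by omega)
      _ = d * A * (‖z‖ ^ d / ‖z‖) := by
          rw [Finset.sum_const, Finset.card_range, nsmul_eq_mul, mul_assoc]
  rw [div_le_div_iff₀ (by positivity) hzpos]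
  calc ‖∑ i ∈ Finset.range d, p.coeff i * z ^ i‖ * ‖z‖ ≤ d * A * (‖z‖ ^ d / ‖z‖) * ‖z‖ :=
        mul_le_mul_of_nonneg_right h2 hzpos.le
    _ = d * A / ‖a‖ * (‖a‖ * ‖z‖ ^ d) := by field_simp

end Pool.Agent.H713R3.ZA
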