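import Mathlib
import Pool.Agent.H713R3.ZA.Fam

set_option autoImplicit false

open Topology Filter Metric Set Polynomial MeasureTheory

namespace Pool.Agent.H713R3.ZA

/-- Böttcher data on a ball of parameters. -/
structure BO (a : ℂ) (n : ℕ) (B R C₁ R₁ R₃ : ℝ) (ψ φ : PE n × ℂ → ℂ) : Prop where
  hR : 1 ≤ R
  hC : 0 < C₁
  hR₁ : R + 2 * C₁ ≤ R₁
  hR₃ : R₁ + C₁ ≤ R₃
  esc : ∀ x : PE n, ‖x‖ ≤ B → ∀ z, R ≤ ‖z‖ → 2 * ‖z‖ ≤ ‖fx a n x z‖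
  ψd : DifferentiableOn ℂ ψ (ball 0 B ×ˢ {w : ℂ | R₁ < ‖w‖})
  ψc : ∀ x ∈ ball (0 : PE n) B, ∀ w : ℂ, R₁ < ‖w‖ → ‖ψ (x, w) - w‖ ≤ C₁
  ψi : ∀ x ∈ ball (0 : PE n) B, InjOn (fun w => ψ (x, w)) {w : ℂ | R₁ < ‖w‖}
  pw : ∀ w : ℂ, R₁ < ‖w‖ → 2 * ‖w‖ ≤ ‖a * w ^ (n + 1)‖
  fe : ∀ x ∈ ball (0 : PE n) B, ∀ w : ℂ, R₁ < ‖w‖ → fx a n x (ψ (x, w)) = ψ (x, a * w ^ (n + 1))
  φd : DifferentiableOn ℂ φ (ball 0 B ×ˢ {z : ℂ | R₃ < ‖z‖})
  φc : ∀ x ∈ ball (0 : PE n) B, ∀ z : ℂ, R₃ < ‖z‖ → ‖φ (x, z) - z‖ ≤ C₁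
  ψφ : ∀ x ∈ ball (0 : PE n) B, ∀ z : ℂ, R₃ < ‖z‖ → ψ (x, φ (x, z)) = z

theorem exists_boett (hB : StBSUM) (hI : StINV) {a : ℂ} (ha : a ≠ 0) {n : ℕ} (hn : 1 ≤ n) {B : ℝ}
    (_hB0 : 0 < B) : ∃ (R C₁ R₁ R₃ : ℝ) (ψ φ : PE n × ℂ → ℂ), BO a n B R C₁ R₁ R₃ ψ φ := by
  obtain ⟨A, hA1, hA⟩ := exists_coeff_bound a n B
  obtain ⟨R₀, hR₀1, hesc⟩ := exists_esc ha hn B
  have hapos : 0 < ‖a‖ := norm_pos_iff.mpr ha
  set K : ℝ := ((n + 1 : ℕ) : ℝ) * A / ‖a‖ with hK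
  have hK0 : 0 ≤ K := by positivity
  set R : ℝ := max R₀ (max (4 * K + 1) (2 / ‖a‖ + 1)) with hR
  have hRR₀ : R₀ ≤ R := le_max_left _ _
  have hRK : 4 * K + 1 ≤ R := (le_max_left _ _).trans (le_max_right _ _)
  have hRa : 2 / ‖a‖ + 1 ≤ R := (le_max_right _ _).trans (le_max_right _ _)
  have hR1 : 1 ≤ R := hR₀1.trans hRR₀
  have hfd : DifferentiableOn ℂ (fun p : PE n × ℂ => fx a n p.1 p.2)
      (ball 0 B ×ˢ {z : ℂ | R < ‖z‖}) :=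
    ((contDiff_fam a n).differentiable (by norm_num)).differentiableOn
  obtain ⟨u, hud, hu⟩ := hB (PE n) (ball 0 B) (n + 1) a R K (fx a n) isOpen_ball (by omega) ha hR1
    hK0 (by linarith) hfd (by
      intro x hx z hz
      have hx' : ‖x‖ ≤ B := (mem_ball_zero_iff.mp hx).le
      exact ⟨hesc x hx' z (by linarith), lead_bound ha (by linarith) (natDegree_fam_le a n x)
        (coeff_fam_top a n x) (hA x hx') (by linarith)⟩)
  -- the Böttcher map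
  set g : PE n × ℂ → ℂ := fun p => p.2 * (Complex.exp (u p) - 1) with hg
  set C₁ : ℝ := 4 * K + 1 with hC₁
  have hC₁0 : 0 < C₁ := by positivity
  have hgd : DifferentiableOn ℂ g (ball 0 B ×ˢ {z : ℂ | R < ‖z‖}) := by
    have h1 : DifferentiableOn ℂ (fun p : PE n × ℂ => p.2) (ball 0 B ×ˢ {z : ℂ | R < ‖z‖}) :=
      differentiable_snd.differentiableOn
    exact h1.mul ((hud.cexp).sub_const 1)
  have hgb : ∀ x ∈ ball (0 : PE n) B, ∀ z : ℂ, R < ‖z‖ → ‖g (x, z)‖ ≤ C₁ := by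
    intro x hx z hz
    have hzpos : 0 < ‖z‖ := by linarith
    have h1 := (hu x hx z hz).1
    have h2 : ‖u (x, z)‖ ≤ 1 := by
      refine h1.trans ?_
      rw [div_le_one hzpos]; linarith
    have h3 : ‖Complex.exp (u (x, z)) - 1‖ ≤ 2 * ‖u (x, z)‖ := Complex.norm_exp_sub_one_le h2
    calc ‖g (x, z)‖ = ‖z‖ * ‖Complex.exp (u (x, z)) - 1‖ := by simp only [hg, norm_mul]
      _ ≤ ‖z‖ * (2 * (2 * K / ‖z‖)) := by
          apply mul_le_mul_of_nonneg_left _ hzpos.le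
          linarith
      _ = 4 * K := by field_simp; ring
      _ ≤ C₁ := by linarith
  set R₁ : ℝ := R + 10 * C₁ with hR₁
  obtain ⟨ψ, hψd, hψ⟩ := hI (PE n) (ball 0 B) R C₁ g isOpen_ball (by linarith) hC₁0 hgd hgb R₁ le_rfl
  set φ : PE n × ℂ → ℂ := fun p => p.2 + g p with hφ
  have hφu : ∀ p : PE n × ℂ, φ p = p.2 * Complex.exp (u p) := by
    intro p; simp only [hφ, hg]; ring
  set R₃ : ℝ := R₁ + C₁ with hR₃
  have hpw : ∀ w : ℂ, R₁ < ‖w‖ → 2 * ‖w‖ ≤ ‖a * w ^ (n + 1)‖ := by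
    intro w hw
    have hw1 : 1 ≤ ‖w‖ := by linarith
    have hw2 : 2 / ‖a‖ ≤ ‖w‖ := by linarith
    rw [div_le_iff₀ hapos] at hw2
    rw [norm_mul, norm_pow, pow_succ]
    have h1 : ‖w‖ ≤ ‖w‖ ^ n := by
      calc ‖w‖ = ‖w‖ ^ 1 := (pow_one _).symm
        _ ≤ ‖w‖ ^ n := pow_le_pow_right₀ hw1 hn
    calc 2 * ‖w‖ ≤ (‖w‖ * ‖a‖) * ‖w‖ := mul_le_mul_of_nonneg_right hw2 (by linarith)
      _ ≤ (‖w‖ ^ n * ‖a‖) * ‖w‖ := by gcongr
      _ = ‖a‖ * (‖w‖ ^ n * ‖w‖) := by ring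
  refine ⟨R, C₁, R₁, R₃, ψ, φ, hR1, hC₁0, by linarith, le_rfl, fun x hx z hz =>
    hesc x hx z (by linarith), hψd, fun x hx w hw => ((hψ x hx).1 w hw).1, ?_, hpw, ?_, ?_, ?_, ?_⟩
  · intro x hx w₁ hw₁ w₂ hw₂ h
    have h1 := ((hψ x hx).1 w₁ hw₁).2
    have h2 := ((hψ x hx).1 w₂ hw₂).2
    simp only at h
    rw [← h1, ← h2, h]
  · intro x hx w hw
    obtain ⟨h1, h2⟩ := (hψ x hx).1 w hw
    set z := ψ (x, w) with hz
    have hzn : R₁ - C₁ < ‖z‖ := by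
      have := norm_sub_norm_le w z
      rw [norm_sub_rev] at this
      linarith
    have hzR : R < ‖z‖ := by linarith
    have h3 : φ (x, z) = w := h2
    have h4 := (hu x hx z hzR).2
    have h5 : φ (x, fx a n x z) = a * w ^ (n + 1) := by
      rw [hφu, ← h3, hφu]
      exact h4
    have h6 := hesc x (mem_ball_zero_iff.mp hx).le z (by linarith)
    have h7 := (hψ x hx).2 (fx a n x z) (by linarith) (by
      change R₁ < ‖φ (x, fx a n x z)‖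
      rw [h5]
      have := hpw w hw
      linarith)
    change ψ (x, φ (x, fx a n x z)) = fx a n x z at h7
    rw [h5] at h7
    exact h7.symm
  · apply (DifferentiableOn.add differentiable_snd.differentiableOn hgd).mono
    apply prod_mono subset_rfl
    intro z (hz : R₃ < ‖z‖)
    show R < ‖z‖
    linarith
  · intro x hx z hz
    have : φ (x, z) - z = g (x, z) := by simp only [hφ]; ring
    rw [this]
    exact hgb x hx z (by linarith)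
  · intro x hx z hz
    apply (hψ x hx).2 z (by linarith)
    have h1 := hgb x hx z (by linarith)
    have h2 : ‖z‖ - ‖g (x, z)‖ ≤ ‖z + g (x, z)‖ := by
      have := norm_sub_norm_le z (-g (x, z))
      rwa [norm_neg, sub_neg_eq_add] at this
    linarith

end Pool.Agent.H713R3.ZA
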