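import Mathlib

set_option autoImplicit false

open Topology Filter Metric Set MeasureTheory

namespace Pool.Agent.H713R3.ZA

theorem circ_mem {ρ r : ℝ} (hr : 0 < r) (hρ : r < ρ) (θ : ℝ) : circleMap 0 r θ ∈ ball (0 : ℂ) ρ := by
  rw [mem_ball_zero_iff, norm_circleMap_zero, abs_of_pos hr]
  exact hρ

theorem circ_cont {ρ r : ℝ} (hr : 0 < r) (hρ : r < ρ) {E : Type} [TopologicalSpace E] {h : ℂ → E}
    (hd : ContinuousOn h (ball (0 : ℂ) ρ)) : Continuous fun θ : ℝ => h (circleMap 0 r θ) :=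
  hd.comp_continuous (continuous_circleMap 0 r) (circ_mem hr hρ)

theorem circ_mean {ρ r : ℝ} {h : ℂ → ℂ} (hr : 0 < r) (hρ : r < ρ)
    (hd : DifferentiableOn ℂ h (ball (0 : ℂ) ρ)) :
    (∫ θ in (0 : ℝ)..(2 * Real.pi), h (circleMap 0 r θ)) = 2 * Real.pi * h 0 := by
  have hpi := Real.pi_pos
  have hcl : closedBall (0 : ℂ) r ⊆ ball (0 : ℂ) ρ := closedBall_subset_ball hρ
  have hmv : Real.circleAverage h 0 r = h 0 := by
    have h1 : DiffContOnCl ℂ h (ball (0 : ℂ) |r|) := by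
      rw [abs_of_pos hr]
      apply DifferentiableOn.diffContOnCl
      rw [closure_ball _ hr.ne']
      exact hd.mono hcl
    rw [h1.circleAverage]
  unfold Real.circleAverage at hmv
  have h2 : ((2 * Real.pi : ℝ)) • ((2 * Real.pi)⁻¹ • ∫ θ in (0 : ℝ)..(2 * Real.pi),
      h (circleMap 0 r θ)) = (2 * Real.pi : ℝ) • (h 0) := by rw [hmv]
  rw [smul_smul, mul_inv_cancel₀ (by positivity), one_smul] at h2
  rw [h2, Complex.real_smul]
  push_cast
  ring

theorem circ_sq {ρ r : ℝ} {u : ℂ → ℂ} (hr : 0 < r) (hρ : r < ρ)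
    (hd : DifferentiableOn ℂ u (ball (0 : ℂ) ρ)) (b : ℂ) :
    ∫ θ in (0 : ℝ)..(2 * Real.pi), ‖u (circleMap 0 r θ) - b‖ ^ 2 =
      2 * Real.pi * ‖u 0 - b‖ ^ 2 +
        ∫ θ in (0 : ℝ)..(2 * Real.pi), ‖u (circleMap 0 r θ) - u 0‖ ^ 2 := by
  set w := (starRingEnd ℂ) (u 0 - b) with hw
  have hc := circ_cont hr hρ hd.continuousOn
  have h1 : ∀ θ : ℝ, ‖u (circleMap 0 r θ) - b‖ ^ 2 = ‖u 0 - b‖ ^ 2 +
      ‖u (circleMap 0 r θ) - u 0‖ ^ 2 + 2 * (w * (u (circleMap 0 r θ) - u 0)).re := by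
    intro θ
    have h2 : u (circleMap 0 r θ) - b = (u 0 - b) + (u (circleMap 0 r θ) - u 0) := by ring
    rw [h2]
    generalize u (circleMap 0 r θ) - u 0 = v
    rw [hw]
    generalize u 0 - b = c
    rw [← Complex.normSq_eq_norm_sq, ← Complex.normSq_eq_norm_sq, ← Complex.normSq_eq_norm_sq,
      Complex.normSq_add]
    have : (c * (starRingEnd ℂ) v).re = ((starRingEnd ℂ) c * v).re := by
      simp only [Complex.mul_re, Complex.conj_re, Complex.conj_im]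
      ring
    rw [this]
  have h3 : ∫ θ in (0 : ℝ)..(2 * Real.pi), (w * (u (circleMap 0 r θ) - u 0)).re = 0 := by
    have h4 : DifferentiableOn ℂ (fun t => w * (u t - u 0)) (ball (0 : ℂ) ρ) :=
      (hd.sub_const _).const_mul w
    have h5 := circ_mean hr hρ h4
    simp only [sub_self, mul_zero] at h5
    have h6 := Complex.reCLM.intervalIntegral_comp_comm (μ := volume) (a := 0) (b := 2 * Real.pi)
      ((circ_cont hr hρ h4.continuousOn).intervalIntegrable _ _)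
    rw [h5] at h6
    simpa using h6
  have i1 : IntervalIntegrable (fun θ : ℝ => ‖u 0 - b‖ ^ 2 + ‖u (circleMap 0 r θ) - u 0‖ ^ 2)
      volume 0 (2 * Real.pi) :=
    (continuous_const.add ((hc.sub continuous_const).norm.pow 2)).intervalIntegrable _ _
  have i2 : IntervalIntegrable (fun θ : ℝ => 2 * (w * (u (circleMap 0 r θ) - u 0)).re)
      volume 0 (2 * Real.pi) :=
    (continuous_const.mul (Complex.continuous_re.comp (continuous_const.mul
      (hc.sub continuous_const)))).intervalIntegrable _ _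
  have i3 : IntervalIntegrable (fun θ : ℝ => ‖u (circleMap 0 r θ) - u 0‖ ^ 2)
      volume 0 (2 * Real.pi) := ((hc.sub continuous_const).norm.pow 2).intervalIntegrable _ _
  simp only [h1]
  rw [intervalIntegral.integral_add i1 i2, intervalIntegral.integral_const_mul, h3, mul_zero,
    add_zero, intervalIntegral.integral_add (continuous_const.intervalIntegrable _ _) i3,
    intervalIntegral.integral_const, smul_eq_mul, sub_zero]

theorem circ_deriv {ρ r : ℝ} {u : ℂ → ℂ} (hr : 0 < r) (hρ : r < ρ)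
    (hd : DifferentiableOn ℂ u (ball (0 : ℂ) ρ)) :
    2 * Real.pi * (r ^ 2 * ‖deriv u 0‖ ^ 2) ≤
      ∫ θ in (0 : ℝ)..(2 * Real.pi), ‖u (circleMap 0 r θ) - u 0‖ ^ 2 := by
  have h0 : (0 : ℂ) ∈ ball (0 : ℂ) ρ := mem_ball_self (hr.trans hρ)
  set h : ℂ → ℂ := dslope u 0 with hh
  have hhd : DifferentiableOn ℂ h (ball (0 : ℂ) ρ) :=
    (Complex.differentiableOn_dslope (isOpen_ball.mem_nhds h0)).mpr hd
  have h1 : ∀ θ : ℝ, ‖u (circleMap 0 r θ) - u 0‖ ^ 2 = r ^ 2 * ‖h (circleMap 0 r θ)‖ ^ 2 := by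
    intro θ
    have h2 : u (circleMap 0 r θ) - u 0 = (circleMap 0 r θ - 0) • h (circleMap 0 r θ) :=
      (sub_smul_dslope u 0 _).symm
    rw [h2, sub_zero, smul_eq_mul, norm_mul, norm_circleMap_zero, abs_of_pos hr, mul_pow]
  have h2 := circ_sq hr hρ hhd 0
  simp only [sub_zero] at h2
  have h3 : 0 ≤ ∫ θ in (0 : ℝ)..(2 * Real.pi), ‖h (circleMap 0 r θ) - h 0‖ ^ 2 :=
    intervalIntegral.integral_nonneg (by positivity) (fun θ _ => by positivity)
  have h4 : h 0 = deriv u 0 := dslope_same u 0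
  simp only [h1]
  rw [intervalIntegral.integral_const_mul, h2, h4]
  have h5 : 0 ≤ r ^ 2 * ∫ θ in (0 : ℝ)..(2 * Real.pi), ‖h (circleMap 0 r θ) - deriv u 0‖ ^ 2 := by
    rw [h4] at h3
    positivity
  linarith [mul_add (r ^ 2) (2 * Real.pi * ‖deriv u 0‖ ^ 2)
    (∫ θ in (0 : ℝ)..(2 * Real.pi), ‖h (circleMap 0 r θ) - deriv u 0‖ ^ 2)]

theorem circ_log {ρ r : ℝ} {g : ℂ → ℂ} (hr : 0 < r) (hρ : r < ρ)
    (hd : DifferentiableOn ℂ g (ball (0 : ℂ) ρ)) (hg : ∀ t ∈ ball (0 : ℂ) ρ, g t ≠ 0) :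
    ∫ θ in (0 : ℝ)..(2 * Real.pi), Real.log ‖g (circleMap 0 r θ)‖ =
      2 * Real.pi * Real.log ‖g 0‖ := by
  have hpi := Real.pi_pos
  have hcl : closedBall (0 : ℂ) r ⊆ ball (0 : ℂ) ρ := closedBall_subset_ball hρ
  have h1 : InnerProductSpace.HarmonicOnNhd (fun z => Real.log ‖g z‖) (closedBall (0 : ℂ) |r|) := by
    intro z hz
    rw [abs_of_pos hr] at hz
    exact ((hd.analyticOnNhd isOpen_ball) z (hcl hz)).harmonicAt_log_norm (hg z (hcl hz))
  have hmv := h1.circleAverage_eq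
  unfold Real.circleAverage at hmv
  have h2 : ((2 * Real.pi : ℝ)) • ((2 * Real.pi)⁻¹ • ∫ θ in (0 : ℝ)..(2 * Real.pi),
      Real.log ‖g (circleMap 0 r θ)‖) = (2 * Real.pi : ℝ) • (Real.log ‖g 0‖) := by rw [hmv]
  rw [smul_smul, mul_inv_cancel₀ (by positivity), one_smul] at h2
  rw [h2, smul_eq_mul]

end Pool.Agent.H713R3.ZA
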