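import Mathlib
import Pool.Agent.H713R3.ZA.Boett
import Pool.Agent.H792R2.Dyn.Basic

set_option autoImplicit false

open Topology Filter Metric Set Polynomial MeasureTheory

namespace Pool.Agent.H713R3.ZA

/-- The model map near infinity. -/
noncomputable def QQ (a : ℂ) (n : ℕ) : ℂ → ℂ := fun w => a * w ^ (n + 1)

theorem BO.QQ_iter {a : ℂ} {n : ℕ} {B R C₁ R₁ R₃ : ℝ} {ψ φ : PE n × ℂ → ℂ}
    (hb : BO a n B R C₁ R₁ R₃ ψ φ) {w : ℂ} (hw : R₁ < ‖w‖) (N : ℕ) :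
    R₁ < ‖(QQ a n)^[N] w‖ := by
  have hR₁ : 0 < R₁ := by have := hb.hR; have := hb.hC; have := hb.hR₁; linarith
  induction N with
  | zero => exact hw
  | succ N ih =>
    rw [Function.iterate_succ_apply']
    have h1 := hb.pw _ ih
    have h2 : QQ a n ((QQ a n)^[N] w) = a * (QQ a n)^[N] w ^ (n + 1) := rfl
    rw [h2]
    linarith

theorem BO.fe_iter {a : ℂ} {n : ℕ} {B R C₁ R₁ R₃ : ℝ} {ψ φ : PE n × ℂ → ℂ}
    (hb : BO a n B R C₁ R₁ R₃ ψ φ) {x : PE n} (hx : x ∈ ball (0 : PE n) B) {w : ℂ}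
    (hw : R₁ < ‖w‖) (N : ℕ) : (fx a n x)^[N] (ψ (x, w)) = ψ (x, (QQ a n)^[N] w) := by
  induction N with
  | zero => rfl
  | succ N ih =>
    rw [Function.iterate_succ_apply', ih, hb.fe x hx _ (hb.QQ_iter hw N),
      Function.iterate_succ_apply']
    rfl

theorem fx_differentiable (a : ℂ) (n : ℕ) (x : PE n) : Differentiable ℂ (fx a n x) :=
  (fam a n x).differentiable

theorem deriv_fx (a : ℂ) (n : ℕ) (x : PE n) (z : ℂ) :
    deriv (fx a n x) z = a * ((n : ℂ) + 1) * ∏ i : Fin n, (z - x (some i)) := by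
  have h1 : deriv (fx a n x) z = (derivative (fam a n x)).eval z := (fam a n x).deriv
  rw [h1, derivative_fam, dfam, eval_mul, eval_C, eval_prod]
  simp

theorem exists_crit {a : ℂ} (ha : a ≠ 0) {n : ℕ} {x : PE n} {z : ℂ}
    (h : deriv (fx a n x) z = 0) : ∃ i : Fin n, z = x (some i) := by
  rw [deriv_fx] at h
  have h1 : a * ((n : ℂ) + 1) ≠ 0 := mul_ne_zero ha (Nat.cast_add_one_ne_zero n)
  have h2 := (mul_eq_zero.mp h).resolve_left h1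
  rw [Finset.prod_eq_zero_iff] at h2
  obtain ⟨i, -, hi⟩ := h2
  exact ⟨i, sub_eq_zero.mp hi⟩

theorem exists_crit_iter {a : ℂ} (ha : a ≠ 0) {n : ℕ} {x : PE n} {z : ℂ} (N : ℕ)
    (h : deriv ((fx a n x)^[N]) z = 0) :
    ∃ (i : Fin n) (m : ℕ), 1 ≤ m ∧ m ≤ N ∧ (fx a n x)^[N] z = (fx a n x)^[m] (x (some i)) := by
  induction N generalizing z with
  | zero =>
    exfalso
    rw [Function.iterate_zero, deriv_id] at h
    exact one_ne_zero h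
  | succ N ih =>
    rw [Function.iterate_succ, deriv_comp _ (((fx_differentiable a n x).iterate N) _)
      ((fx_differentiable a n x) _), mul_eq_zero] at h
    rcases h with h | h
    · obtain ⟨i, m, h1, h2, h3⟩ := ih h
      exact ⟨i, m, h1, by omega, by rw [Function.iterate_succ_apply]; exact h3⟩
    · obtain ⟨i, hi⟩ := exists_crit ha h
      exact ⟨i, N + 1, by omega, le_rfl, by rw [hi]⟩

theorem lt_of_mem_KJ {a : ℂ} {n : ℕ} {B R C₁ R₁ R₃ : ℝ} {ψ φ : PE n × ℂ → ℂ}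
    (hb : BO a n B R C₁ R₁ R₃ ψ φ) {x : PE n} (hx : x ∈ ball (0 : PE n) B) {z : ℂ}
    (hz : z ∈ KJ (fam a n x)) (k : ℕ) : ‖(fx a n x)^[k] z‖ < R := by
  have hR : 0 < R := by have := hb.hR; linarith
  by_contra h1
  push Not at h1
  apply hz
  rw [← tendsto_add_atTop_iff_nat k]
  have h2 := Pool.Agent.H792R2.Dyn.attr_of_large hR
    (fun z hz => hb.esc x (mem_ball_zero_iff.mp hx).le z hz) h1
  simp only [← Function.iterate_add_apply] at h2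
  exact h2

theorem not_mem_KJ_of_large {a : ℂ} {n : ℕ} {B R C₁ R₁ R₃ : ℝ} {ψ φ : PE n × ℂ → ℂ}
    (hb : BO a n B R C₁ R₁ R₃ ψ φ) {x : PE n} (hx : x ∈ ball (0 : PE n) B) {z : ℂ} {k : ℕ}
    (h : R ≤ ‖(fx a n x)^[k] z‖) : z ∉ KJ (fam a n x) := fun hz =>
  absurd (lt_of_mem_KJ hb hx hz k) (not_lt.mpr h)

theorem iter_large {a : ℂ} {n : ℕ} {B R C₁ R₁ R₃ : ℝ} {ψ φ : PE n × ℂ → ℂ}
    (hb : BO a n B R C₁ R₁ R₃ ψ φ) {x : PE n} (hx : x ∈ ball (0 : PE n) B) {z : ℂ}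
    (hz : R ≤ ‖z‖) (k : ℕ) : ‖z‖ ≤ ‖(fx a n x)^[k] z‖ := by
  induction k with
  | zero => exact le_rfl
  | succ k ih =>
    rw [Function.iterate_succ_apply']
    have h1 := hb.esc x (mem_ball_zero_iff.mp hx).le _ (hz.trans ih)
    have := norm_nonneg ((fx a n x)^[k] z)
    linarith

/-- Rigid one-parameter families. -/
structure RD (a : ℂ) (n : ℕ) (B R C₁ R₁ R₃ : ℝ) (ψ φ : PE n × ℂ → ℂ) (ρ : ℝ) (γ : ℂ → PE n)
    (E₀ : Set (Fin n)) (M : ℕ) (F : Fin n → ℂ) : Prop where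
  hρ : 0 < ρ
  γd : DifferentiableOn ℂ γ (ball 0 ρ)
  γB : ∀ t ∈ ball (0 : ℂ) ρ, γ t ∈ ball (0 : PE n) B
  hF : ∀ i ∈ E₀, R₁ < ‖F i‖
  rig : ∀ i ∈ E₀, ∀ t ∈ ball (0 : ℂ) ρ, (fx a n (γ t))^[M] (γ t (some i)) = ψ (γ t, F i)
  non : ∀ i, i ∉ E₀ → ∀ t ∈ ball (0 : ℂ) ρ, γ t (some i) ∈ KJ (fam a n (γ t))
  cen : ∀ t ∈ ball (0 : ℂ) ρ, (fam a n (γ t)).coeff n = (fam a n (γ 0)).coeff n

/-- Points where the motion is not followed. -/
def Bad (a : ℂ) (n : ℕ) (x : PE n) (E₀ : Set (Fin n)) (M N : ℕ) : Set ℂ :=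
  {z | ∃ i ∈ E₀, ∃ m : ℕ, 1 ≤ m ∧ m ≤ N ∧
    (fx a n x)^[N + M] z = (fx a n x)^[m + M] (x (some i))}

/-- The domain of the motion at level `N`. -/
def WN (a : ℂ) (n : ℕ) (R₃ : ℝ) (x : PE n) (N : ℕ) : Set ℂ := {z | R₃ < ‖(fx a n x)^[N] z‖}

section
variable {a : ℂ} {n : ℕ} {B R C₁ R₁ R₃ : ℝ} {ψ φ : PE n × ℂ → ℂ} {ρ : ℝ} {γ : ℂ → PE n}
  {E₀ : Set (Fin n)} {M : ℕ} {F : Fin n → ℂ}

/-- the marked value -/
noncomputable def PN (a : ℂ) (n : ℕ) (φ : PE n × ℂ → ℂ) (x : PE n) (N : ℕ) (z : ℂ) : ℂ :=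
  φ (x, (fx a n x)^[N] z)

theorem PN_norm (hb : BO a n B R C₁ R₁ R₃ ψ φ) {x : PE n} (hx : x ∈ ball (0 : PE n) B) {N : ℕ}
    {z : ℂ} (hz : z ∈ WN a n R₃ x N) : R₁ < ‖PN a n φ x N z‖ := by
  have h1 := hb.φc x hx _ hz
  have h2 : ‖(fx a n x)^[N] z‖ - ‖PN a n φ x N z‖ ≤ C₁ := by
    have := norm_sub_norm_le ((fx a n x)^[N] z) (PN a n φ x N z)
    rw [norm_sub_rev] at this
    exact this.trans h1
  have h3 : R₃ < ‖(fx a n x)^[N] z‖ := hz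
  have := hb.hR₃
  linarith

theorem ψ_PN (hb : BO a n B R C₁ R₁ R₃ ψ φ) {x : PE n} (hx : x ∈ ball (0 : PE n) B) {N : ℕ}
    {z : ℂ} (hz : z ∈ WN a n R₃ x N) : ψ (x, PN a n φ x N z) = (fx a n x)^[N] z :=
  hb.ψφ x hx _ hz

/-- All the solutions are simple. -/
theorem simple_root (ha : a ≠ 0) (hb : BO a n B R C₁ R₁ R₃ ψ φ)
    (hr : RD a n B R C₁ R₁ R₃ ψ φ ρ γ E₀ M F) {N : ℕ} {z : ℂ} (hz : z ∈ WN a n R₃ (γ 0) N)
    (hbad : z ∉ Bad a n (γ 0) E₀ M N) {t : ℂ} (ht : t ∈ ball (0 : ℂ) ρ) {ζ : ℂ}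
    (hζ : (fx a n (γ t))^[N] ζ = ψ (γ t, PN a n φ (γ 0) N z)) :
    deriv ((fx a n (γ t))^[N]) ζ ≠ 0 := by
  intro h0
  have h00 := hr.γB 0 (mem_ball_self hr.hρ)
  have htB := hr.γB t ht
  set w := PN a n φ (γ 0) N z with hw
  have hw1 : R₁ < ‖w‖ := PN_norm hb h00 hz
  obtain ⟨i, m, hm1, hm2, hm3⟩ := exists_crit_iter ha N h0
  rw [hζ] at hm3
  by_cases hi : i ∈ E₀
  · apply hbad
    refine ⟨i, hi, m, hm1, hm2, ?_⟩
    have h1 : ψ (γ t, (QQ a n)^[M] w) = ψ (γ t, (QQ a n)^[m] (F i)) := by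
      rw [← hb.fe_iter htB hw1, hm3, ← hb.fe_iter htB (hr.hF i hi), ← hr.rig i hi t ht,
        ← Function.iterate_add_apply, ← Function.iterate_add_apply, Nat.add_comm]
    have h2 := hb.ψi _ htB (hb.QQ_iter hw1 M) (hb.QQ_iter (hr.hF i hi) m) h1
    rw [Nat.add_comm N M, Function.iterate_add_apply, ← ψ_PN hb h00 hz, ← hw,
      hb.fe_iter h00 hw1, h2, ← hb.fe_iter h00 (hr.hF i hi), ← hr.rig i hi 0 (mem_ball_self hr.hρ),
      ← Function.iterate_add_apply]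
  · have h1 := lt_of_mem_KJ hb htB (hr.non i hi t ht) m
    rw [← hm3] at h1
    have h2 := hb.ψc _ htB w hw1
    have h3 := norm_sub_norm_le w (ψ (γ t, w))
    rw [norm_sub_rev] at h3
    have := hb.hR₁
    have := hb.hC
    linarith

end

end Pool.Agent.H713R3.ZA
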