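import Mathlib
import Pool.Agent.H713R3.ZA.Mot1
import Pool.Agent.Helper540.Holo

set_option autoImplicit false

open Topology Filter Metric Set Polynomial MeasureTheory

namespace Pool.Agent.H713R3.ZA

section
variable {a : ℂ} {n : ℕ} {B R C₁ R₁ R₃ : ℝ} {ψ φ : PE n × ℂ → ℂ} {ρ : ℝ} {γ : ℂ → PE n}
  {E₀ : Set (Fin n)} {M : ℕ} {F : Fin n → ℂ}

/-- domain of the motion -/
def WD (a : ℂ) (n : ℕ) (R₃ : ℝ) (x : PE n) (E₀ : Set (Fin n)) (M N : ℕ) : Set ℂ :=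
  WN a n R₃ x N \ Bad a n x E₀ M N

theorem isOpen_WN (a : ℂ) (n : ℕ) (R₃ : ℝ) (x : PE n) (N : ℕ) : IsOpen (WN a n R₃ x N) :=
  isOpen_lt continuous_const ((fx_differentiable a n x).continuous.iterate N).norm

theorem PN_diff (hb : BO a n B R C₁ R₁ R₃ ψ φ) {x : PE n} (hx : x ∈ ball (0 : PE n) B) (N : ℕ) :
    DifferentiableOn ℂ (PN a n φ x N) (WN a n R₃ x N) := by
  intro z hz
  apply DifferentiableAt.differentiableWithinAt
  have h1 : DifferentiableAt ℂ φ (x, (fx a n x)^[N] z) :=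
    hb.φd.differentiableAt ((isOpen_ball.prod (isOpen_lt continuous_const continuous_norm)).mem_nhds
      ⟨hx, hz⟩)
  have h2 : DifferentiableAt ℂ (fun z : ℂ => ((x, (fx a n x)^[N] z) : PE n × ℂ)) z :=
    (differentiableAt_const x).prodMk (((fx_differentiable a n x).iterate N) z)
  exact h1.comp z h2

theorem ψ_comp_diff (hb : BO a n B R C₁ R₁ R₃ ψ φ) {V : Type} [NormedAddCommGroup V]
    [NormedSpace ℂ V] {U : Set V} {g : V → PE n} {w : V → ℂ} (hg : DifferentiableOn ℂ g U)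
    (hw : DifferentiableOn ℂ w U) (hgB : ∀ s ∈ U, g s ∈ ball (0 : PE n) B)
    (hwR : ∀ s ∈ U, R₁ < ‖w s‖) : DifferentiableOn ℂ (fun s => ψ (g s, w s)) U := by
  have h1 : DifferentiableOn ℂ (fun s => ((g s, w s) : PE n × ℂ)) U := hg.prodMk hw
  exact hb.ψd.comp h1 (fun s hs => ⟨hgB s hs, hwR s hs⟩)

theorem root_gen (hROOT : StROOT) (ha : a ≠ 0) (hb : BO a n B R C₁ R₁ R₃ ψ φ)
    (hr : RD a n B R C₁ R₁ R₃ ψ φ ρ γ E₀ M F) (N : ℕ) {V : Type} [NormedAddCommGroup V]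
    [NormedSpace ℂ V] [FiniteDimensional ℂ V] {U : Set V} (hUo : IsOpen U) (hUc : Convex ℝ U)
    {τ σ : V → ℂ} (hτ : DifferentiableOn ℂ τ U) (hσ : DifferentiableOn ℂ σ U)
    (hτm : ∀ s ∈ U, τ s ∈ ball (0 : ℂ) ρ) (hσm : ∀ s ∈ U, σ s ∈ WD a n R₃ (γ 0) E₀ M N)
    {s₀ : V} (hs₀ : s₀ ∈ U) {u : ℂ}
    (hu : (fx a n (γ (τ s₀)))^[N] u = ψ (γ (τ s₀), PN a n φ (γ 0) N (σ s₀))) :
    ∃ Z : V → ℂ, DifferentiableOn ℂ Z U ∧ Z s₀ = u ∧
      (∀ s ∈ U, (fx a n (γ (τ s)))^[N] (Z s) = ψ (γ (τ s), PN a n φ (γ 0) N (σ s))) ∧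
      ∀ Z' : V → ℂ, ContinuousOn Z' U → (∃ s₁ ∈ U, Z' s₁ = Z s₁) →
        (∀ s ∈ U, (fx a n (γ (τ s)))^[N] (Z' s) = ψ (γ (τ s), PN a n φ (γ 0) N (σ s))) →
        ∀ s ∈ U, Z' s = Z s := by
  have h00 := hr.γB 0 (mem_ball_self hr.hρ)
  have hγτ : DifferentiableOn ℂ (fun s => γ (τ s)) U := hr.γd.comp hτ hτm
  have hPσ : DifferentiableOn ℂ (fun s => PN a n φ (γ 0) N (σ s)) U :=
    (PN_diff hb h00 N).comp hσ (fun s hs => (hσm s hs).1)
  have hPR : ∀ s ∈ U, R₁ < ‖PN a n φ (γ 0) N (σ s)‖ := fun s hs => PN_norm hb h00 (hσm s hs).1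
  have hψd : DifferentiableOn ℂ (fun s => ψ (γ (τ s), PN a n φ (γ 0) N (σ s))) U :=
    ψ_comp_diff hb hγτ hPσ (fun s hs => hr.γB _ (hτm s hs)) hPR
  set G : V → ℂ → ℂ := fun s z => (fx a n (γ (τ s)))^[N] z - ψ (γ (τ s), PN a n φ (γ 0) N (σ s))
    with hG
  have hGd : DifferentiableOn ℂ (fun p : V × ℂ => G p.1 p.2) (U ×ˢ univ) := by
    have h1 : DifferentiableOn ℂ (fun p : V × ℂ => ((γ (τ p.1), p.2) : PE n × ℂ)) (U ×ˢ univ) := by
      apply DifferentiableOn.prodMk _ differentiable_snd.differentiableOn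
      exact hγτ.comp differentiable_fst.differentiableOn (fun p hp => hp.1)
    have h2 : DifferentiableOn ℂ (fun p : V × ℂ => (fx a n (γ (τ p.1)))^[N] p.2) (U ×ˢ univ) := by
      have hH := (contDiff_fx a n N).differentiable (by norm_num)
      revert hH
      generalize hHe : (fun q : PE n × ℂ => (fx a n q.1)^[N] q.2) = H
      intro hH
      have h4 : (fun p : V × ℂ => (fx a n (γ (τ p.1)))^[N] p.2) =
          fun p => H ((fun p : V × ℂ => ((γ (τ p.1), p.2) : PE n × ℂ)) p) := by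
        funext p
        rw [← hHe]
      rw [h4]
      exact hH.comp_differentiableOn h1
    have h3 : DifferentiableOn ℂ (fun p : V × ℂ => ψ (γ (τ p.1), PN a n φ (γ 0) N (σ p.1)))
        (U ×ˢ univ) := hψd.comp differentiable_fst.differentiableOn (fun p hp => hp.1)
    exact h2.sub h3
  have hGc : ContDiffOn ℂ 1 (fun p : V × ℂ => G p.1 p.2) (U ×ˢ univ) := by
    exact_mod_cast Pool.Agent.Helper540.contDiffOn_of_differentiableOn (hUo.prod isOpen_univ) hGd 1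
  obtain ⟨Z, hZd, hZ0, hZr, hZu⟩ := hROOT V U G hUo hUc hGc (by
    intro K hKU hK M'
    obtain ⟨A, hA⟩ := hK.exists_bound_of_continuousOn (hψd.continuousOn.mono hKU)
    refine ⟨max R (M' + A), fun s hs z hz => ?_⟩
    by_contra hcon
    push Not at hcon
    rw [max_lt_iff] at hcon
    have h1 := iter_large hb (hr.γB _ (hτm s (hKU hs))) hcon.1.le N
    have h2 : ‖(fx a n (γ (τ s)))^[N] z‖ ≤ ‖G s z‖ + ‖ψ (γ (τ s), PN a n φ (γ 0) N (σ s))‖ := by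
      have : (fx a n (γ (τ s)))^[N] z = G s z + ψ (γ (τ s), PN a n φ (γ 0) N (σ s)) := by
        simp only [hG]; ring
      rw [this]; exact norm_add_le _ _
    have h3 := hA s hs
    linarith [hcon.2]) (by
    intro s hs z hz
    have h1 : deriv (G s) z = deriv ((fx a n (γ (τ s)))^[N]) z := by
      simp only [hG]
      exact deriv_sub_const (f := (fx a n (γ (τ s)))^[N]) _
    rw [h1]
    have h2 := hσm s hs
    exact simple_root ha hb hr h2.1 h2.2 (hτm s hs) (sub_eq_zero.mp hz)) s₀ hs₀ u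
    (by simp only [hG]; rw [hu, sub_self])
  refine ⟨Z, hZd, hZ0, fun s hs => sub_eq_zero.mp (hZr s hs), ?_⟩
  intro Z' h1 h2 h3
  exact hZu Z' h1 h2 (fun s hs => by simp only [hG]; rw [h3 s hs, sub_self])

/-- Bad points form a finite set. -/
theorem bad_finite (ha : a ≠ 0) (hn : 1 ≤ n) (x : PE n) (E₀ : Set (Fin n)) (M N : ℕ) :
    (Bad a n x E₀ M N).Finite := by
  have hiter : ∀ k : ℕ, ∃ P : ℂ[X], 0 < P.natDegree ∧ ∀ z, P.eval z = (fx a n x)^[k] z := by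
    intro k
    induction k with
    | zero => exact ⟨X, by simp, fun z => by simp⟩
    | succ k ih =>
      obtain ⟨P, hP, hPe⟩ := ih
      refine ⟨(fam a n x).comp P, ?_, fun z => ?_⟩
      · rw [natDegree_comp, natDegree_fam ha]
        exact Nat.mul_pos (by omega) hP
      · rw [eval_comp, hPe, Function.iterate_succ_apply']
        rfl
  obtain ⟨P, hP, hPe⟩ := hiter (N + M)
  have h1 : Bad a n x E₀ M N ⊆ ⋃ i : Fin n, ⋃ m ∈ Finset.range (N + 1),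
      {z | P.eval z = (fx a n x)^[m + M] (x (some i))} := by
    rintro z ⟨i, hi, m, hm1, hm2, hm3⟩
    rw [mem_iUnion]
    refine ⟨i, ?_⟩
    rw [mem_iUnion₂]
    exact ⟨m, Finset.mem_range.mpr (by omega), by rw [mem_ofPred, hPe]; exact hm3⟩
  refine Set.Finite.subset ?_ h1
  apply finite_iUnion
  intro i
  apply Set.Finite.biUnion (Finset.finite_toSet _)
  intro m _
  set c := (fx a n x)^[m + M] (x (some i)) with hc
  have h2 : P - C c ≠ 0 := by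
    intro h
    have h3 : P = C c := sub_eq_zero.mp h
    rw [h3, natDegree_C] at hP
    omega
  apply (Multiset.finite_toSet (P - C c).roots).subset
  intro z hz
  rw [Set.mem_ofPred] at hz
  show z ∈ (P - C c).roots
  rw [mem_roots h2, IsRoot.def, eval_sub, eval_C, hz, sub_self]

theorem isOpen_WD (ha : a ≠ 0) (hn : 1 ≤ n) (x : PE n) (E₀ : Set (Fin n)) (M N : ℕ) :
    IsOpen (WD a n R₃ x E₀ M N) :=
  (isOpen_WN a n R₃ x N).sdiff (bad_finite ha hn x E₀ M N).isClosed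

/-- The motion at level `N`. -/
theorem exists_mot (hROOT : StROOT) (ha : a ≠ 0) (hn : 1 ≤ n) (hb : BO a n B R C₁ R₁ R₃ ψ φ)
    (hr : RD a n B R C₁ R₁ R₃ ψ φ ρ γ E₀ M F) (N : ℕ) :
    ∃ Φ : ℂ → ℂ → ℂ,
      DifferentiableOn ℂ (fun p : ℂ × ℂ => Φ p.1 p.2) (ball (0 : ℂ) ρ ×ˢ WD a n R₃ (γ 0) E₀ M N) ∧
      (∀ z ∈ WD a n R₃ (γ 0) E₀ M N, Φ 0 z = z) ∧
      (∀ t ∈ ball (0 : ℂ) ρ, ∀ z ∈ WD a n R₃ (γ 0) E₀ M N,
        (fx a n (γ t))^[N] (Φ t z) = ψ (γ t, PN a n φ (γ 0) N z)) ∧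
      ∀ z ∈ WD a n R₃ (γ 0) E₀ M N, ∀ Z' : ℂ → ℂ, ContinuousOn Z' (ball (0 : ℂ) ρ) →
        (∃ t₁ ∈ ball (0 : ℂ) ρ, Z' t₁ = Φ t₁ z) →
        (∀ t ∈ ball (0 : ℂ) ρ, (fx a n (γ t))^[N] (Z' t) = ψ (γ t, PN a n φ (γ 0) N z)) →
        ∀ t ∈ ball (0 : ℂ) ρ, Z' t = Φ t z := by
  classical
  have h00 := hr.γB 0 (mem_ball_self hr.hρ)
  set W := WD a n R₃ (γ 0) E₀ M N with hW
  have hWo : IsOpen W := isOpen_WD ha hn (γ 0) E₀ M N
  have h1 : ∀ z ∈ W, ∃ Z : ℂ → ℂ, DifferentiableOn ℂ Z (ball 0 ρ) ∧ Z 0 = z ∧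
      (∀ t ∈ ball (0 : ℂ) ρ, (fx a n (γ t))^[N] (Z t) = ψ (γ t, PN a n φ (γ 0) N z)) ∧
      ∀ Z' : ℂ → ℂ, ContinuousOn Z' (ball 0 ρ) → (∃ s₁ ∈ ball (0 : ℂ) ρ, Z' s₁ = Z s₁) →
        (∀ t ∈ ball (0 : ℂ) ρ, (fx a n (γ t))^[N] (Z' t) = ψ (γ t, PN a n φ (γ 0) N z)) →
        ∀ t ∈ ball (0 : ℂ) ρ, Z' t = Z t := by
    intro z hz
    exact root_gen hROOT ha hb hr N (V := ℂ) (U := ball 0 ρ) (τ := id) (σ := fun _ => z)
      isOpen_ball (convex_ball 0 ρ) differentiableOn_id (differentiableOn_const z)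
      (fun s hs => hs) (fun _ _ => hz) (mem_ball_self hr.hρ) (ψ_PN hb h00 hz.1).symm
  choose! Z hZd hZ0 hZr hZu using h1
  refine ⟨fun t z => Z z t, ?_, hZ0, fun t ht z hz => hZr z hz t ht, fun z hz Z' h2 h3 h4 =>
    hZu z hz Z' h2 h3 h4⟩
  rintro ⟨t₁, z₁⟩ ⟨ht₁, hz₁⟩
  apply DifferentiableAt.differentiableWithinAt
  obtain ⟨δ, hδ, hball⟩ := Metric.isOpen_iff.mp hWo z₁ hz₁
  have hU : IsOpen (ball (0 : ℂ) ρ ×ˢ ball z₁ δ) := isOpen_ball.prod isOpen_ball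
  obtain ⟨Y, hYd, hY0, hYr, hYu⟩ := root_gen hROOT ha hb hr N (V := ℂ × ℂ)
    (U := ball (0 : ℂ) ρ ×ˢ ball z₁ δ) (τ := Prod.fst) (σ := Prod.snd) hU
    ((convex_ball 0 ρ).prod (convex_ball z₁ δ)) differentiable_fst.differentiableOn
    differentiable_snd.differentiableOn (fun s hs => hs.1) (fun s hs => hball hs.2)
    (s₀ := (0, z₁)) ⟨mem_ball_self hr.hρ, mem_ball_self hδ⟩ (ψ_PN hb h00 hz₁.1).symm
  -- at time zero `Y` is the identity
  obtain ⟨Y₀, -, hY₀0, -, hY₀u⟩ := root_gen hROOT ha hb hr N (V := ℂ)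
    (U := ball z₁ δ) (τ := fun _ => 0) (σ := id) isOpen_ball
    (convex_ball z₁ δ) (differentiableOn_const 0)
    differentiableOn_id (fun s hs => mem_ball_self hr.hρ) (fun s hs => hball hs)
    (s₀ := z₁) (mem_ball_self hδ) (ψ_PN hb h00 hz₁.1).symm
  have hid : ∀ z ∈ ball z₁ δ, Y (0, z) = z := by
    have e0 : ∀ z ∈ ball z₁ δ, id z = Y₀ z := hY₀u id continuousOn_id
      ⟨z₁, mem_ball_self hδ, hY₀0.symm⟩ (fun z hz => (ψ_PN hb h00 (hball hz).1).symm)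
    have e1 : ∀ z ∈ ball z₁ δ, (fun z => Y (0, z)) z = Y₀ z := by
      apply hY₀u
      · exact hYd.continuousOn.comp (by fun_prop) (fun z hz => ⟨mem_ball_self hr.hρ, hz⟩)
      · exact ⟨z₁, mem_ball_self hδ, by
          have := e0 z₁ (mem_ball_self hδ)
          simp only [id] at this
          rw [← this]; exact hY0⟩
      · intro z hz
        exact hYr (0, z) ⟨mem_ball_self hr.hρ, hz⟩
    intro z hz
    have := (e1 z hz).trans (e0 z hz).symm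
    simpa using this
  have heq : ∀ p ∈ ball (0 : ℂ) ρ ×ˢ ball z₁ δ, Y p = Z p.2 p.1 := by
    rintro ⟨t, z⟩ ⟨ht, hz⟩
    have hzW := hball hz
    refine hZu z hzW (fun t => Y (t, z)) ?_ ⟨0, mem_ball_self hr.hρ, ?_⟩ ?_ t ht
    · exact hYd.continuousOn.comp (by fun_prop) (fun t ht => ⟨ht, hz⟩)
    · rw [hid z hz, hZ0 z hzW]
    · intro t ht
      exact hYr (t, z) ⟨ht, hz⟩
  have hmem : ((t₁, z₁) : ℂ × ℂ) ∈ ball (0 : ℂ) ρ ×ˢ ball z₁ δ := ⟨ht₁, mem_ball_self hδ⟩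
  refine (hYd.differentiableAt (hU.mem_nhds hmem)).congr_of_eventuallyEq ?_
  filter_upwards [hU.mem_nhds hmem] with p hp
  exact (heq p hp).symm

end

end Pool.Agent.H713R3.ZA
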