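import Mathlib
import Pool.Agent.H713R3.ZA.Mot2
import Pool.Agent.H713R2.Area

set_option autoImplicit false

open Topology Filter Metric Set Polynomial MeasureTheory

namespace Pool.Agent.H713R3.ZA

/-- squared distance of the coefficients -/
noncomputable def Dl (a : ℂ) (n : ℕ) (x y : PE n) : ℝ :=
  ∑ j ∈ Finset.range (n + 1 + 1), ‖(fam a n y).coeff j - (fam a n x).coeff j‖ ^ 2

theorem Dl_continuous (a : ℂ) (n : ℕ) (x : PE n) : Continuous (fun y => Dl a n x y) := by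
  unfold Dl
  apply continuous_finset_sum
  intro j _
  exact (((pfe_fam a n j).continuous.sub continuous_const).norm).pow 2

section
variable {a : ℂ} {n : ℕ} {B R C₁ R₁ R₃ : ℝ} {ψ φ : PE n × ℂ → ℂ} {ρ : ℝ} {γ : ℂ → PE n}
  {E₀ : Set (Fin n)} {M : ℕ} {F : Fin n → ℂ}

/-- the conjugacy near infinity -/
noncomputable def far (ψ φ : PE n × ℂ → ℂ) (x y : PE n) : ℂ → ℂ := fun z => ψ (y, φ (x, z))

theorem φ_norm (hb : BO a n B R C₁ R₁ R₃ ψ φ) {x : PE n} (hx : x ∈ ball (0 : PE n) B) {z : ℂ}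
    (hz : R₃ < ‖z‖) : R₁ < ‖φ (x, z)‖ := by
  have h1 := hb.φc x hx _ hz
  have h2 := norm_sub_norm_le z (φ (x, z))
  rw [norm_sub_rev] at h2
  have := hb.hR₃
  linarith

theorem φ_fx (hb : BO a n B R C₁ R₁ R₃ ψ φ) {x : PE n} (hx : x ∈ ball (0 : PE n) B) {z : ℂ}
    (hz : R₃ < ‖z‖) (hz' : R₃ < ‖fx a n x z‖) : φ (x, fx a n x z) = QQ a n (φ (x, z)) := by
  have h1 := φ_norm hb hx hz
  have h2 := φ_norm hb hx hz'
  apply hb.ψi x hx h2
  · show R₁ < ‖QQ a n (φ (x, z))‖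
    exact hb.QQ_iter h1 1
  · show ψ (x, φ (x, fx a n x z)) = ψ (x, QQ a n (φ (x, z)))
    rw [hb.ψφ x hx _ hz']
    have h3 := hb.fe x hx _ h1
    rw [hb.ψφ x hx _ hz] at h3
    exact h3

theorem large_of_large (hb : BO a n B R C₁ R₁ R₃ ψ φ) {x : PE n} (hx : x ∈ ball (0 : PE n) B)
    {z : ℂ} (hz : R₃ < ‖z‖) (k : ℕ) : R₃ < ‖(fx a n x)^[k] z‖ := by
  have h1 := hb.hR; have h2 := hb.hC; have h3 := hb.hR₁; have h4 := hb.hR₃
  exact hz.trans_le (iter_large hb hx (by linarith) k)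

theorem φ_iter (hb : BO a n B R C₁ R₁ R₃ ψ φ) {x : PE n} (hx : x ∈ ball (0 : PE n) B) {z : ℂ}
    (hz : R₃ < ‖z‖) (N : ℕ) : φ (x, (fx a n x)^[N] z) = (QQ a n)^[N] (φ (x, z)) := by
  induction N with
  | zero => rfl
  | succ N ih =>
    rw [Function.iterate_succ_apply', Function.iterate_succ_apply', ← ih]
    have h1 := large_of_large hb hx hz N
    apply φ_fx hb hx h1
    have := large_of_large hb hx hz (N + 1)
    rwa [Function.iterate_succ_apply'] at this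

theorem far_root (hb : BO a n B R C₁ R₁ R₃ ψ φ) {x y : PE n} (hx : x ∈ ball (0 : PE n) B)
    (hy : y ∈ ball (0 : PE n) B) {z : ℂ} (hz : R₃ < ‖z‖) (N : ℕ) :
    (fx a n y)^[N] (far ψ φ x y z) = ψ (y, PN a n φ x N z) := by
  unfold far PN
  rw [hb.fe_iter hy (φ_norm hb hx hz), φ_iter hb hx hz]

/-- The area outside of the image near infinity. -/
theorem exists_gain (hGAIN : StGAIN) (ha : a ≠ 0) (hn : 1 ≤ n) (hb : BO a n B R C₁ R₁ R₃ ψ φ) :
    ∃ R₅ c₀ : ℝ, R₃ < R₅ ∧ 0 < c₀ ∧ ∀ x ∈ ball (0 : PE n) B, ∀ y ∈ ball (0 : PE n) B,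
      (fam a n y).coeff n = (fam a n x).coeff n →
      volume (far ψ φ x y '' {z : ℂ | R₅ < ‖z‖})ᶜ ≤
        ENNReal.ofReal (Real.pi * R₅ ^ 2 - c₀ * Dl a n x y) := by
  obtain ⟨A, hA1, hA⟩ := exists_coeff_bound a n B
  have h1 := hb.hR; have h2 := hb.hC; have h3 := hb.hR₁; have h4 := hb.hR₃
  obtain ⟨R₀, hR₀, hG⟩ := hGAIN (n + 1) a A R₃ (2 * C₁) (by omega) ha (by linarith) (by linarith)
    (by linarith)
  obtain ⟨c₀, hc₀, hG'⟩ := hG R₀ le_rfl
  refine ⟨R₀, c₀, hR₀, hc₀, ?_⟩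
  intro x hx y hy hcen
  refine hG' (fam a n x) (fam a n y) (far ψ φ x y) (natDegree_fam_le a n x)
    (natDegree_fam_le a n y) (coeff_fam_top a n x) (coeff_fam_top a n y) ?_
    (hA x (mem_ball_zero_iff.mp hx).le) (hA y (mem_ball_zero_iff.mp hy).le) ?_ ?_ ?_ ?_
  · rw [Nat.add_sub_cancel]; exact hcen.symm
  · have e1 : DifferentiableOn ℂ (fun z : ℂ => φ (x, z)) {z : ℂ | R₃ < ‖z‖} :=
      hb.φd.comp (by fun_prop) (fun z hz => ⟨hx, hz⟩)
    exact ψ_comp_diff hb (differentiableOn_const y) e1 (fun _ _ => hy)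
      (fun z hz => φ_norm hb hx hz)
  · intro z hz z' hz' h
    have e1 := hb.ψi y hy (φ_norm hb hx hz) (φ_norm hb hx hz') h
    have e2 := hb.ψφ x hx z hz
    have e3 := hb.ψφ x hx z' hz'
    rw [← e2, e1, e3]
  · intro z hz
    have e1 := hb.ψc y hy _ (φ_norm hb hx hz)
    have e2 := hb.φc x hx z hz
    calc ‖far ψ φ x y z - z‖ ≤ ‖ψ (y, φ (x, z)) - φ (x, z)‖ + ‖φ (x, z) - z‖ := by
          have : far ψ φ x y z - z = (ψ (y, φ (x, z)) - φ (x, z)) + (φ (x, z) - z) := by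
            unfold far; ring
          rw [this]; exact norm_add_le _ _
      _ ≤ 2 * C₁ := by linarith
  · intro z hz hz'
    have e1 := φ_fx hb hx hz hz'
    show fx a n y (ψ (y, φ (x, z))) = ψ (y, φ (x, fx a n x z))
    rw [hb.fe y hy _ (φ_norm hb hx hz), e1]
    rfl

theorem volume_image_holo {K : Set ℂ} (hK : MeasurableSet K) {W : Set ℂ} (hW : IsOpen W)
    (hKW : K ⊆ W) {f : ℂ → ℂ} (hf : DifferentiableOn ℂ f W) (hi : InjOn f K) :
    volume (f '' K) = ∫⁻ z in K, ENNReal.ofReal (‖deriv f z‖ ^ 2) := by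
  have h1 := lintegral_abs_det_fderiv_eq_addHaar_image (volume : Measure ℂ) hK
    (f := f) (f' := fun x => (ContinuousLinearMap.toSpanSingleton ℂ (deriv f x)).restrictScalars ℝ)
    (fun x hx => (((hf.differentiableAt (hW.mem_nhds (hKW hx))).hasDerivAt.hasFDerivAt).restrictScalars
      ℝ).hasFDerivWithinAt) hi
  simp only [Pool.Agent.H713R2.det_mul_real] at h1
  rw [← h1]
  apply lintegral_congr
  intro z
  rw [abs_of_nonneg (by positivity)]

/-- Sublevel sets. -/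
theorem exists_level_vol (hb : BO a n B R C₁ R₁ R₃ ψ φ) {x : PE n} (hx : x ∈ ball (0 : PE n) B)
    {η : ℝ} (hη : 0 < η) : ∃ N : ℕ, volume {z : ℂ | ‖(fx a n x)^[N] z‖ ≤ R₃} ≤
      volume (KJ (fam a n x)) + ENNReal.ofReal η := by
  have h1 := hb.hR; have h2 := hb.hC; have h3 := hb.hR₁; have h4 := hb.hR₃
  set L : ℕ → Set ℂ := fun N => {z : ℂ | ‖(fx a n x)^[N] z‖ ≤ R₃} with hL
  have hcont : ∀ N, Continuous ((fx a n x)^[N]) := fun N =>
    (fx_differentiable a n x).continuous.iterate N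
  have hmeas : ∀ N, MeasurableSet (L N) := fun N =>
    (isClosed_le (hcont N).norm continuous_const).measurableSet
  have hanti : Antitone L := by
    apply antitone_nat_of_succ_le
    intro N z hz
    by_contra hcon
    have e1 : R₃ < ‖(fx a n x)^[N] z‖ := not_le.mp hcon
    have e2 := large_of_large hb hx e1 1
    rw [Function.iterate_one, ← Function.iterate_succ_apply' (fx a n x)] at e2
    exact absurd hz (not_le.mpr e2)
  have hfin : volume (L 0) ≠ ⊤ := by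
    have : L 0 = closedBall (0 : ℂ) R₃ := by
      ext z; simp [hL]
    rw [this]
    exact measure_closedBall_lt_top.ne
  have hlim := tendsto_measure_iInter_atTop (μ := (volume : Measure ℂ))
    (fun N => (hmeas N).nullMeasurableSet) hanti ⟨0, hfin⟩
  have hsub : (⋂ N, L N) ⊆ KJ (fam a n x) := by
    intro z hz hcon
    have e1 := (hcon.eventually (eventually_gt_atTop R₃)).exists
    obtain ⟨k, hk⟩ := e1
    have e2 := mem_iInter.mp hz k
    exact absurd e2 (not_le.mpr hk)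
  have hlt : volume (⋂ N, L N) < volume (KJ (fam a n x)) + ENNReal.ofReal η := by
    have hfin2 : volume (⋂ N, L N) ≠ ⊤ := by
      apply ne_top_of_le_ne_top hfin
      exact measure_mono (iInter_subset _ 0)
    calc volume (⋂ N, L N) < volume (⋂ N, L N) + ENNReal.ofReal η :=
          ENNReal.lt_add_right hfin2 (by simpa using hη)
      _ ≤ volume (KJ (fam a n x)) + ENNReal.ofReal η := by
          gcongr
  obtain ⟨N, hN⟩ := (hlim.eventually (gt_mem_nhds hlt)).exists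
  exact ⟨N, hN.le⟩

theorem measurable_part (ha : a ≠ 0) (hn : 1 ≤ n) (x : PE n) (E₀ : Set (Fin n)) (M N : ℕ) (R₅ : ℝ) :
    MeasurableSet (WD a n R₃ x E₀ M N ∩ closedBall 0 R₅) :=
  (isOpen_WD ha hn x E₀ M N).measurableSet.inter measurableSet_closedBall

theorem vol_part (ha : a ≠ 0) (hn : 1 ≤ n) (x : PE n) (E₀ : Set (Fin n)) (M N : ℕ) {R₅ : ℝ}
    (hR₅ : 0 ≤ R₅) : ENNReal.ofReal (Real.pi * R₅ ^ 2) ≤
      volume (WD a n R₃ x E₀ M N ∩ closedBall 0 R₅) +
        volume {z : ℂ | ‖(fx a n x)^[N] z‖ ≤ R₃} := by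
  have h1 : closedBall (0 : ℂ) R₅ ⊆ ((WD a n R₃ x E₀ M N ∩ closedBall 0 R₅) ∪
      {z : ℂ | ‖(fx a n x)^[N] z‖ ≤ R₃}) ∪ Bad a n x E₀ M N := by
    intro z hz
    by_cases h2 : z ∈ Bad a n x E₀ M N
    · exact Or.inr h2
    · left
      by_cases h3 : R₃ < ‖(fx a n x)^[N] z‖
      · exact Or.inl ⟨⟨h3, h2⟩, hz⟩
      · exact Or.inr (not_lt.mp h3)
  have h2 : volume (closedBall (0 : ℂ) R₅) = ENNReal.ofReal (Real.pi * R₅ ^ 2) := by
    rw [Complex.volume_closedBall, mul_comm Real.pi, ENNReal.ofReal_mul (by positivity),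
      ENNReal.ofReal_pow hR₅, ← NNReal.coe_real_pi, ENNReal.ofReal_coe_nnreal]
  rw [← h2]
  refine (measure_mono h1).trans ((measure_union_le _ _).trans ?_)
  rw [(bad_finite ha hn x E₀ M N).measure_zero, add_zero]
  exact measure_union_le _ _

end

end Pool.Agent.H713R3.ZA
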