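import Mathlib
import Pool.Agent.H713R3.ZA.Mot3

set_option autoImplicit false

open Topology Filter Metric Set Polynomial MeasureTheory

namespace Pool.Agent.H713R3.ZA

/-- area of the filled Julia set -/
noncomputable def AK (a : ℂ) (n : ℕ) (x : PE n) : ℝ := (volume (KJ (fam a n x))).toReal

section
variable {a : ℂ} {n : ℕ} {B R C₁ R₁ R₃ : ℝ} {ψ φ : PE n × ℂ → ℂ} {ρ : ℝ} {γ : ℂ → PE n}
  {E₀ : Set (Fin n)} {M : ℕ} {F : Fin n → ℂ}

theorem KJ_subset (hb : BO a n B R C₁ R₁ R₃ ψ φ) {x : PE n} (hx : x ∈ ball (0 : PE n) B) :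
    KJ (fam a n x) ⊆ ball (0 : ℂ) R := by
  intro z hz
  rw [mem_ball_zero_iff]
  exact lt_of_mem_KJ hb hx hz 0

theorem vol_KJ_lt_top (hb : BO a n B R C₁ R₁ R₃ ψ φ) {x : PE n} (hx : x ∈ ball (0 : PE n) B) :
    volume (KJ (fam a n x)) < ⊤ :=
  (measure_mono (KJ_subset hb hx)).trans_lt measure_ball_lt_top

theorem mot_area (hb : BO a n B R C₁ R₁ R₃ ψ φ)
    (ha : a ≠ 0) (hn : 1 ≤ n) (hr : RD a n B R C₁ R₁ R₃ ψ φ ρ γ E₀ M F) (N : ℕ) {Φ : ℂ → ℂ → ℂ}
    (hΦd : DifferentiableOn ℂ (fun p : ℂ × ℂ => Φ p.1 p.2)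
      (ball (0 : ℂ) ρ ×ˢ WD a n R₃ (γ 0) E₀ M N))
    (hΦ0 : ∀ z ∈ WD a n R₃ (γ 0) E₀ M N, Φ 0 z = z)
    (hΦr : ∀ t ∈ ball (0 : ℂ) ρ, ∀ z ∈ WD a n R₃ (γ 0) E₀ M N,
        (fx a n (γ t))^[N] (Φ t z) = ψ (γ t, PN a n φ (γ 0) N z))
    (hΦu : ∀ z ∈ WD a n R₃ (γ 0) E₀ M N, ∀ Z' : ℂ → ℂ, ContinuousOn Z' (ball (0 : ℂ) ρ) →
        (∃ t₁ ∈ ball (0 : ℂ) ρ, Z' t₁ = Φ t₁ z) →
        (∀ t ∈ ball (0 : ℂ) ρ, (fx a n (γ t))^[N] (Z' t) = ψ (γ t, PN a n φ (γ 0) N z)) →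
        ∀ t ∈ ball (0 : ℂ) ρ, Z' t = Φ t z)
    {R₅ : ℝ} (hR₅ : R₃ < R₅) {t : ℂ} (ht : t ∈ ball (0 : ℂ) ρ) :
    (∫⁻ z in WD a n R₃ (γ 0) E₀ M N ∩ closedBall 0 R₅, ENNReal.ofReal (‖deriv (Φ t) z‖ ^ 2)) +
      volume (KJ (fam a n (γ t))) ≤ volume (far ψ φ (γ 0) (γ t) '' {z : ℂ | R₅ < ‖z‖})ᶜ := by
  have h00 := hr.γB 0 (mem_ball_self hr.hρ)
  have htB := hr.γB t ht
  set W := WD a n R₃ (γ 0) E₀ M N with hW
  have hWo : IsOpen W := isOpen_WD ha hn (γ 0) E₀ M N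
  set K := W ∩ closedBall 0 R₅ with hK
  have hKm : MeasurableSet K := measurable_part ha hn (γ 0) E₀ M N R₅
  have hPeq : ∀ z z' : ℂ, z ∈ WN a n R₃ (γ 0) N → z' ∈ WN a n R₃ (γ 0) N →
      ψ (γ t, PN a n φ (γ 0) N z) = ψ (γ t, PN a n φ (γ 0) N z') →
      PN a n φ (γ 0) N z = PN a n φ (γ 0) N z' := fun z z' h1 h2 h3 =>
    hb.ψi _ htB (PN_norm hb h00 h1) (PN_norm hb h00 h2) h3
  have hcont : ∀ z ∈ W, ContinuousOn (fun s => Φ s z) (ball (0 : ℂ) ρ) := fun z hz =>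
    hΦd.continuousOn.comp (f := fun s : ℂ => ((s, z) : ℂ × ℂ)) (by fun_prop) (fun s hs => ⟨hs, hz⟩)
  -- injectivity
  have hinj : InjOn (Φ t) W := by
    intro z hz z' hz' h
    have e1 : PN a n φ (γ 0) N z = PN a n φ (γ 0) N z' := by
      apply hPeq z z' hz.1 hz'.1
      rw [← hΦr t ht z hz, ← hΦr t ht z' hz', h]
    have e2 := hΦu z hz (fun s => Φ s z') (hcont z' hz') ⟨t, ht, h.symm⟩
      (fun s hs => by rw [hΦr s hs z' hz', e1]) 0 (mem_ball_self hr.hρ)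
    simp only [hΦ0 z hz, hΦ0 z' hz'] at e2
    exact e2.symm
  -- disjointness from the far part
  have hlarge : ∀ z : ℂ, R₅ < ‖z‖ → z ∈ WN a n R₃ (γ 0) N := fun z hz =>
    large_of_large hb h00 (hR₅.trans hz) N
  have hdisj : ∀ z ∈ K, ∀ z' : ℂ, R₅ < ‖z'‖ → Φ t z ≠ far ψ φ (γ 0) (γ t) z' := by
    intro z hz z' hz' h
    have hz3 : R₃ < ‖z'‖ := hR₅.trans hz'
    have e1 : PN a n φ (γ 0) N z = PN a n φ (γ 0) N z' := by
      apply hPeq z z' hz.1.1 (hlarge z' hz')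
      rw [← hΦr t ht z hz.1, ← far_root hb h00 htB hz3, h]
    have hfc : ContinuousOn (fun s => far ψ φ (γ 0) (γ s) z') (ball (0 : ℂ) ρ) := by
      apply DifferentiableOn.continuousOn (𝕜 := ℂ)
      exact ψ_comp_diff hb hr.γd (differentiableOn_const _) (fun s hs => hr.γB s hs)
        (fun _ _ => φ_norm hb h00 hz3)
    have e2 := hΦu z hz.1 (fun s => far ψ φ (γ 0) (γ s) z') hfc ⟨t, ht, h.symm⟩
      (fun s hs => by rw [far_root hb h00 (hr.γB s hs) hz3, e1]) 0 (mem_ball_self hr.hρ)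
    simp only [hΦ0 z hz.1] at e2
    have e3 : far ψ φ (γ 0) (γ 0) z' = z' := hb.ψφ _ h00 z' hz3
    rw [e3] at e2
    rw [e2] at hz'
    have e4 := mem_closedBall_zero_iff.mp hz.2
    exact absurd hz' (not_lt.mpr e4)
  have hesc : ∀ z ∈ W, Φ t z ∉ KJ (fam a n (γ t)) := by
    intro z hz
    apply not_mem_KJ_of_large hb htB (k := N)
    rw [hΦr t ht z hz]
    have e1 := PN_norm hb h00 hz.1
    have e2 := hb.ψc _ htB _ e1
    have e3 := norm_sub_norm_le (PN a n φ (γ 0) N z) (ψ (γ t, PN a n φ (γ 0) N z))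
    rw [norm_sub_rev] at e3
    have := hb.hR₁
    have := hb.hC
    linarith
  have hesc' : ∀ z : ℂ, R₅ < ‖z‖ → far ψ φ (γ 0) (γ t) z ∉ KJ (fam a n (γ t)) := by
    intro z hz
    have hz3 : R₃ < ‖z‖ := hR₅.trans hz
    apply not_mem_KJ_of_large hb htB (k := 0)
    rw [Function.iterate_zero, id]
    have e1 := φ_norm hb h00 hz3
    have e2 := hb.ψc _ htB _ e1
    have e3 := norm_sub_norm_le (φ (γ 0, z)) (ψ (γ t, φ (γ 0, z)))
    rw [norm_sub_rev] at e3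
    have := hb.hR₁
    have := hb.hC
    unfold far
    linarith
  -- measure of the image
  have hΦt : DifferentiableOn ℂ (Φ t) W :=
    hΦd.comp (f := fun z : ℂ => ((t, z) : ℂ × ℂ)) (by fun_prop) (fun z hz => ⟨ht, hz⟩)
  have hKW : K ⊆ W := inter_subset_left
  rw [← volume_image_holo hKm hWo hKW hΦt (hinj.mono hKW)]
  have himm : MeasurableSet (Φ t '' K) :=
    hKm.image_of_continuousOn_injOn (hΦt.continuousOn.mono hKW) (hinj.mono hKW)
  rw [← measure_union' _ himm]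
  · apply measure_mono
    rintro w (⟨z, hz, rfl⟩ | hw)
    · rintro ⟨z', hz', h⟩
      exact hdisj z hz z' hz' h.symm
    · rintro ⟨z', hz', h⟩
      rw [← h] at hw
      exact hesc' z' hz' hw
  · rw [Set.disjoint_left]
    rintro _ ⟨z, hz, rfl⟩ hw
    exact hesc z (hKW hz) hw

/-- The mean value step. -/
theorem step (hROOT : StROOT) (hAVG : StAVG) (ha : a ≠ 0) (hn : 1 ≤ n)
    (hb : BO a n B R C₁ R₁ R₃ ψ φ) {R₅ c₀ : ℝ} (hR₅ : R₃ < R₅)
    (hgain : ∀ x ∈ ball (0 : PE n) B, ∀ y ∈ ball (0 : PE n) B,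
      (fam a n y).coeff n = (fam a n x).coeff n →
      volume (far ψ φ x y '' {z : ℂ | R₅ < ‖z‖})ᶜ ≤
        ENNReal.ofReal (Real.pi * R₅ ^ 2 - c₀ * Dl a n x y))
    (hr : RD a n B R C₁ R₁ R₃ ψ φ ρ γ E₀ M F) {r : ℝ} (hr0 : 0 < r) (hrρ : r < ρ) {η : ℝ}
    (hη : 0 < η) {q : ℝ → ℝ} (hq : Continuous q) :
    ∃ θ : ℝ, AK a n (γ (circleMap 0 r θ)) + q θ < AK a n (γ 0) + η +
      (2 * Real.pi)⁻¹ * ∫ θ in (0 : ℝ)..(2 * Real.pi),
        (q θ - c₀ * Dl a n (γ 0) (γ (circleMap 0 r θ))) := by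
  have hpi := Real.pi_pos
  have h00 := hr.γB 0 (mem_ball_self hr.hρ)
  have h1 := hb.hR; have h2 := hb.hC; have h3 := hb.hR₁; have h4 := hb.hR₃
  have hR₅0 : 0 < R₅ := by linarith
  have hcirc : ∀ θ : ℝ, circleMap 0 r θ ∈ ball (0 : ℂ) ρ := by
    intro θ
    rw [mem_ball_zero_iff, norm_circleMap_zero, abs_of_pos hr0]
    exact hrρ
  have hγc : Continuous (fun θ : ℝ => γ (circleMap 0 r θ)) := by
    rw [← continuousOn_univ]
    exact hr.γd.continuousOn.comp (continuous_circleMap 0 r).continuousOn (fun θ _ => hcirc θ)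
  have hDc : Continuous (fun θ : ℝ => Dl a n (γ 0) (γ (circleMap 0 r θ))) :=
    (Dl_continuous a n (γ 0)).comp hγc
  obtain ⟨N, hN⟩ := exists_level_vol hb h00 (half_pos hη)
  obtain ⟨Φ, hΦd, hΦ0, hΦr, hΦu⟩ := exists_mot hROOT ha hn hb hr N
  by_contra hcon
  push Not at hcon
  set I := ∫ θ in (0 : ℝ)..(2 * Real.pi), (q θ - c₀ * Dl a n (γ 0) (γ (circleMap 0 r θ))) with hI
  set C' := AK a n (γ 0) + η + (2 * Real.pi)⁻¹ * I with hC'
  set g : ℝ → ℝ := fun θ => Real.pi * R₅ ^ 2 - C' +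
    (q θ - c₀ * Dl a n (γ 0) (γ (circleMap 0 r θ))) with hg
  have hgc : Continuous g := continuous_const.add (hq.sub (continuous_const.mul hDc))
  set W := WD a n R₃ (γ 0) E₀ M N with hW
  have hWo : IsOpen W := isOpen_WD ha hn (γ 0) E₀ M N
  set K := W ∩ closedBall 0 R₅ with hK
  have hKm : MeasurableSet K := measurable_part ha hn (γ 0) E₀ M N R₅
  have hbound : ∀ θ : ℝ, 0 ≤ g θ ∧
      ∫⁻ z in K, ENNReal.ofReal (‖deriv (Φ (circleMap 0 r θ)) z‖ ^ 2) ≤ ENNReal.ofReal (g θ) := by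
    intro θ
    have hθB := hr.γB _ (hcirc θ)
    have e1 := mot_area hb ha hn hr N hΦd hΦ0 hΦr hΦu hR₅ (hcirc θ)
    have e2 := hgain (γ 0) h00 (γ (circleMap 0 r θ)) hθB (hr.cen _ (hcirc θ))
    have e3 := e1.trans e2
    have e4 : volume (KJ (fam a n (γ (circleMap 0 r θ)))) =
        ENNReal.ofReal (AK a n (γ (circleMap 0 r θ))) :=
      (ENNReal.ofReal_toReal (vol_KJ_lt_top hb hθB).ne).symm
    have hAK0 : 0 ≤ AK a n (γ (circleMap 0 r θ)) := ENNReal.toReal_nonneg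
    set P := Real.pi * R₅ ^ 2 - c₀ * Dl a n (γ 0) (γ (circleMap 0 r θ)) with hP
    have hint_fin : (∫⁻ z in K, ENNReal.ofReal (‖deriv (Φ (circleMap 0 r θ)) z‖ ^ 2)) ≠ ⊤ := by
      apply ne_top_of_le_ne_top ENNReal.ofReal_ne_top (b := ENNReal.ofReal P)
      exact le_self_add.trans e3
    set J := (∫⁻ z in K, ENNReal.ofReal (‖deriv (Φ (circleMap 0 r θ)) z‖ ^ 2)).toReal with hJ
    have hJe : (∫⁻ z in K, ENNReal.ofReal (‖deriv (Φ (circleMap 0 r θ)) z‖ ^ 2)) =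
        ENNReal.ofReal J := (ENNReal.ofReal_toReal hint_fin).symm
    have hJ0 : 0 ≤ J := ENNReal.toReal_nonneg
    have e5 : J + AK a n (γ (circleMap 0 r θ)) ≤ P ∨ P < 0 := by
      by_cases hP0 : 0 ≤ P
      · left
        rw [hJe, e4, ← ENNReal.ofReal_add hJ0 hAK0] at e3
        exact (ENNReal.ofReal_le_ofReal_iff hP0).mp e3
      · right; linarith
    have e6 : J + AK a n (γ (circleMap 0 r θ)) ≤ P := by
      rcases e5 with h | h
      · exact h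
      · exfalso
        -- the complement of the image near infinity has positive measure
        have e8 : ball (0 : ℂ) (R₅ - 2 * C₁) ⊆
            (far ψ φ (γ 0) (γ (circleMap 0 r θ)) '' {z : ℂ | R₅ < ‖z‖})ᶜ := by
          rintro w hw ⟨z, hz, rfl⟩
          rw [mem_ball_zero_iff] at hw
          have hz' : R₅ < ‖z‖ := hz
          have f1 := hb.φc _ h00 z (hR₅.trans hz')
          have f2 := hb.ψc _ hθB _ (φ_norm hb h00 (hR₅.trans hz'))
          have f3 := norm_sub_norm_le z (φ (γ 0, z))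
          rw [norm_sub_rev] at f3
          have f4 := norm_sub_norm_le (φ (γ 0, z)) (ψ (γ (circleMap 0 r θ), φ (γ 0, z)))
          rw [norm_sub_rev] at f4
          unfold far at hw
          linarith
        have e9 : 0 < volume (ball (0 : ℂ) (R₅ - 2 * C₁)) :=
          measure_ball_pos _ _ (by linarith)
        have e10 := (measure_mono e8).trans e2
        rw [ENNReal.ofReal_of_nonpos h.le] at e10
        exact absurd e10 (not_le.mpr e9)
    have e7 := hcon θ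
    have e8 : J ≤ g θ := by
      simp only [hg]
      linarith
    exact ⟨hJ0.trans e8, by rw [hJe]; exact ENNReal.ofReal_le_ofReal e8⟩
  -- the mean value inequality
  set Ψ : ℂ × ℂ → ℂ := fun p => Φ p.1 p.2 with hΨ
  have hSo : IsOpen (ball (0 : ℂ) ρ ×ˢ W) := isOpen_ball.prod hWo
  have hdd : DifferentiableOn ℂ (fun p => fderiv ℂ Ψ p (0, 1)) (ball (0 : ℂ) ρ ×ˢ W) :=
    Pool.Agent.Helper540.differentiableOn_fderiv_apply hSo hΦd (0, 1)
  have hder : ∀ p ∈ ball (0 : ℂ) ρ ×ˢ W, deriv (Φ p.1) p.2 = fderiv ℂ Ψ p (0, 1) := by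
    rintro ⟨t, z⟩ hp
    have e1 := (hΦd.differentiableAt (hSo.mem_nhds hp)).hasFDerivAt
    have e2 : HasDerivAt (fun w : ℂ => ((t, w) : ℂ × ℂ)) ((0, 1) : ℂ × ℂ) z :=
      (hasDerivAt_const z t).prodMk (hasDerivAt_id z)
    exact (e1.comp_hasDerivAt z e2).deriv
  have hdd' : DifferentiableOn ℂ (fun p : ℂ × ℂ => deriv (Φ p.1) p.2) (ball (0 : ℂ) ρ ×ˢ W) :=
    hdd.congr hder
  have havg := hAVG ρ r W K (fun t z => deriv (Φ t) z) hr0 hrρ hWo inter_subset_left hKm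
    hdd'.continuousOn (fun z hz => hdd'.comp (f := fun s : ℂ => ((s, z) : ℂ × ℂ)) (by fun_prop)
      (fun s hs => ⟨hs, hz⟩)) (by
      intro z hz
      have e1 : Φ 0 =ᶠ[𝓝 z] id := by
        filter_upwards [hWo.mem_nhds hz] with w hw
        exact hΦ0 w hw
      rw [e1.deriv_eq, deriv_id])
  have hgi : IntervalIntegrable g volume 0 (2 * Real.pi) := hgc.intervalIntegrable _ _
  have hgint : ∫ θ in (0 : ℝ)..(2 * Real.pi), g θ =
      2 * Real.pi * (Real.pi * R₅ ^ 2 - AK a n (γ 0) - η) := by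
    have hqc : Continuous (fun θ : ℝ => q θ - c₀ * Dl a n (γ 0) (γ (circleMap 0 r θ))) :=
      hq.sub (continuous_const.mul hDc)
    have i1 : IntervalIntegrable (fun _ : ℝ => Real.pi * R₅ ^ 2 - C') volume 0 (2 * Real.pi) :=
      continuous_const.intervalIntegrable _ _
    have i2 : IntervalIntegrable (fun θ : ℝ => q θ - c₀ * Dl a n (γ 0) (γ (circleMap 0 r θ)))
      volume 0 (2 * Real.pi) := hqc.intervalIntegrable _ _
    simp only [hg]
    rw [intervalIntegral.integral_add i1 i2,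
      intervalIntegral.integral_const, ← hI, hC', smul_eq_mul]
    field_simp
    ring
  have e1 : ENNReal.ofReal (2 * Real.pi) * volume K ≤
      ENNReal.ofReal (2 * Real.pi * (Real.pi * R₅ ^ 2 - AK a n (γ 0) - η)) := by
    refine havg.trans ?_
    rw [← hgint, intervalIntegral.integral_of_le (by positivity),
      ofReal_integral_eq_lintegral_ofReal hgi.1 (Filter.Eventually.of_forall fun θ => (hbound θ).1)]
    exact lintegral_mono (fun θ => (hbound θ).2)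
  have hKfin : volume K ≠ ⊤ :=
    ((measure_mono inter_subset_right).trans_lt measure_closedBall_lt_top).ne
  have hKJfin := (vol_KJ_lt_top hb h00).ne
  set v := (volume K).toReal with hv
  have hv0 : 0 ≤ v := ENNReal.toReal_nonneg
  have hve : volume K = ENNReal.ofReal v := (ENNReal.ofReal_toReal hKfin).symm
  have hgnn : 0 ≤ 2 * Real.pi * (Real.pi * R₅ ^ 2 - AK a n (γ 0) - η) := by
    rw [← hgint]
    exact intervalIntegral.integral_nonneg (by positivity) (fun θ _ => (hbound θ).1)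
  have e2 : 2 * Real.pi * v ≤ 2 * Real.pi * (Real.pi * R₅ ^ 2 - AK a n (γ 0) - η) := by
    rw [hve, ← ENNReal.ofReal_mul (by positivity), ENNReal.ofReal_le_ofReal_iff hgnn] at e1
    exact e1
  have e3 := vol_part (R₃ := R₃) ha hn (γ 0) E₀ M N hR₅0.le
  have hA0 : 0 ≤ AK a n (γ 0) := ENNReal.toReal_nonneg
  have e4 : ENNReal.ofReal (Real.pi * R₅ ^ 2) ≤
      ENNReal.ofReal (v + (AK a n (γ 0) + η / 2)) := by
    rw [ENNReal.ofReal_add hv0 (by linarith),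
      ENNReal.ofReal_add hA0 (by linarith), ← hve, AK,
      ENNReal.ofReal_toReal hKJfin]
    refine e3.trans ?_
    gcongr
  rw [ENNReal.ofReal_le_ofReal_iff (by linarith)] at e4
  have e5 := le_of_mul_le_mul_left e2 (by positivity)
  linarith

end

end Pool.Agent.H713R3.ZA
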