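import Mathlib
import Pool.Agent.H713R3.ZA.Mot4
import Pool.Agent.H713R3.ZA.Circ

set_option autoImplicit false

open Topology Filter Metric Set Polynomial MeasureTheory

namespace Pool.Agent.H713R3.ZA

/-- coefficient functions -/
noncomputable def cf (a : ℂ) (n j : ℕ) : PE n → ℂ := fun x => (fam a n x).coeff j

theorem cf_diff (a : ℂ) (n j : ℕ) : Differentiable ℂ (cf a n j) :=
  (pfe_fam a n j).differentiable (by norm_num)

theorem Dl_eq (a : ℂ) (n : ℕ) (x y : PE n) :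
    Dl a n x y = ∑ j ∈ Finset.range (n + 1 + 1), ‖cf a n j y - cf a n j x‖ ^ 2 := rfl

theorem Dl_nonneg (a : ℂ) (n : ℕ) (x y : PE n) : 0 ≤ Dl a n x y :=
  Finset.sum_nonneg fun _ _ => by positivity

theorem circ_Dl {a : ℂ} {n : ℕ} {ρ r : ℝ} {γ : ℂ → PE n} (hr : 0 < r) (hρ : r < ρ)
    (hd : DifferentiableOn ℂ γ (ball (0 : ℂ) ρ)) (xT : PE n) :
    ∫ θ in (0 : ℝ)..(2 * Real.pi), Dl a n xT (γ (circleMap 0 r θ)) =
      2 * Real.pi * Dl a n xT (γ 0) +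
        ∫ θ in (0 : ℝ)..(2 * Real.pi), Dl a n (γ 0) (γ (circleMap 0 r θ)) := by
  have hu : ∀ j, DifferentiableOn ℂ (fun t => cf a n j (γ t)) (ball (0 : ℂ) ρ) := fun j =>
    (cf_diff a n j).comp_differentiableOn hd
  have hi : ∀ (y : PE n) (j : ℕ), IntervalIntegrable
      (fun θ : ℝ => ‖cf a n j (γ (circleMap 0 r θ)) - cf a n j y‖ ^ 2) volume 0 (2 * Real.pi) :=
    fun y j => (((circ_cont hr hρ (hu j).continuousOn).sub continuous_const).norm.pow 2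
      ).intervalIntegrable _ _
  simp only [Dl_eq]
  rw [intervalIntegral.integral_finset_sum (fun j _ => hi xT j),
    intervalIntegral.integral_finset_sum (fun j _ => hi (γ 0) j), Finset.mul_sum,
    ← Finset.sum_add_distrib]
  apply Finset.sum_congr rfl
  intro j _
  exact circ_sq hr hρ (hu j) (cf a n j xT)

theorem circ_Dl_ge {a : ℂ} {n : ℕ} {ρ r : ℝ} {γ : ℂ → PE n} (hr : 0 < r) (hρ : r < ρ)
    (hd : DifferentiableOn ℂ γ (ball (0 : ℂ) ρ)) {j : ℕ} (hj : j < n + 1 + 1) {v : PE n}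
    (hv : HasDerivAt γ v 0) :
    2 * Real.pi * (r ^ 2 * ‖fderiv ℂ (cf a n j) (γ 0) v‖ ^ 2) ≤
      ∫ θ in (0 : ℝ)..(2 * Real.pi), Dl a n (γ 0) (γ (circleMap 0 r θ)) := by
  have hu : DifferentiableOn ℂ (fun t => cf a n j (γ t)) (ball (0 : ℂ) ρ) :=
    (cf_diff a n j).comp_differentiableOn hd
  have h1 := circ_deriv hr hρ hu
  have h2 : deriv (fun t => cf a n j (γ t)) 0 = fderiv ℂ (cf a n j) (γ 0) v :=
    (((cf_diff a n j) (γ 0)).hasFDerivAt.comp_hasDerivAt 0 hv).deriv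
  rw [h2] at h1
  refine h1.trans ?_
  have hγc := circ_cont hr hρ hd.continuousOn
  apply intervalIntegral.integral_mono_on (by have := Real.pi_pos; positivity)
  · exact (((circ_cont hr hρ hu.continuousOn).sub continuous_const).norm.pow 2
      ).intervalIntegrable _ _
  · exact ((Dl_continuous a n (γ 0)).comp hγc).intervalIntegrable _ _
  · intro θ _
    rw [Dl_eq]
    exact Finset.single_le_sum (f := fun j => ‖cf a n j (γ (circleMap 0 r θ)) - cf a n j (γ 0)‖ ^ 2)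
      (fun _ _ => by positivity) (Finset.mem_range.mpr hj)

/-- The near-minimizer argument. -/
theorem min_arg (hFLOW : StFLOW) {a : ℂ} {n : ℕ} {xT x₂ : PE n} {ρ₂ n₀ c₀ : ℝ} (hn₀ : 0 < n₀)
    (hc₀ : 0 < c₀) {Ω L : Set (PE n)} {f : PE n → ℂ} {X : PE n → PE n} {j : ℕ}
    (hj : j < n + 1 + 1) (hΩ : IsOpen Ω) (hfd : DifferentiableOn ℂ f Ω)
    (hXd : DifferentiableOn ℂ X Ω) (hfX : ∀ x ∈ Ω, f x = fderiv ℂ (cf a n j) x (X x))
    (hL : IsCompact L) (hLΩ : L ⊆ Ω) (hLb : L ⊆ closedBall xT ρ₂)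
    (hx₂ : x₂ ∈ L) (hfx₂ : f x₂ ≠ 0) (hsph : ∀ x ∈ L, ‖x - xT‖ = ρ₂ → n₀ ≤ Dl a n xT x)
    (hs1 : AK a n x₂ ≤ c₀ * n₀ / 16) (hs2 : c₀ / 2 * Dl a n xT x₂ ≤ c₀ * n₀ / 16)
    (hstep : ∀ r₀ : ℝ, 0 < r₀ → ∀ γ : ℂ → PE n, γ 0 ∈ L →
      (∀ t ∈ ball (0 : ℂ) r₀, γ t ∈ Ω ∩ ball xT ρ₂ ∧ HasDerivAt γ (X (γ t)) t) →
      (∀ t ∈ ball (0 : ℂ) r₀, γ t ∈ L) ∧ ∀ r : ℝ, 0 < r → r < r₀ → ∀ η : ℝ, 0 < η →
        ∀ q : ℝ → ℝ, Continuous q → ∃ θ : ℝ, AK a n (γ (circleMap 0 r θ)) + q θ <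
          AK a n (γ 0) + η + (2 * Real.pi)⁻¹ * ∫ θ in (0 : ℝ)..(2 * Real.pi),
            (q θ - c₀ * Dl a n (γ 0) (γ (circleMap 0 r θ)))) : False := by
  have hpi := Real.pi_pos
  set a₀ : ℝ := c₀ * n₀ / 16 with ha₀
  have ha₀0 : 0 < a₀ := by positivity
  set c : ℝ := c₀ / 2 with hc
  have hc0 : 0 < c := by positivity
  have hcn : c * n₀ = 8 * a₀ := by rw [hc, ha₀]; ring
  have hfc : ContinuousOn f L := hfd.continuousOn.mono hLΩ
  obtain ⟨Fm₀, hFm₀⟩ := hL.exists_bound_of_continuousOn hfc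
  set Fm : ℝ := max 1 Fm₀ with hFm
  have hFm1 : 1 ≤ Fm := le_max_left _ _
  have hFmb : ∀ x ∈ L, ‖f x‖ ≤ Fm := fun x hx => (hFm₀ x hx).trans (le_max_right _ _)
  have hlF : 0 ≤ Real.log Fm := Real.log_nonneg hFm1
  set D : ℝ := 1 + Real.log Fm + |Real.log ‖f x₂‖| with hD
  have hD0 : 0 < D := by positivity
  set δ : ℝ := a₀ / D with hδ
  have hδ0 : 0 < δ := by positivity
  have hδD : δ * D = a₀ := by rw [hδ]; field_simp
  have hδ1 : δ * Real.log Fm ≤ a₀ := by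
    rw [← hδD]
    apply mul_le_mul_of_nonneg_left _ hδ0.le
    have := abs_nonneg (Real.log ‖f x₂‖)
    linarith
  have hδ2 : -(δ * Real.log ‖f x₂‖) ≤ a₀ := by
    rw [← hδD, ← mul_neg]
    apply mul_le_mul_of_nonneg_left _ hδ0.le
    have := neg_le_abs (Real.log ‖f x₂‖)
    linarith
  set W : PE n → ℝ := fun x => AK a n x + c * Dl a n xT x - δ * Real.log ‖f x‖ with hW
  have hAK0 : ∀ x : PE n, 0 ≤ AK a n x := fun x => ENNReal.toReal_nonneg
  have hD0' : ∀ x : PE n, 0 ≤ c * Dl a n xT x := fun x => mul_nonneg hc0.le (Dl_nonneg a n xT x)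
  have hlog : ∀ x ∈ L, f x ≠ 0 → δ * Real.log ‖f x‖ ≤ a₀ := by
    intro x hx hfx
    refine le_trans ?_ hδ1
    apply mul_le_mul_of_nonneg_left _ hδ0.le
    exact Real.log_le_log (norm_pos_iff.mpr hfx) (hFmb x hx)
  set S : Set ℝ := W '' {x | x ∈ L ∧ f x ≠ 0} with hS
  have hSb : BddBelow S := by
    refine ⟨-a₀, ?_⟩
    rintro _ ⟨x, ⟨hx, hfx⟩, rfl⟩
    have h1 := hAK0 x
    have h2 := hD0' x
    have h3 := hlog x hx hfx
    simp only [hW]
    linarith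
  have hSn : S.Nonempty := ⟨W x₂, x₂, ⟨hx₂, hfx₂⟩, rfl⟩
  set f₀ : ℝ := Real.exp (-(5 * a₀ / δ)) with hf₀
  have hf₀0 : 0 < f₀ := Real.exp_pos _
  set K₁ : Set (PE n) := {x | x ∈ L ∧ c * Dl a n xT x ≤ 6 * a₀} ∩ (L ∩ f ⁻¹' {w | f₀ ≤ ‖w‖}) with hK₁
  have hK₁c : IsCompact K₁ := by
    apply hL.of_isClosed_subset
    · apply IsClosed.inter
      · exact hL.isClosed.inter (isClosed_le (continuous_const.mul (Dl_continuous a n xT))
          continuous_const)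
      · exact hfc.preimage_isClosed_of_isClosed hL.isClosed
          (isClosed_le continuous_const continuous_norm)
    · rintro x ⟨h1, -⟩; exact h1.1
  set Ω₁ : Set (PE n) := (Ω ∩ f ⁻¹' {0}ᶜ) ∩ ball xT ρ₂ with hΩ₁
  have hΩ₁o : IsOpen Ω₁ :=
    (hfd.continuousOn.isOpen_inter_preimage hΩ isOpen_compl_singleton).inter isOpen_ball
  have hK₁Ω : K₁ ⊆ Ω₁ := by
    rintro x ⟨⟨hx, h1⟩, -, h2⟩
    have h2' : f₀ ≤ ‖f x‖ := h2
    refine ⟨⟨hLΩ hx, ?_⟩, ?_⟩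
    · intro h3
      have h4 : f x = 0 := h3
      rw [h4, norm_zero] at h2'
      linarith
    · rw [mem_ball, dist_eq_norm]
      have h3 : ‖x - xT‖ ≤ ρ₂ := by rw [← dist_eq_norm]; exact hLb hx
      rcases h3.lt_or_eq with h4 | h4
      · exact h4
      · exfalso
        have h5 := hsph x hx h4
        have h6 := mul_le_mul_of_nonneg_left h5 hc0.le
        linarith
  obtain ⟨r₀, hr₀, hflow⟩ := hFLOW (PE n) Ω₁ K₁ X hΩ₁o hK₁c hK₁Ω
    (hXd.mono (fun x hx => hx.1.1))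
  set r : ℝ := r₀ / 2 with hr
  have hr0 : 0 < r := by positivity
  have hrr : r < r₀ := by linarith
  set gain : ℝ := c * (r ^ 2 * f₀ ^ 2) with hgain
  have hgain0 : 0 < gain := by positivity
  set η : ℝ := min (gain / 4) a₀ with hη
  have hη0 : 0 < η := lt_min (by positivity) ha₀0
  obtain ⟨_, ⟨x, ⟨hx, hfx⟩, rfl⟩, hxw⟩ := exists_lt_of_csInf_lt hSn
    (lt_add_of_pos_right (sInf S) hη0)
  have hWx₂ : W x₂ ≤ 3 * a₀ := by
    simp only [hW]
    linarith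
  have hwle : sInf S ≤ W x₂ := csInf_le hSb ⟨x₂, ⟨hx₂, hfx₂⟩, rfl⟩
  have hηa : η ≤ a₀ := min_le_right _ _
  have hηg : η ≤ gain / 4 := min_le_left _ _
  have hWx : W x ≤ 4 * a₀ := by linarith
  have hWxe : W x = AK a n x + c * Dl a n xT x - δ * Real.log ‖f x‖ := rfl
  have hxK : x ∈ K₁ := by
    refine ⟨⟨hx, ?_⟩, hx, ?_⟩
    · have h1 := hAK0 x
      have h2 := hlog x hx hfx
      rw [hWxe] at hWx
      linarith
    · show f₀ ≤ ‖f x‖
      have h1 := hAK0 x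
      have h2 := hD0' x
      rw [hWxe] at hWx
      have h3 : -(5 * a₀ / δ) ≤ Real.log ‖f x‖ := by
        have h4 : -(5 * a₀) ≤ δ * Real.log ‖f x‖ := by linarith
        have h5 : -(5 * a₀ / δ) = -(5 * a₀) / δ := by ring
        rw [h5, div_le_iff₀ hδ0]
        have h6 := mul_comm δ (Real.log ‖f x‖)
        linarith
      rw [hf₀, ← Real.exp_log (norm_pos_iff.mpr hfx)]
      exact Real.exp_le_exp.mpr h3
  obtain ⟨γ, hγ0, hγ⟩ := hflow x hxK
  have hγd : DifferentiableOn ℂ γ (ball (0 : ℂ) r₀) := fun t ht =>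
    (hγ t ht).2.differentiableAt.differentiableWithinAt
  obtain ⟨hγL, hγs⟩ := hstep r₀ hr₀ γ (by rw [hγ0]; exact hx)
    (fun t ht => ⟨⟨(hγ t ht).1.1.1, (hγ t ht).1.2⟩, (hγ t ht).2⟩)
  have hfγ : ∀ t ∈ ball (0 : ℂ) r₀, f (γ t) ≠ 0 := fun t ht => (hγ t ht).1.1.2
  have hfγd : DifferentiableOn ℂ (fun t => f (γ t)) (ball (0 : ℂ) r₀) :=
    hfd.comp hγd (fun t ht => (hγ t ht).1.1.1)
  have hγc := circ_cont hr0 hrr hγd.continuousOn
  have hlogc : Continuous (fun θ : ℝ => Real.log ‖f (γ (circleMap 0 r θ))‖) := by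
    have h1 := circ_cont hr0 hrr hfγd.continuousOn
    exact h1.norm.log (fun θ => (norm_pos_iff.mpr (hfγ _ (circ_mem hr0 hrr θ))).ne')
  have hDc : ∀ y : PE n, Continuous (fun θ : ℝ => Dl a n y (γ (circleMap 0 r θ))) := fun y =>
    (Dl_continuous a n y).comp hγc
  set q : ℝ → ℝ := fun θ => c * Dl a n xT (γ (circleMap 0 r θ)) -
    δ * Real.log ‖f (γ (circleMap 0 r θ))‖ with hq
  have hqc : Continuous q := (continuous_const.mul (hDc xT)).sub (continuous_const.mul hlogc)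
  obtain ⟨θ, hθ⟩ := hγs r hr0 hrr η hη0 q hqc
  have hθm := circ_mem hr0 hrr θ
  have hge : sInf S ≤ AK a n (γ (circleMap 0 r θ)) + q θ := by
    have h1 : sInf S ≤ W (γ (circleMap 0 r θ)) := csInf_le hSb
      ⟨γ (circleMap 0 r θ), ⟨hγL _ hθm, hfγ _ hθm⟩, rfl⟩
    have h2 : W (γ (circleMap 0 r θ)) = AK a n (γ (circleMap 0 r θ)) + q θ := by
      simp only [hW, hq]; ring
    rw [← h2]; exact h1
  -- evaluation of the integral
  set J : ℝ := ∫ θ in (0 : ℝ)..(2 * Real.pi), Dl a n (γ 0) (γ (circleMap 0 r θ)) with hJ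
  have hint : ∫ θ in (0 : ℝ)..(2 * Real.pi), (q θ - c₀ * Dl a n (γ 0) (γ (circleMap 0 r θ))) =
      c * (2 * Real.pi * Dl a n xT (γ 0) + J) - δ * (2 * Real.pi * Real.log ‖f (γ 0)‖) -
        c₀ * J := by
    have i1 : IntervalIntegrable q volume 0 (2 * Real.pi) := hqc.intervalIntegrable _ _
    have i2 : IntervalIntegrable (fun θ : ℝ => c₀ * Dl a n (γ 0) (γ (circleMap 0 r θ)))
        volume 0 (2 * Real.pi) := (continuous_const.mul (hDc (γ 0))).intervalIntegrable _ _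
    have i3 : IntervalIntegrable (fun θ : ℝ => c * Dl a n xT (γ (circleMap 0 r θ)))
        volume 0 (2 * Real.pi) := (continuous_const.mul (hDc xT)).intervalIntegrable _ _
    have i4 : IntervalIntegrable (fun θ : ℝ => δ * Real.log ‖f (γ (circleMap 0 r θ))‖)
        volume 0 (2 * Real.pi) := (continuous_const.mul hlogc).intervalIntegrable _ _
    rw [intervalIntegral.integral_sub i1 i2, intervalIntegral.integral_const_mul]
    simp only [hq]
    rw [intervalIntegral.integral_sub i3 i4, intervalIntegral.integral_const_mul,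
      intervalIntegral.integral_const_mul, circ_Dl hr0 hrr hγd,
      circ_log hr0 hrr hfγd hfγ]
  have hJge : 2 * Real.pi * (r ^ 2 * f₀ ^ 2) ≤ J := by
    have h1 := circ_Dl_ge (a := a) hr0 hrr hγd hj (hγ 0 (mem_ball_self hr₀)).2
    rw [← hfX (γ 0) (by rw [hγ0]; exact hLΩ hx)] at h1
    refine le_trans ?_ h1
    have h2 : f₀ ≤ ‖f (γ 0)‖ := by rw [hγ0]; exact hxK.2.2
    gcongr
  rw [hint, hγ0] at hθ
  have h1 : (2 * Real.pi)⁻¹ * (c * (2 * Real.pi * Dl a n xT x + J) -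
      δ * (2 * Real.pi * Real.log ‖f x‖) - c₀ * J) =
      c * Dl a n xT x - δ * Real.log ‖f x‖ - c * ((2 * Real.pi)⁻¹ * J) := by
    have h2 : c₀ = 2 * c := by rw [hc]; ring
    rw [h2]
    field_simp
    ring
  have h2 : gain ≤ c * ((2 * Real.pi)⁻¹ * J) := by
    rw [hgain]
    apply mul_le_mul_of_nonneg_left _ hc0.le
    rw [inv_mul_eq_div, le_div_iff₀ (by positivity), mul_comm]
    exact hJge
  rw [h1] at hθ
  rw [hWxe] at hxw
  linarith

end Pool.Agent.H713R3.ZA
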