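import Mathlib
import Pool.Agent.H713R3.ZA.Min

set_option autoImplicit false

open Topology Filter Metric Set Polynomial MeasureTheory

namespace Pool.Agent.H713R3.ZA

/-- the discriminant-like function -/
noncomputable def Vd (n : ℕ) (x : PE n) : ℂ :=
  ∏ p ∈ (Finset.univ : Finset (Fin n × Fin n)).filter (fun p => p.1 < p.2),
    (x (some p.1) - x (some p.2))

theorem Vd_diff (n : ℕ) : Differentiable ℂ (Vd n) := by
  have h : ContDiff ℂ 1 (Vd n) := by
    unfold Vd
    apply contDiff_prod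
    intro p _
    exact (contDiff_coord n (some p.1)).sub (contDiff_coord n (some p.2))
  exact h.differentiable (by norm_num)

theorem Vd_inj {n : ℕ} {x : PE n} (h : Vd n x ≠ 0) : Function.Injective fun i : Fin n => x (some i) := by
  intro i j hij
  by_contra hne
  apply h
  unfold Vd
  rcases lt_or_gt_of_ne hne with h1 | h1
  · apply Finset.prod_eq_zero (i := (i, j))
    · simp [h1]
    · simp only at hij
      rw [hij, sub_self]
  · apply Finset.prod_eq_zero (i := (j, i))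
    · simp [h1]
    · simp only at hij
      rw [hij, sub_self]

theorem exists_Vd (n : ℕ) : ∃ x : PE n, Vd n x ≠ 0 := by
  refine ⟨fun o => match o with
    | none => 0
    | some i => ((i : ℕ) : ℂ), ?_⟩
  unfold Vd
  rw [Finset.prod_ne_zero_iff]
  rintro ⟨i, j⟩ hp
  simp only [Finset.mem_filter] at hp
  have h1 : (i : ℕ) < (j : ℕ) := hp.2
  simp only
  rw [sub_ne_zero]
  exact_mod_cast h1.ne

theorem exists_good (hIDEN : StIDEN) {n : ℕ} {Ω : Set (PE n)} (hΩ : IsOpen Ω) {X : PE n → PE n}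
    (hX : DifferentiableOn ℂ X Ω) (h : ∃ x ∈ Ω, X x ≠ 0) :
    ∃ x ∈ Ω, X x ≠ 0 ∧ Function.Injective fun i : Fin n => x (some i) := by
  obtain ⟨x₁, hx₁, hX₁⟩ := h
  by_contra hcon
  push Not at hcon
  have h1 : ∀ᶠ x in 𝓝 x₁, x ∈ Ω ∧ X x ≠ 0 := by
    have h2 := hX.continuousOn.continuousAt (hΩ.mem_nhds hx₁)
    filter_upwards [hΩ.mem_nhds hx₁, h2.eventually_ne hX₁] with x e1 e2
    exact ⟨e1, e2⟩
  have h2 : ∀ᶠ x in 𝓝 x₁, Vd n x = 0 := by
    filter_upwards [h1] with x hx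
    by_contra h3
    exact hcon x hx.1 hx.2 (Vd_inj h3)
  obtain ⟨x, hx⟩ := exists_Vd n
  exact hx (hIDEN (PE n) univ (Vd n) isOpen_univ isPreconnected_univ (Vd_diff n).differentiableOn
    x₁ (mem_univ _) h2 x (mem_univ _))

/-- the speed of a coefficient along the field -/
theorem speed_diff {n : ℕ} {a : ℂ} (j : ℕ) {Ω : Set (PE n)} (hΩ : IsOpen Ω) {X : PE n → PE n}
    (hX : DifferentiableOn ℂ X Ω) :
    DifferentiableOn ℂ (fun x => fderiv ℂ (cf a n j) x (X x)) Ω := by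
  have h1 : ∀ x, fderiv ℂ (cf a n j) x (X x) =
      ∑ k, X x k * fderiv ℂ (cf a n j) x (fun l => if k = l then 1 else 0) := by
    intro x
    have := LinearMap.pi_apply_eq_sum_univ ((fderiv ℂ (cf a n j) x) : PE n →ₗ[ℂ] ℂ) (X x)
    simpa using this
  have h2 : (fun x => fderiv ℂ (cf a n j) x (X x)) = fun x =>
      ∑ k, X x k * fderiv ℂ (cf a n j) x (fun l => if k = l then 1 else 0) := funext h1
  rw [h2]
  apply DifferentiableOn.fun_sum
  intro k _
  apply DifferentiableOn.mul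
  · exact (differentiableOn_pi.mp hX) k
  · exact Pool.Agent.Helper540.differentiableOn_fderiv_apply hΩ (cf_diff a n j).differentiableOn _

/-- `x ↦ f_x^N (x i)` is continuous. -/
theorem crit_cont (a : ℂ) (n N : ℕ) (i : Fin n) :
    Continuous (fun x : PE n => (fx a n x)^[N] (x (some i))) := by
  have h1 := (contDiff_fx a n N).continuous
  revert h1
  generalize hHe : (fun q : PE n × ℂ => (fx a n q.1)^[N] q.2) = H
  intro h1
  have h2 : Continuous (fun x : PE n => ((x, x (some i)) : PE n × ℂ)) :=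
    continuous_id.prodMk (continuous_apply _)
  have h3 : (fun x : PE n => (fx a n x)^[N] (x (some i))) =
      fun x => H ((fun x : PE n => ((x, x (some i)) : PE n × ℂ)) x) := by
    funext x; rw [← hHe]
  rw [h3]
  exact h1.comp h2

theorem crit_diff (a : ℂ) (n N : ℕ) (i : Fin n) :
    Differentiable ℂ (fun x : PE n => (fx a n x)^[N] (x (some i))) := by
  have h1 := (contDiff_fx a n N).differentiable (by norm_num)
  revert h1
  generalize hHe : (fun q : PE n × ℂ => (fx a n q.1)^[N] q.2) = H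
  intro h1
  have h2 : Differentiable ℂ (fun x : PE n => ((x, x (some i)) : PE n × ℂ)) :=
    differentiable_id.prodMk (differentiable_apply _)
  have h3 : (fun x : PE n => (fx a n x)^[N] (x (some i))) =
      fun x => H ((fun x : PE n => ((x, x (some i)) : PE n × ℂ)) x) := by
    funext x; rw [← hHe]
  rw [h3]
  exact h1.comp h2

theorem core (hROOT : StROOT) (hINV : StINV) (hBSUM : StBSUM) (hIDEN : StIDEN) (hKER : StKER)
    (hFLOW : StFLOW) (hGAIN : StGAIN) (hAVG : StAVG) (hSEP : StSEP) (hNDEG : StNDEG)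
    (hUSC : StUSC) {a : ℂ} (ha : a ≠ 0) {n : ℕ} (hn : 1 ≤ n) (xT : PE n)
    (hT : volume (KJ (fam a n xT)) = 0) {E₀ : Finset (Fin n)} {j₀ : Fin n} (hj₀ : j₀ ∉ E₀)
    (hP : ∀ ε : ℝ, 0 < ε → ∃ x : PE n, ‖x - xT‖ < ε ∧ ∀ i ∈ E₀, x (some i) ∉ KJ (fam a n x))
    {ρ₀ : ℝ} (hρ₀ : 0 < ρ₀)
    (hmax : ∀ x : PE n, ‖x - xT‖ < ρ₀ → (∀ i ∈ E₀, x (some i) ∉ KJ (fam a n x)) →
      ∀ j, j ∉ E₀ → x (some j) ∈ KJ (fam a n x)) : False := by
  classical
  -- Böttcher data
  set B : ℝ := ‖xT‖ + 2 with hB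
  have hB0 : 0 < B := by have := norm_nonneg xT; linarith
  obtain ⟨R, C₁, R₁, R₃, ψ, φ, hb⟩ := exists_boett hBSUM hINV ha hn hB0
  have hb1 := hb.hR; have hb2 := hb.hC; have hb3 := hb.hR₁; have hb4 := hb.hR₃
  obtain ⟨R₅, c₀, hR₅, hc₀, hgain⟩ := exists_gain hGAIN ha hn hb
  -- radii
  obtain ⟨ρs, hρs, hsep⟩ := hSEP n a xT hn ha
  set ρ : ℝ := min ρ₀ 1 with hρ
  have hρ0 : 0 < ρ := lt_min hρ₀ one_pos
  set ρ₂ : ℝ := min (ρ / 2) ρs with hρ₂
  have hρ₂0 : 0 < ρ₂ := lt_min (by positivity) hρs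
  have hρ₂ρ : ρ₂ < ρ := (min_le_left _ _).trans_lt (by linarith)
  have hballB : ∀ x ∈ ball xT ρ, x ∈ ball (0 : PE n) B := by
    intro x hx
    rw [mem_ball, dist_eq_norm] at hx
    rw [mem_ball_zero_iff]
    have h1 : ρ ≤ 1 := min_le_right _ _
    have h2 : ‖x‖ ≤ ‖x - xT‖ + ‖xT‖ := norm_le_norm_sub_add _ _
    linarith
  -- the sphere
  obtain ⟨n₀, hn₀, hsph⟩ : ∃ n₀ : ℝ, 0 < n₀ ∧ ∀ x ∈ sphere xT ρ₂, n₀ ≤ Dl a n xT x := by
    apply (isCompact_sphere xT ρ₂).exists_forall_le' (Dl_continuous a n xT).continuousOn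
    intro x hx
    have h1 := Dl_nonneg a n xT x
    rcases h1.lt_or_eq with h2 | h2
    · exact h2
    · exfalso
      rw [mem_sphere, dist_eq_norm] at hx
      have h3 : fam a n x = fam a n xT := by
        ext j
        by_cases hj : j < n + 1 + 1
        · have h4 := (Finset.sum_eq_zero_iff_of_nonneg
            (fun (j : ℕ) _ => by positivity)).mp h2.symm j (Finset.mem_range.mpr hj)
          have h5 : ‖(fam a n x).coeff j - (fam a n xT).coeff j‖ = 0 := by
            exact pow_eq_zero_iff (two_ne_zero) |>.mp h4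
          exact sub_eq_zero.mp (norm_eq_zero.mp h5)
        · rw [coeff_eq_zero_of_natDegree_lt (by have := natDegree_fam_le a n x; omega),
            coeff_eq_zero_of_natDegree_lt (by have := natDegree_fam_le a n xT; omega)]
      have h4 := hsep x (by rw [hx]; exact min_le_right _ _) h3
      rw [h4, sub_self, norm_zero] at hx
      linarith
  set a₀ : ℝ := c₀ * n₀ / 16 with ha₀
  have ha₀0 : 0 < a₀ := by positivity
  obtain ⟨σ, hσ, husc⟩ := hUSC n a xT hn ha hT a₀ ha₀0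
  -- neighbourhood of good starting points
  set G₁ : Set (PE n) := ball xT (min σ ρ₂) ∩ {x | c₀ / 2 * Dl a n xT x < a₀} with hG₁
  have hG₁o : IsOpen G₁ := isOpen_ball.inter
    (isOpen_lt (continuous_const.mul (Dl_continuous a n xT)) continuous_const)
  have hxTG : xT ∈ G₁ := by
    refine ⟨mem_ball_self (lt_min hσ hρ₂0), ?_⟩
    have h1 : Dl a n xT xT = 0 := by simp [Dl]
    show c₀ / 2 * Dl a n xT xT < a₀
    rw [h1, mul_zero]; exact ha₀0
  obtain ⟨ε₁, hε₁, hεG⟩ := Metric.isOpen_iff.mp hG₁o xT hxTG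
  obtain ⟨x₁, hx₁, hx₁e⟩ := hP ε₁ hε₁
  have hx₁G : x₁ ∈ G₁ := hεG (by rw [mem_ball, dist_eq_norm]; exact hx₁)
  -- the time `M`
  obtain ⟨M, hM⟩ : ∃ M : ℕ, ∀ i ∈ E₀, R₃ + 2 * C₁ < ‖(fx a n x₁)^[M] (x₁ (some i))‖ := by
    have h1 : ∀ᶠ M : ℕ in atTop, ∀ i ∈ E₀, R₃ + 2 * C₁ < ‖(fx a n x₁)^[M] (x₁ (some i))‖ := by
      rw [Filter.eventually_all_finset]
      intro i hi
      have h2 := not_not.mp (hx₁e i hi)
      exact h2.eventually (eventually_gt_atTop _)
    exact h1.exists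
  set O : Set (PE n) := ball xT ρ ∩ {x | ∀ i ∈ E₀, R₃ < ‖(fx a n x)^[M] (x (some i))‖} with hO
  have hOo : IsOpen O := by
    apply isOpen_ball.inter
    have h1 : {x : PE n | ∀ i ∈ E₀, R₃ < ‖(fx a n x)^[M] (x (some i))‖} =
        ⋂ i ∈ E₀, {x : PE n | R₃ < ‖(fx a n x)^[M] (x (some i))‖} := by
      ext x; simp
    rw [h1]
    apply isOpen_biInter_finset
    intro i _
    exact isOpen_lt continuous_const (crit_cont a n M i).norm
  have hx₁ρ : x₁ ∈ ball xT ρ := ball_subset_ball ((min_le_right _ _).trans hρ₂ρ.le) hx₁G.1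
  have hx₁O : x₁ ∈ O := ⟨hx₁ρ, fun i hi => by have := hM i hi; linarith⟩
  set Ω : Set (PE n) := connectedComponentIn O x₁ with hΩ
  have hΩo : IsOpen Ω := hOo.connectedComponentIn
  have hΩc : IsPreconnected Ω := isPreconnected_connectedComponentIn
  have hΩO : Ω ⊆ O := connectedComponentIn_subset O x₁
  have hx₁Ω : x₁ ∈ Ω := mem_connectedComponentIn hx₁O
  -- positions
  set Fp : Fin n → PE n → ℂ := fun i x => φ (x, (fx a n x)^[M] (x (some i))) with hFp
  have hFpd : ∀ i ∈ E₀, DifferentiableOn ℂ (Fp i) O := by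
    intro i hi
    have h1 : DifferentiableOn ℂ (fun x : PE n => ((x, (fx a n x)^[M] (x (some i))) : PE n × ℂ)) O :=
      differentiableOn_id.prodMk (crit_diff a n M i).differentiableOn
    exact hb.φd.comp h1 (fun x hx => ⟨hballB x hx.1, hx.2 i hi⟩)
  set Gk : Option (Fin n) → PE n → ℂ := fun k => match k with
    | none => fun _ => 0
    | some i => if i ∈ E₀ then Fp i else if i = j₀ then cf a n n else fun _ => 0 with hGk
  have hGkd : ∀ k, DifferentiableOn ℂ (Gk k) Ω := by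
    intro k
    cases k with
    | none => exact differentiableOn_const 0
    | some i =>
      simp only [hGk]
      split_ifs with h1 h2
      · exact (hFpd i h1).mono hΩO
      · exact (cf_diff a n n).differentiableOn
      · exact differentiableOn_const 0
  obtain ⟨X, hXd, hXne, hXk⟩ := hKER (Option (Fin n)) none Ω Gk hΩo hΩc ⟨x₁, hx₁Ω⟩ hGkd
  -- a coefficient which moves
  obtain ⟨x₃, hx₃, hXx₃, hx₃i⟩ := exists_good hIDEN hΩo hXd hXne
  obtain ⟨j, hj⟩ : ∃ j : ℕ, fderiv ℂ (cf a n j) x₃ (X x₃) ≠ 0 := by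
    by_contra hcon
    push Not at hcon
    exact hXx₃ (hNDEG n a x₃ (X x₃) hn ha hx₃i hcon)
  have hjn : j < n + 1 + 1 := by
    by_contra hcon
    apply hj
    have h1 : cf a n j = fun _ => 0 := by
      funext x
      exact coeff_eq_zero_of_natDegree_lt (by have := natDegree_fam_le a n x; omega)
    rw [h1]
    simp
  set f : PE n → ℂ := fun x => fderiv ℂ (cf a n j) x (X x) with hf
  have hfd : DifferentiableOn ℂ f Ω := speed_diff j hΩo hXd
  -- the starting point
  obtain ⟨x₂, hx₂Ω, hx₂G, hx₂M, hfx₂⟩ : ∃ x₂ ∈ Ω, x₂ ∈ G₁ ∧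
      (∀ i ∈ E₀, R₃ + 2 * C₁ < ‖(fx a n x₂)^[M] (x₂ (some i))‖) ∧ f x₂ ≠ 0 := by
    by_contra hcon
    push Not at hcon
    have h1 : ∀ᶠ x in 𝓝 x₁, ∀ i ∈ E₀, R₃ + 2 * C₁ < ‖(fx a n x)^[M] (x (some i))‖ := by
      rw [Filter.eventually_all_finset]
      intro i hi
      exact (crit_cont a n M i).norm.continuousAt.eventually (lt_mem_nhds (hM i hi))
    have h2 : ∀ᶠ x in 𝓝 x₁, f x = 0 := by
      filter_upwards [h1, hΩo.mem_nhds hx₁Ω, hG₁o.mem_nhds hx₁G] with x e1 e2 e3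
      exact hcon x e2 e3 e1
    exact hj (hIDEN (PE n) Ω f hΩo hΩc hfd x₁ hx₁Ω h2 x₃ hx₃)
  have hx₂B : x₂ ∈ ball (0 : PE n) B := hballB x₂ (hΩO hx₂Ω).1
  set F0 : Fin n → ℂ := fun i => Fp i x₂ with hF0
  have hF0n : ∀ i ∈ E₀, R₃ + C₁ < ‖F0 i‖ := by
    intro i hi
    have h1 := hx₂M i hi
    have h2 := hb.φc x₂ hx₂B ((fx a n x₂)^[M] (x₂ (some i))) (by linarith)
    have h3 := norm_sub_norm_le ((fx a n x₂)^[M] (x₂ (some i)))
      (φ (x₂, (fx a n x₂)^[M] (x₂ (some i))))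
    rw [norm_sub_rev] at h3
    show R₃ + C₁ < ‖φ (x₂, (fx a n x₂)^[M] (x₂ (some i)))‖
    linarith
  have hF0R : ∀ i ∈ E₀, R₁ < ‖F0 i‖ := fun i hi => by have := hF0n i hi; linarith
  -- the leaf
  set L' : Set (PE n) := {x | x ∈ closedBall xT ρ₂ ∧
    ∀ i ∈ E₀, (fx a n x)^[M] (x (some i)) = ψ (x, F0 i)} with hL'
  have hcb : ∀ x ∈ closedBall xT ρ₂, x ∈ ball xT ρ := fun x hx =>
    closedBall_subset_ball hρ₂ρ hx
  have hL'c : IsCompact L' := by
    have h1 : L' = ⋂ i : Fin n, {x | x ∈ closedBall xT ρ₂ ∧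
        (i ∈ E₀ → (fx a n x)^[M] (x (some i)) - ψ (x, F0 i) = 0)} ∩ closedBall xT ρ₂ := by
      ext x
      simp only [hL', mem_ofPred_eq, mem_iInter, mem_inter_iff, sub_eq_zero]
      constructor
      · rintro ⟨h1, h2⟩ i
        exact ⟨⟨h1, h2 i⟩, h1⟩
      · intro h
        exact ⟨(h j₀).2, fun i hi => (h i).1.2 hi⟩
    apply (isCompact_closedBall xT ρ₂).of_isClosed_subset
    · rw [h1]
      apply isClosed_iInter
      intro i
      apply IsClosed.inter _ isClosed_closedBall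
      by_cases hi : i ∈ E₀
      · have h2 : ContinuousOn (fun x : PE n => (fx a n x)^[M] (x (some i)) - ψ (x, F0 i))
            (closedBall xT ρ₂) := by
          apply (crit_cont a n M i).continuousOn.sub
          apply DifferentiableOn.continuousOn (𝕜 := ℂ)
          exact ψ_comp_diff hb differentiableOn_id (differentiableOn_const _)
            (fun x hx => hballB x (hcb x hx)) (fun _ _ => hF0R i hi)
        have h3 := h2.preimage_isClosed_of_isClosed isClosed_closedBall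
          (isClosed_singleton (x := (0 : ℂ)))
        have h4 : {x | x ∈ closedBall xT ρ₂ ∧
            (i ∈ E₀ → (fx a n x)^[M] (x (some i)) - ψ (x, F0 i) = 0)} =
            closedBall xT ρ₂ ∩ (fun x : PE n => (fx a n x)^[M] (x (some i)) - ψ (x, F0 i)) ⁻¹' {0} := by
          ext x
          constructor
          · rintro ⟨e1, e2⟩; exact ⟨e1, e2 hi⟩
          · rintro ⟨e1, e2⟩; exact ⟨e1, fun _ => e2⟩
        rw [h4]
        exact h3
      · have h2 : {x | x ∈ closedBall xT ρ₂ ∧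
            (i ∈ E₀ → (fx a n x)^[M] (x (some i)) - ψ (x, F0 i) = 0)} = closedBall xT ρ₂ := by
          ext x; simp [hi]
        rw [h2]
        exact isClosed_closedBall
    · rintro x ⟨h2, -⟩; exact h2
  have hL'O : L' ⊆ O := by
    rintro x ⟨h1, h2⟩
    refine ⟨hcb x h1, fun i hi => ?_⟩
    rw [h2 i hi]
    have h3 := hb.ψc x (hballB x (hcb x h1)) (F0 i) (hF0R i hi)
    have h4 := norm_sub_norm_le (F0 i) (ψ (x, F0 i))
    rw [norm_sub_rev] at h4
    have := hF0n i hi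
    linarith
  set L : Set (PE n) := L' ∩ Ω with hL
  have hLc : IsCompact L := by
    -- `Ω` is relatively closed in `O`
    have h1 : IsOpen (O \ Ω) := by
      rw [isOpen_iff_mem_nhds]
      rintro x ⟨hxO, hxΩ⟩
      have h2 : IsOpen (connectedComponentIn O x) := hOo.connectedComponentIn
      filter_upwards [h2.mem_nhds (mem_connectedComponentIn hxO)] with y hy
      refine ⟨connectedComponentIn_subset O x hy, fun hyΩ => hxΩ ?_⟩
      have h3 := connectedComponentIn_eq hy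
      have h4 := connectedComponentIn_eq hyΩ
      rw [hΩ, h4, ← h3]
      exact mem_connectedComponentIn hxO
    have h2 : L = L' \ (O \ Ω) := by
      ext x
      simp only [hL, mem_inter_iff, mem_diff, not_and, not_not]
      constructor
      · rintro ⟨e1, e2⟩; exact ⟨e1, fun _ => e2⟩
      · rintro ⟨e1, e2⟩; exact ⟨e1, e2 (hL'O e1)⟩
    rw [h2]
    exact hL'c.diff h1
  have hx₂L : x₂ ∈ L := by
    refine ⟨⟨?_, fun i hi => ?_⟩, hx₂Ω⟩
    · exact ball_subset_closedBall (ball_subset_ball (min_le_right _ _) hx₂G.1)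
    · exact (hb.ψφ x₂ hx₂B _ (by have := hx₂M i hi; linarith)).symm
  refine min_arg hFLOW (a := a) (n := n) (xT := xT) (x₂ := x₂) (ρ₂ := ρ₂) hn₀ hc₀ hjn hΩo hfd hXd
    (fun x _ => rfl) hLc inter_subset_right (fun x hx => hx.1.1) hx₂L hfx₂
    (fun x _ hx => hsph x (by rw [mem_sphere, dist_eq_norm]; exact hx)) ?_ hx₂G.2.le ?_
  · -- small area
    have h1 := husc x₂ (by
      have := hx₂G.1
      rw [mem_ball, dist_eq_norm] at this
      exact this.trans_le (min_le_left _ _))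
    exact ENNReal.toReal_le_of_le_ofReal ha₀0.le h1
  · intro r₀ hr₀ γ hγ0 hγ
    have hγd : DifferentiableOn ℂ γ (ball (0 : ℂ) r₀) := fun t ht =>
      (hγ t ht).2.differentiableAt.differentiableWithinAt
    have h0 : (0 : ℂ) ∈ ball (0 : ℂ) r₀ := mem_ball_self hr₀
    -- functions killed by the field are constant
    have hconst : ∀ k, k ≠ none → ∀ t ∈ ball (0 : ℂ) r₀, Gk k (γ t) = Gk k (γ 0) := by
      intro k hk t ht
      have hd : ∀ s ∈ ball (0 : ℂ) r₀, HasDerivAt (fun s => Gk k (γ s)) 0 s := by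
        intro s hs
        have e1 := ((hGkd k).differentiableAt (hΩo.mem_nhds (hγ s hs).1.1)).hasFDerivAt
        have e2 := e1.comp_hasDerivAt s (hγ s hs).2
        rw [hXk _ (hγ s hs).1.1 k hk] at e2
        exact e2
      apply (convex_ball (0 : ℂ) r₀).is_const_of_fderivWithin_eq_zero (𝕜 := ℂ)
        (f := fun s => Gk k (γ s)) (fun s hs => (hd s hs).differentiableAt.differentiableWithinAt)
        _ ht h0
      intro s hs
      rw [fderivWithin_of_isOpen isOpen_ball hs]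
      ext
      simp [(hd s hs).deriv]
    have hFc : ∀ i ∈ E₀, ∀ t ∈ ball (0 : ℂ) r₀, Fp i (γ t) = Fp i (γ 0) := by
      intro i hi t ht
      have := hconst (some i) (by simp) t ht
      simpa [hGk, hi] using this
    have hcen : ∀ t ∈ ball (0 : ℂ) r₀, (fam a n (γ t)).coeff n = (fam a n (γ 0)).coeff n := by
      intro t ht
      have := hconst (some j₀) (by simp) t ht
      simp only [hGk, if_neg hj₀, if_true] at this
      exact this
    have hFz : ∀ i ∈ E₀, Fp i (γ 0) = F0 i := by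
      intro i hi
      have hB' : γ 0 ∈ ball (0 : PE n) B := hballB _ (hΩO hγ0.2).1
      have e1 : (fx a n (γ 0))^[M] (γ 0 (some i)) = ψ (γ 0, F0 i) := hγ0.1.2 i hi
      have e2 : R₃ < ‖(fx a n (γ 0))^[M] (γ 0 (some i))‖ := (hΩO hγ0.2).2 i hi
      have e3 := hb.ψφ _ hB' _ e2
      apply hb.ψi _ hB' (φ_norm hb hB' e2) (hF0R i hi)
      show ψ (γ 0, φ (γ 0, (fx a n (γ 0))^[M] (γ 0 (some i)))) = ψ (γ 0, F0 i)
      rw [e3, e1]
    have hrig : ∀ i ∈ E₀, ∀ t ∈ ball (0 : ℂ) r₀,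
        (fx a n (γ t))^[M] (γ t (some i)) = ψ (γ t, F0 i) := by
      intro i hi t ht
      have hB' : γ t ∈ ball (0 : PE n) B := hballB _ (hΩO (hγ t ht).1.1).1
      have e2 : R₃ < ‖(fx a n (γ t))^[M] (γ t (some i))‖ := (hΩO (hγ t ht).1.1).2 i hi
      have e3 := hb.ψφ _ hB' _ e2
      have e4 : φ (γ t, (fx a n (γ t))^[M] (γ t (some i))) = F0 i := by
        rw [← hFz i hi, ← hFc i hi t ht]
      rw [e4] at e3
      exact e3.symm
    have hRD : RD a n B R C₁ R₁ R₃ ψ φ r₀ γ (E₀ : Set (Fin n)) M F0 := by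
      refine ⟨hr₀, hγd, fun t ht => hballB _ (hΩO (hγ t ht).1.1).1, hF0R, hrig, ?_, hcen⟩
      intro i hi t ht
      have e1 := (hΩO (hγ t ht).1.1).1
      rw [mem_ball, dist_eq_norm] at e1
      apply hmax (γ t) (e1.trans_le (min_le_left _ _)) _ i hi
      intro l hl
      exact not_mem_KJ_of_large hb (hballB _ (hΩO (hγ t ht).1.1).1) (k := M)
        (by have := (hΩO (hγ t ht).1.1).2 l hl; linarith)
    refine ⟨fun t ht => ⟨⟨ball_subset_closedBall (hγ t ht).1.2, fun i hi => hrig i hi t ht⟩,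
      (hγ t ht).1.1⟩, ?_⟩
    intro r hr0 hrr η hη q hq
    exact step hROOT hAVG ha hn hb hR₅ hgain hRD hr0 hrr hη hq

end Pool.Agent.H713R3.ZA
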