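import Pool.Agent.H713R3.ZA.Defs

set_option autoImplicit false

open Topology Filter Metric Set Polynomial MeasureTheory

namespace Pool.Agent.H713R3.ZA

namespace AVG

theorem one_circle (ρ r : ℝ) (h : ℂ → ℂ) (hr : 0 < r) (hρ : r < ρ)
    (hd : DifferentiableOn ℂ h (ball (0 : ℂ) ρ)) (h0 : h 0 = 1) :
    ENNReal.ofReal (2 * Real.pi) ≤
      ∫⁻ θ in Ioc (0 : ℝ) (2 * Real.pi), ENNReal.ofReal (‖h (circleMap 0 r θ)‖ ^ 2) := by
  have hpi := Real.pi_pos
  have hc : Continuous fun θ : ℝ => h (circleMap 0 r θ) := by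
    apply hd.continuousOn.comp_continuous (continuous_circleMap 0 r)
    intro θ
    simp [circleMap, abs_of_pos hr, hρ]
  have hcl : closedBall (0 : ℂ) r ⊆ ball (0 : ℂ) ρ := closedBall_subset_ball hρ
  have hmv : Real.circleAverage h 0 r = 1 := by
    have h1 : DiffContOnCl ℂ h (ball (0 : ℂ) |r|) := by
      rw [abs_of_pos hr]
      apply DifferentiableOn.diffContOnCl
      rw [closure_ball _ hr.ne']
      exact hd.mono hcl
    rw [h1.circleAverage, h0]
  have hint : (∫ θ in (0 : ℝ)..(2 * Real.pi), h (circleMap 0 r θ)) = ((2 * Real.pi : ℝ) : ℂ) := by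
    unfold Real.circleAverage at hmv
    have h2 : ((2 * Real.pi : ℝ)) • ((2 * Real.pi)⁻¹ • ∫ θ in (0 : ℝ)..(2 * Real.pi), h (circleMap 0 r θ))
        = (2 * Real.pi : ℝ) • (1 : ℂ) := by rw [hmv]
    rw [smul_smul, mul_inv_cancel₀ (by positivity), one_smul] at h2
    rw [h2]
    simp
  have hre : (∫ θ in (0 : ℝ)..(2 * Real.pi), (h (circleMap 0 r θ)).re) = 2 * Real.pi := by
    have h3 := Complex.reCLM.intervalIntegral_comp_comm (μ := volume) (a := 0) (b := 2 * Real.pi)
      (hc.intervalIntegrable _ _)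
    rw [hint] at h3
    simpa using h3
  have hle : (2 * Real.pi : ℝ) ≤ ∫ θ in (0 : ℝ)..(2 * Real.pi), ‖h (circleMap 0 r θ)‖ ^ 2 := by
    have h4 : (∫ θ in (0 : ℝ)..(2 * Real.pi), (2 * (h (circleMap 0 r θ)).re - 1)) = 2 * Real.pi := by
      rw [intervalIntegral.integral_sub, intervalIntegral.integral_const_mul, hre]
      · simp; ring
      · exact ((Complex.continuous_re.comp hc).const_mul 2 |>.intervalIntegrable _ _)
      · exact intervalIntegrable_const
    refine h4.symm.le.trans ?_
    apply intervalIntegral.integral_mono_on (by positivity)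
    · exact (((Complex.continuous_re.comp hc).const_mul 2).sub continuous_const).intervalIntegrable _ _
    · exact (hc.norm.pow 2).intervalIntegrable _ _
    · intro θ _
      have h5 := Complex.abs_re_le_norm (h (circleMap 0 r θ) )
      have h6 : (h (circleMap 0 r θ)).re ^ 2 ≤ ‖h (circleMap 0 r θ)‖ ^ 2 := by
        rw [← sq_abs (h (circleMap 0 r θ)).re]
        exact pow_le_pow_left₀ (abs_nonneg _) h5 2
      nlinarith [sq_nonneg ((h (circleMap 0 r θ)).re - 1)]
  rw [← ofReal_integral_eq_lintegral_ofReal]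
  · apply ENNReal.ofReal_le_ofReal
    rwa [intervalIntegral.integral_of_le (by positivity)] at hle
  · have := (hc.norm.pow 2).intervalIntegrable (μ := volume) 0 (2 * Real.pi)
    rwa [intervalIntegrable_iff_integrableOn_Ioc_of_le (by positivity)] at this
  · exact Filter.Eventually.of_forall fun θ => by positivity

end AVG

theorem avg_holds : StAVG := by
  intro ρ r W K D hr hρ hW hKW hK hD hdz hone
  have hmeas : AEMeasurable (fun p : ℝ × ℂ => ENNReal.ofReal (‖D (circleMap 0 r p.1) p.2‖ ^ 2))
      ((volume.restrict (Ioc (0 : ℝ) (2 * Real.pi))).prod (volume.restrict K)) := by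
    rw [Measure.prod_restrict]
    apply ContinuousOn.aemeasurable _ (measurableSet_Ioc.prod hK)
    apply ENNReal.continuous_ofReal.comp_continuousOn
    apply ContinuousOn.pow
    apply ContinuousOn.norm
    have h1 : (fun p : ℝ × ℂ => D (circleMap 0 r p.1) p.2) =
        (fun p : ℂ × ℂ => D p.1 p.2) ∘ (fun p : ℝ × ℂ => (circleMap 0 r p.1, p.2)) := rfl
    rw [h1]
    apply hD.comp
    · exact (((continuous_circleMap 0 r).comp continuous_fst).prodMk continuous_snd).continuousOn
    · intro p hp
      refine ⟨?_, hKW hp.2⟩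
      simp [circleMap, abs_of_pos hr, hρ]
  rw [lintegral_lintegral_swap hmeas]
  rw [← setLIntegral_const]
  apply setLIntegral_mono' hK
  intro z hz
  exact AVG.one_circle ρ r (fun t => D t z) hr hρ (hdz z (hKW hz)) (hone z (hKW hz))

end Pool.Agent.H713R3.ZA
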