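import Pool.Agent.H713R3.ZA.Defs
import Pool.Agent.Helper540.Holo

/-! # Böttcher's sum (task BSUM, helper97) -/

set_option autoImplicit false

open Topology Filter Metric Set

namespace Pool.Agent.H713R3.ZA

namespace BSUM

variable {V : Type} [NormedAddCommGroup V] [NormedSpace ℂ V]
  {B : Set V} {d : ℕ} {a : ℂ} {R K : ℝ} {f : V → ℂ → ℂ}

/-- the logarithm -/
noncomputable def L (d : ℕ) (a : ℂ) (f : V → ℂ → ℂ) (p : V × ℂ) : ℂ :=
  Complex.log (f p.1 p.2 / (a * p.2 ^ d))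

/-- terms of the series -/
noncomputable def term (d : ℕ) (a : ℂ) (f : V → ℂ → ℂ) (k : ℕ) (p : V × ℂ) : ℂ :=
  ((d : ℂ) ^ (k + 1))⁻¹ * L d a f (p.1, (f p.1)^[k] p.2)

theorem it_ge (hR : 1 ≤ R)
    (hf : ∀ x ∈ B, ∀ z : ℂ, R < ‖z‖ → 2 * ‖z‖ ≤ ‖f x z‖) {x : V} (hx : x ∈ B) {z : ℂ}
    (hz : R < ‖z‖) (k : ℕ) : 2 ^ k * ‖z‖ ≤ ‖(f x)^[k] z‖ := by
  induction k with
  | zero => simp
  | succ k ih =>
    rw [Function.iterate_succ_apply']
    have h1 : (1 : ℝ) ≤ 2 ^ k := one_le_pow₀ (by norm_num)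
    have h2 : R < ‖(f x)^[k] z‖ := by
      refine lt_of_lt_of_le ?_ ih
      nlinarith
    have := hf x hx _ h2
    rw [pow_succ]
    linarith

theorem it_mem (hR : 1 ≤ R)
    (hf : ∀ x ∈ B, ∀ z : ℂ, R < ‖z‖ → 2 * ‖z‖ ≤ ‖f x z‖) {x : V} (hx : x ∈ B) {z : ℂ}
    (hz : R < ‖z‖) (k : ℕ) : R < ‖(f x)^[k] z‖ := by
  have h1 : (1 : ℝ) ≤ 2 ^ k := one_le_pow₀ (by norm_num)
  refine lt_of_lt_of_le ?_ (it_ge hR hf hx hz k)
  nlinarith

theorem it_diff (hR : 1 ≤ R)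
    (hd : DifferentiableOn ℂ (fun p : V × ℂ => f p.1 p.2) (B ×ˢ {z : ℂ | R < ‖z‖}))
    (hf : ∀ x ∈ B, ∀ z : ℂ, R < ‖z‖ → 2 * ‖z‖ ≤ ‖f x z‖) (k : ℕ) :
    DifferentiableOn ℂ (fun p : V × ℂ => (p.1, (f p.1)^[k] p.2)) (B ×ˢ {z : ℂ | R < ‖z‖}) := by
  induction k with
  | zero => exact differentiableOn_id
  | succ k ih =>
    have h1 : DifferentiableOn ℂ (fun p : V × ℂ => f p.1 ((f p.1)^[k] p.2))
        (B ×ˢ {z : ℂ | R < ‖z‖}) := by
      refine hd.comp ih ?_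
      rintro p ⟨h1, h2⟩
      exact ⟨h1, it_mem hR hf h1 h2 k⟩
    simp only [Function.iterate_succ_apply']
    exact differentiableOn_fst.prodMk h1

theorem ratio_bd (hR : 1 ≤ R) (hK : 0 ≤ K) (hKR : 2 * K ≤ R) {x : V} {z : ℂ} (hz : R < ‖z‖)
    (h : ‖f x z / (a * z ^ d) - 1‖ ≤ K / ‖z‖) :
    f x z / (a * z ^ d) ∈ Complex.slitPlane ∧
      ‖L d a f (x, z)‖ ≤ 3 / 2 * (K / ‖z‖) := by
  have hz0 : 0 < ‖z‖ := by linarith
  have h1 : K / ‖z‖ ≤ 1 / 2 := by
    rw [div_le_iff₀ hz0]; linarith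
  have e1 : f x z / (a * z ^ d) = 1 + (f x z / (a * z ^ d) - 1) := by ring
  refine ⟨?_, ?_⟩
  · rw [e1]
    refine Complex.mem_slitPlane_of_norm_lt_one ?_
    linarith
  · unfold L
    simp only
    rw [e1]
    refine (Complex.norm_log_one_add_half_le_self (by linarith)).trans ?_
    linarith

theorem L_diff (hR : 1 ≤ R) (ha : a ≠ 0)
    (hd : DifferentiableOn ℂ (fun p : V × ℂ => f p.1 p.2) (B ×ˢ {z : ℂ | R < ‖z‖}))
    (hs : ∀ x ∈ B, ∀ z : ℂ, R < ‖z‖ → f x z / (a * z ^ d) ∈ Complex.slitPlane) :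
    DifferentiableOn ℂ (L d a f) (B ×ˢ {z : ℂ | R < ‖z‖}) := by
  unfold L
  refine DifferentiableOn.clog ?_ ?_
  · simp only [div_eq_mul_inv]
    refine hd.mul (DifferentiableOn.inv ?_ ?_)
    · exact (differentiableOn_const _).mul (differentiableOn_snd.pow d)
    · rintro p ⟨h1, h2⟩
      have h2' : R < ‖p.2‖ := h2
      have : p.2 ≠ 0 := by
        intro h0
        rw [h0, norm_zero] at h2'
        linarith
      exact mul_ne_zero ha (pow_ne_zero _ this)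
  · rintro p ⟨h1, h2⟩
    exact hs p.1 h1 p.2 h2

end BSUM

open BSUM in
theorem bsum_holds : StBSUM := by
  intro V _ _ _ B d a R K f hB hd2 ha hR hK hKR hdf hf
  have hf1 : ∀ x ∈ B, ∀ z : ℂ, R < ‖z‖ → 2 * ‖z‖ ≤ ‖f x z‖ := fun x hx z hz => (hf x hx z hz).1
  have hrat : ∀ x ∈ B, ∀ z : ℂ, R < ‖z‖ → f x z / (a * z ^ d) ∈ Complex.slitPlane ∧
      ‖L d a f (x, z)‖ ≤ 3 / 2 * (K / ‖z‖) := fun x hx z hz =>
    ratio_bd hR hK hKR hz (hf x hx z hz).2
  have hLd : DifferentiableOn ℂ (L d a f) (B ×ˢ {z : ℂ | R < ‖z‖}) :=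
    L_diff hR ha hdf fun x hx z hz => (hrat x hx z hz).1
  have hd0 : (0 : ℝ) < d := by
    have : (2 : ℝ) ≤ d := by exact_mod_cast hd2
    linarith
  -- term bound
  have hterm : ∀ k : ℕ, ∀ x ∈ B, ∀ z : ℂ, R < ‖z‖ →
      ‖term d a f k (x, z)‖ ≤ 3 / 4 * (K / ‖z‖) * (1 / 4) ^ k := by
    intro k x hx z hz
    have hz0 : 0 < ‖z‖ := by linarith
    have h1 := it_mem hR hf1 hx hz k
    have h2 := it_ge hR hf1 hx hz k
    have h3 := (hrat x hx _ h1).2
    unfold term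
    simp only
    rw [norm_mul, norm_inv, norm_pow, Complex.norm_natCast]
    have h4 : ((d : ℝ) ^ (k + 1))⁻¹ ≤ ((2 : ℝ) ^ (k + 1))⁻¹ := by
      apply inv_anti₀ (by positivity)
      exact pow_le_pow_left₀ (by norm_num) (by exact_mod_cast hd2) _
    have h5 : K / ‖(f x)^[k] z‖ ≤ K / (2 ^ k * ‖z‖) :=
      div_le_div_of_nonneg_left hK (by positivity) h2
    calc ((d : ℝ) ^ (k + 1))⁻¹ * ‖L d a f (x, (f x)^[k] z)‖
        ≤ ((2 : ℝ) ^ (k + 1))⁻¹ * (3 / 2 * (K / (2 ^ k * ‖z‖))) := by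
          gcongr
          exact h3.trans (by gcongr)
      _ = _ := by
          have : (1 / 4 : ℝ) ^ k = ((2 : ℝ) ^ k)⁻¹ * ((2 : ℝ) ^ k)⁻¹ := by
            rw [← mul_inv, ← mul_pow, one_div, inv_pow]; norm_num
          rw [this, pow_succ]
          field_simp
          ring
  have hterm2 : ∀ k : ℕ, ∀ p ∈ B ×ˢ {z : ℂ | R < ‖z‖}, ‖term d a f k p‖ ≤ K * (1 / 4) ^ k := by
    rintro k ⟨x, z⟩ ⟨hx, hz⟩
    have hz' : R < ‖z‖ := hz
    refine (hterm k x hx z hz').trans ?_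
    have : K / ‖z‖ ≤ K := div_le_self hK (by linarith)
    have h4 : (0 : ℝ) ≤ (1 / 4) ^ k := by positivity
    nlinarith
  have hsum4 : Summable fun k : ℕ => K * (1 / 4 : ℝ) ^ k :=
    (summable_geometric_of_lt_one (by norm_num) (by norm_num)).mul_left _
  have hopen : IsOpen (B ×ˢ {z : ℂ | R < ‖z‖}) :=
    hB.prod (isOpen_lt continuous_const continuous_norm)
  have htd : ∀ k, DifferentiableOn ℂ (term d a f k) (B ×ˢ {z : ℂ | R < ‖z‖}) := by
    intro k
    unfold term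
    refine (differentiableOn_const _).mul ?_
    refine hLd.comp (it_diff hR hdf hf1 k) ?_
    rintro p ⟨h1, h2⟩
    exact ⟨h1, it_mem hR hf1 h1 h2 k⟩
  have hsummable : ∀ p ∈ B ×ˢ {z : ℂ | R < ‖z‖}, Summable fun k => term d a f k p :=
    fun p hp => Summable.of_norm_bounded hsum4 fun k => hterm2 k p hp
  refine ⟨fun p => ∑' k, term d a f k p, ?_, ?_⟩
  · intro p hp
    obtain ⟨r, hr, hsub⟩ := Metric.isOpen_iff.1 hopen p hp
    have hU : TendstoUniformlyOn (fun (N : ℕ) (p : V × ℂ) => ∑ k ∈ Finset.range N, term d a f k p)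
        (fun p => ∑' k, term d a f k p) atTop (ball p r) :=
      tendstoUniformlyOn_tsum_nat hsum4 fun k q hq => hterm2 k q (hsub hq)
    have h1 := Helper540.differentiableOn_of_uniform_limit
      (fun N => (DifferentiableOn.fun_sum fun k _ => (htd k).mono hsub)) hU
    exact (h1.differentiableAt (ball_mem_nhds _ (half_pos hr))).differentiableWithinAt
  · intro x hx z hz
    have hz0 : 0 < ‖z‖ := by linarith
    have hfz : R < ‖f x z‖ := by
      have := hf1 x hx z hz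
      linarith
    have hmem : (x, z) ∈ B ×ˢ {z : ℂ | R < ‖z‖} := ⟨hx, hz⟩
    have hmem' : (x, f x z) ∈ B ×ˢ {z : ℂ | R < ‖z‖} := ⟨hx, hfz⟩
    refine ⟨?_, ?_⟩
    · have hg : HasSum (fun k : ℕ => 3 / 4 * (K / ‖z‖) * (1 / 4 : ℝ) ^ k)
          (3 / 4 * (K / ‖z‖) * (1 - 1 / 4)⁻¹) :=
        (hasSum_geometric_of_lt_one (by norm_num) (by norm_num)).mul_left _
      refine (tsum_of_norm_bounded hg fun k => hterm k x hx z hz).trans ?_
      have : 0 ≤ K / ‖z‖ := by positivity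
      rw [mul_div_assoc]
      norm_num
      nlinarith
    · have hdc : (d : ℂ) ≠ 0 := by
        exact_mod_cast (by omega : d ≠ 0)
      have hstep : (d : ℂ) * ∑' k, term d a f k (x, z) =
          L d a f (x, z) + ∑' k, term d a f k (x, f x z) := by
        rw [(hsummable _ hmem).tsum_eq_zero_add, mul_add]
        congr 1
        · unfold term
          simp only [Function.iterate_zero, id_eq, zero_add, pow_one]
          field_simp
        · rw [← tsum_mul_left]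
          congr 1
          ext k
          unfold term
          simp only [Function.iterate_succ_apply]
          rw [pow_succ ((d : ℂ)) (k + 1)]
          field_simp
      have hexpL : Complex.exp (L d a f (x, z)) = f x z / (a * z ^ d) :=
        Complex.exp_log (Complex.slitPlane_ne_zero (hrat x hx z hz).1)
      have hzne : z ≠ 0 := norm_pos_iff.1 hz0
      rw [mul_pow, ← Complex.exp_nat_mul, hstep, Complex.exp_add, hexpL]
      have : a * z ^ d ≠ 0 := mul_ne_zero ha (pow_ne_zero _ hzne)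
      field_simp

end Pool.Agent.H713R3.ZA
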