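import Pool.Agent.H713R3.ZA.Defs

set_option autoImplicit false

open Topology Filter Metric Set

namespace Pool.Agent.H713R3.ZA

namespace FLOW

variable {V : Type} [NormedAddCommGroup V] [NormedSpace ℂ V]

/-- Cauchy estimate for the differential. -/
theorem fder {X : V → V} {x₁ : V} {ρ M : ℝ} (hρ : 0 < ρ)
    (hX : DifferentiableOn ℂ X (ball x₁ (2 * ρ))) (hM : ∀ x ∈ ball x₁ (2 * ρ), ‖X x‖ ≤ M)
    {y : V} (hy : y ∈ ball x₁ ρ) : ‖fderiv ℂ X y‖ ≤ 2 * M / ρ := by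
  have hM0 : 0 ≤ M := (norm_nonneg _).trans (hM x₁ (mem_ball_self (by linarith)))
  have hmem : ∀ v : V, ∀ t : ℂ, ‖t • v‖ < ρ → y + t • v ∈ ball x₁ (2 * ρ) := by
    intro v t ht
    rw [mem_ball, dist_eq_norm] at hy ⊢
    calc ‖y + t • v - x₁‖ = ‖(y - x₁) + t • v‖ := by congr 1; abel
      _ ≤ ‖y - x₁‖ + ‖t • v‖ := norm_add_le _ _
      _ < 2 * ρ := by linarith
  refine ContinuousLinearMap.opNorm_le_bound _ (by positivity) ?_
  intro v
  by_cases hv : v = 0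
  · simp [hv]
  have hv0 : 0 < ‖v‖ := norm_pos_iff.2 hv
  set R : ℝ := ρ / (2 * ‖v‖) with hR
  have hR0 : 0 < R := by positivity
  have hXy : DifferentiableAt ℂ X y :=
    (hX y (by simpa using hmem v 0 (by simpa using hρ))).differentiableAt
      (isOpen_ball.mem_nhds (by simpa using hmem v 0 (by simpa using hρ)))
  have hsub : ∀ t ∈ closedBall (0 : ℂ) R, y + t • v ∈ ball x₁ (2 * ρ) := by
    intro t ht
    apply hmem
    rw [mem_closedBall_zero_iff] at ht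
    rw [norm_smul]
    calc ‖t‖ * ‖v‖ ≤ R * ‖v‖ := by gcongr
      _ = ρ / 2 := by rw [hR]; field_simp
      _ < ρ := by linarith
  have hf : DifferentiableOn ℂ (fun t : ℂ => X (y + t • v)) (closedBall 0 R) := by
    refine hX.comp ?_ hsub
    fun_prop
  have hd : DiffContOnCl ℂ (fun t : ℂ => X (y + t • v)) (ball 0 R) := by
    refine ⟨hf.mono ball_subset_closedBall, ?_⟩
    rw [closure_ball _ hR0.ne']
    exact hf.continuousOn
  have hbd := Complex.norm_deriv_le_of_forall_mem_sphere_norm_le hR0 hd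
    (fun z hz => hM _ (hsub z (sphere_subset_closedBall hz)))
  have hder : deriv (fun t : ℂ => X (y + t • v)) 0 = fderiv ℂ X y v := by
    have h1 : HasDerivAt (fun t : ℂ => y + t • v) v 0 := by
      simpa using ((hasDerivAt_id (0:ℂ)).smul_const v).const_add y
    have h2 : HasFDerivAt X (fderiv ℂ X y) (y + (0:ℂ) • v) := by
      simpa using hXy.hasFDerivAt
    exact (h2.comp_hasDerivAt (0:ℂ) h1).deriv
  rw [hder] at hbd
  refine hbd.trans (le_of_eq ?_)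
  rw [hR]
  field_simp

theorem lip {X : V → V} {x₁ : V} {ρ M : ℝ} (hρ : 0 < ρ)
    (hX : DifferentiableOn ℂ X (ball x₁ (2 * ρ))) (hM : ∀ x ∈ ball x₁ (2 * ρ), ‖X x‖ ≤ M)
    {x y : V} (hx : x ∈ ball x₁ ρ) (hy : y ∈ ball x₁ ρ) :
    ‖X y - X x‖ ≤ 2 * M / ρ * ‖y - x‖ := by
  have hsub : ball x₁ ρ ⊆ ball x₁ (2 * ρ) := ball_subset_ball (by linarith)
  exact (convex_ball x₁ ρ).norm_image_sub_le_of_norm_fderiv_le
    (fun z hz => (hX z (hsub hz)).differentiableAt (isOpen_ball.mem_nhds (hsub hz)))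
    (fun z hz => fder hρ hX hM hz) hx hy

/-- Good approximate solutions. -/
def Good (x : V) (r δ : ℝ) (γ : ℂ → V) : Prop :=
  γ 0 = x ∧ DifferentiableOn ℂ γ (ball 0 r) ∧ ∀ t ∈ ball (0 : ℂ) r, ‖γ t - x‖ ≤ δ

theorem mem_of_good {x x₁ : V} {r ρ : ℝ} (hx : x ∈ ball x₁ (ρ / 2))
    {z : V} (h : ‖z - x‖ ≤ ρ / 4) : z ∈ ball x₁ ρ := by
  rw [mem_ball, dist_eq_norm] at hx ⊢
  have h0 : 0 ≤ ‖z - x‖ := norm_nonneg _
  calc ‖z - x₁‖ = ‖(z - x) + (x - x₁)‖ := by congr 1; abel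
    _ ≤ ‖z - x‖ + ‖x - x₁‖ := norm_add_le _ _
    _ < ρ := by linarith [norm_nonneg (x - x₁)]

theorem step [CompleteSpace V] {X : V → V} {x₁ : V} {ρ M : ℝ} (hρ : 0 < ρ)
    (hX : DifferentiableOn ℂ X (ball x₁ (2 * ρ))) (hM : ∀ x ∈ ball x₁ (2 * ρ), ‖X x‖ ≤ M)
    {x : V} (hx : x ∈ ball x₁ (ρ / 2)) {r : ℝ} (hr : 0 < r) (hMr : M * r ≤ ρ / 4)
    {γ : ℂ → V} (h : Good x r (ρ / 4) γ) :
    ∃ γ' : ℂ → V, Good x r (ρ / 4) γ' ∧ ∀ t ∈ ball (0 : ℂ) r, HasDerivAt γ' (X (γ t)) t := by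
  have hmaps : ∀ t ∈ ball (0 : ℂ) r, γ t ∈ ball x₁ (2 * ρ) := fun t ht =>
    ball_subset_ball (by linarith) (mem_of_good (r := r) hx (h.2.2 t ht))
  have hd : DifferentiableOn ℂ (fun t => X (γ t)) (ball 0 r) := hX.comp h.2.1 hmaps
  obtain ⟨γ', h0, h1⟩ := (hd.isExactOn_ball).with_val_at 0 x
  refine ⟨γ', ⟨h0, fun t ht => (h1 t ht).differentiableAt.differentiableWithinAt, ?_⟩, h1⟩
  intro t ht
  have := (convex_ball (0:ℂ) r).norm_image_sub_le_of_norm_hasDerivWithin_le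
    (fun z hz => (h1 z hz).hasDerivWithinAt) (fun z hz => hM _ (hmaps z hz))
    (mem_ball_self hr) ht
  rw [h0, sub_zero] at this
  have hM0 : 0 ≤ M := (norm_nonneg _).trans (hM x₁ (mem_ball_self (by linarith)))
  have ht' : ‖t‖ ≤ r := (mem_ball_zero_iff.1 ht).le
  calc ‖γ' t - x‖ ≤ M * ‖t‖ := this
    _ ≤ M * r := by gcongr
    _ ≤ ρ / 4 := hMr

theorem loc [CompleteSpace V] {X : V → V} {x₁ : V} {ρ M : ℝ} (hρ : 0 < ρ)
    (hX : DifferentiableOn ℂ X (ball x₁ (2 * ρ))) (hM : ∀ x ∈ ball x₁ (2 * ρ), ‖X x‖ ≤ M)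
    {r : ℝ} (hr : 0 < r) (hMr : M * r ≤ ρ / 4) {x : V} (hx : x ∈ ball x₁ (ρ / 2)) :
    ∃ γ : ℂ → V, γ 0 = x ∧
      ∀ t ∈ ball (0 : ℂ) r, γ t ∈ ball x₁ ρ ∧ HasDerivAt γ (X (γ t)) t := by
  classical
  have hM0 : 0 ≤ M := (norm_nonneg _).trans (hM x₁ (mem_ball_self (by linarith)))
  let S : Type := {γ : ℂ → V // Good x r (ρ / 4) γ}
  have hstep : ∀ γ : S, ∃ γ' : S, ∀ t ∈ ball (0 : ℂ) r, HasDerivAt γ'.1 (X (γ.1 t)) t := by
    intro γ
    obtain ⟨γ', h1, h2⟩ := step hρ hX hM hx hr hMr γ.2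
    exact ⟨⟨γ', h1⟩, h2⟩
  choose F hF using hstep
  let g0 : S := ⟨fun _ => x, rfl, differentiableOn_const _, fun t _ => by simp; positivity⟩
  let g : ℕ → S := fun n => F^[n] g0
  have hg : ∀ n, ∀ t ∈ ball (0 : ℂ) r, HasDerivAt (g (n + 1)).1 (X ((g n).1 t)) t := by
    intro n t ht
    have e : g (n + 1) = F (g n) := Function.iterate_succ_apply' F n g0
    rw [e]
    exact hF (g n) t ht
  have hgm : ∀ n, ∀ t ∈ ball (0 : ℂ) r, (g n).1 t ∈ ball x₁ ρ := fun n t ht =>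
    mem_of_good (r := r) hx ((g n).2.2.2 t ht)
  have hLr : 2 * M / ρ * r ≤ 1 / 2 := by
    rw [div_mul_eq_mul_div, div_le_iff₀ hρ]
    linarith
  have hL0 : 0 ≤ 2 * M / ρ := by positivity
  have hdist : ∀ n, ∀ t ∈ ball (0 : ℂ) r, ‖(g (n + 1)).1 t - (g n).1 t‖ ≤ ρ * (1 / 2) ^ n := by
    intro n
    induction n with
    | zero =>
      intro t ht
      have h1 := (g 1).2.2.2 t ht
      change ‖(g 1).1 t - x‖ ≤ _
      rw [pow_zero, mul_one]
      linarith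
    | succ n ih =>
      intro t ht
      have hder : ∀ z ∈ ball (0:ℂ) r, HasDerivWithinAt
          (fun z => (g (n + 1 + 1)).1 z - (g (n + 1)).1 z)
          (X ((g (n + 1)).1 z) - X ((g n).1 z)) (ball (0:ℂ) r) z := fun z hz =>
        ((hg (n + 1) z hz).sub (hg n z hz)).hasDerivWithinAt
      have hb : ∀ z ∈ ball (0:ℂ) r, ‖X ((g (n + 1)).1 z) - X ((g n).1 z)‖ ≤
          2 * M / ρ * (ρ * (1 / 2) ^ n) := by
        intro z hz
        refine (lip hρ hX hM (hgm n z hz) (hgm (n + 1) z hz)).trans ?_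
        exact mul_le_mul_of_nonneg_left (ih z hz) hL0
      have := (convex_ball (0:ℂ) r).norm_image_sub_le_of_norm_hasDerivWithin_le hder hb
        (mem_ball_self hr) ht
      rw [(g (n + 1 + 1)).2.1, (g (n + 1)).2.1, sub_self, sub_zero, sub_zero] at this
      have ht' : ‖t‖ ≤ r := (mem_ball_zero_iff.1 ht).le
      have hp : 0 ≤ ρ * (1 / 2 : ℝ) ^ n := by positivity
      calc _ ≤ 2 * M / ρ * (ρ * (1 / 2) ^ n) * ‖t‖ := this
        _ ≤ 2 * M / ρ * (ρ * (1 / 2) ^ n) * r := by gcongr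
        _ = (2 * M / ρ * r) * (ρ * (1 / 2) ^ n) := by ring
        _ ≤ 1 / 2 * (ρ * (1 / 2) ^ n) := by gcongr
        _ = ρ * (1 / 2) ^ (n + 1) := by rw [pow_succ]; ring
  let γ : ℂ → V := fun t => limUnder atTop fun n => (g n).1 t
  have hd' : ∀ t ∈ ball (0 : ℂ) r, ∀ n, dist ((g n).1 t) ((g (n + 1)).1 t) ≤ ρ * (1 / 2) ^ n := by
    intro t ht n
    rw [dist_comm, dist_eq_norm]
    exact hdist n t ht
  have hlim : ∀ t ∈ ball (0 : ℂ) r, Tendsto (fun n => (g n).1 t) atTop (𝓝 (γ t)) := by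
    intro t ht
    obtain ⟨y, hy⟩ := cauchySeq_tendsto_of_complete
      (cauchySeq_of_le_geometric (1 / 2) ρ (by norm_num) (hd' t ht))
    have e : γ t = y := hy.limUnder_eq
    rw [e]
    exact hy
  have hconv : ∀ t ∈ ball (0 : ℂ) r, ∀ n, dist ((g n).1 t) (γ t) ≤
      ρ * (1 / 2) ^ n / (1 - 1 / 2) := fun t ht n =>
    dist_le_of_le_geometric_of_tendsto (1 / 2) ρ (by norm_num) (hd' t ht) (hlim t ht) n
  have hγx : ∀ t ∈ ball (0 : ℂ) r, ‖γ t - x‖ ≤ ρ / 4 := by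
    intro t ht
    exact le_of_tendsto ((hlim t ht).sub_const x).norm
      (Eventually.of_forall fun n => (g n).2.2.2 t ht)
  have hγm : ∀ t ∈ ball (0 : ℂ) r, γ t ∈ ball x₁ ρ := fun t ht =>
    mem_of_good (r := r) hx (hγx t ht)
  refine ⟨γ, ?_, fun t ht => ⟨hγm t ht, ?_⟩⟩
  · have h1 := hlim 0 (mem_ball_self hr)
    have h2 : (fun n => (g n).1 0) = fun _ => x := by
      funext n
      exact (g n).2.1
    rw [h2] at h1
    exact tendsto_nhds_unique h1 tendsto_const_nhds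
  · refine hasDerivAt_of_tendstoUniformlyOn (f := fun n => (g (n + 1)).1)
      (f' := fun n t => X ((g n).1 t)) (g' := fun t => X (γ t)) (l := atTop) isOpen_ball ?_
      (Eventually.of_forall fun n z hz => hg n z hz)
      (fun z hz => (hlim z hz).comp (tendsto_add_atTop_nat 1)) ht
    rw [Metric.tendstoUniformlyOn_iff]
    intro ε hε
    have h1 : Tendsto (fun n : ℕ => 2 * M / ρ * (ρ * (1 / 2) ^ n / (1 - 1 / 2))) atTop (𝓝 0) := by
      have h2 : Tendsto (fun n : ℕ => ((1:ℝ) / 2) ^ n) atTop (𝓝 0) :=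
        tendsto_pow_atTop_nhds_zero_of_lt_one (by norm_num) (by norm_num)
      have h3 := ((h2.const_mul ρ).div_const (1 - 1 / 2)).const_mul (2 * M / ρ)
      simpa using h3
    filter_upwards [h1.eventually (gt_mem_nhds hε)] with n hn z hz
    rw [dist_eq_norm]
    refine lt_of_le_of_lt ?_ hn
    refine (lip hρ hX hM (hgm n z hz) (hγm z hz)).trans ?_
    apply mul_le_mul_of_nonneg_left _ hL0
    rw [← dist_eq_norm, dist_comm]
    exact hconv z hz n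

end FLOW

theorem flow_holds : StFLOW := by
  intro V _ _ _ Ω K X hΩ hK hKΩ hX
  haveI : CompleteSpace V := FiniteDimensional.complete ℂ V
  haveI : ProperSpace V := FiniteDimensional.proper ℂ V
  refine hK.induction_on (p := fun S => ∃ r : ℝ, 0 < r ∧ ∀ x ∈ S, ∃ γ : ℂ → V, γ 0 = x ∧
      ∀ t ∈ ball (0 : ℂ) r, γ t ∈ Ω ∧ HasDerivAt γ (X (γ t)) t) ?_ ?_ ?_ ?_
  · exact ⟨1, one_pos, fun x hx => absurd hx (notMem_empty x)⟩
  · rintro s t hst ⟨r, hr, h⟩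
    exact ⟨r, hr, fun x hx => h x (hst hx)⟩
  · rintro s t ⟨r, hr, h⟩ ⟨r', hr', h'⟩
    refine ⟨min r r', lt_min hr hr', ?_⟩
    rintro x (hx | hx)
    · obtain ⟨γ, h1, h2⟩ := h x hx
      exact ⟨γ, h1, fun t ht => h2 t (ball_subset_ball (min_le_left _ _) ht)⟩
    · obtain ⟨γ, h1, h2⟩ := h' x hx
      exact ⟨γ, h1, fun t ht => h2 t (ball_subset_ball (min_le_right _ _) ht)⟩
  · intro x₁ hx₁
    obtain ⟨ε, hε, hball⟩ := Metric.isOpen_iff.1 hΩ x₁ (hKΩ hx₁)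
    set ρ : ℝ := ε / 4 with hρ
    have hρ0 : 0 < ρ := by positivity
    have hsub : closedBall x₁ (2 * ρ) ⊆ Ω :=
      (closedBall_subset_ball (by rw [hρ]; linarith)).trans hball
    obtain ⟨M, hM⟩ := ((isCompact_closedBall x₁ (2 * ρ)).image_of_continuousOn
      (hX.continuousOn.mono hsub)).isBounded.exists_norm_le
    have hM' : ∀ x ∈ ball x₁ (2 * ρ), ‖X x‖ ≤ max M 0 := fun x hx =>
      (hM _ (mem_image_of_mem X (ball_subset_closedBall hx))).trans (le_max_left _ _)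
    have hm0 : 0 ≤ max M 0 := le_max_right _ _
    refine ⟨ball x₁ (ρ / 2), mem_nhdsWithin_of_mem_nhds (ball_mem_nhds _ (by positivity)),
      ρ / (4 * (max M 0 + 1)), by positivity, ?_⟩
    intro x hx
    obtain ⟨γ, h1, h2⟩ := FLOW.loc (M := max M 0) hρ0
      (hX.mono (ball_subset_closedBall.trans hsub)) hM'
      (r := ρ / (4 * (max M 0 + 1))) (by positivity) (by
        rw [mul_div_assoc', div_le_div_iff₀ (by positivity) (by norm_num)]
        nlinarith) hx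
    refine ⟨γ, h1, fun t ht => ⟨?_, (h2 t ht).2⟩⟩
    exact hsub (closedBall_subset_closedBall (by linarith) (ball_subset_closedBall (h2 t ht).1))

end Pool.Agent.H713R3.ZA
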