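import Pool.Agent.H713R3.ZA.Defs
import Pool.Agent.H713R2.AR.AF5

/-!
The area theorem with a quantitative gain for a conjugacy near infinity (task GAIN, by helper790).
-/

set_option autoImplicit false

open Topology Filter Metric Set Polynomial MeasureTheory

namespace Pool.Agent.H713R3.ZA

namespace GAIN

open Pool.Agent.H713R2 Pool.Agent.H713R2.AR

theorem pow_sub_le {M : ℝ} (hM : 0 ≤ M) {u v : ℂ} (hu : ‖u‖ ≤ M) (hv : ‖v‖ ≤ M) (j : ℕ) :
    ‖u ^ j - v ^ j‖ ≤ j * M ^ (j - 1) * ‖u - v‖ := by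
  induction j with
  | zero => simp
  | succ j ih =>
    have h1 : u ^ (j + 1) - v ^ (j + 1) = u * (u ^ j - v ^ j) + (u - v) * v ^ j := by ring
    have h2 : ‖v ^ j‖ ≤ M ^ j := by
      rw [norm_pow]; exact pow_le_pow_left₀ (norm_nonneg _) hv j
    have h3 : M * ((j : ℝ) * M ^ (j - 1)) = j * M ^ j := by
      rcases Nat.eq_zero_or_pos j with h | h
      · subst h; simp
      · have : M ^ j = M * M ^ (j - 1) := by
          rw [← pow_succ']; congr 1; omega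
        rw [this]; ring
    calc ‖u ^ (j + 1) - v ^ (j + 1)‖ ≤ ‖u‖ * ‖u ^ j - v ^ j‖ + ‖u - v‖ * ‖v ^ j‖ := by
          rw [h1]
          refine (norm_add_le _ _).trans ?_
          rw [norm_mul, norm_mul]
      _ ≤ M * (j * M ^ (j - 1) * ‖u - v‖) + ‖u - v‖ * M ^ j :=
          add_le_add (mul_le_mul hu ih (norm_nonneg _) hM)
            (mul_le_mul_of_nonneg_left h2 (norm_nonneg _))
      _ = (M * (j * M ^ (j - 1))) * ‖u - v‖ + ‖u - v‖ * M ^ j := by ring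
      _ = ((j + 1 : ℕ) : ℝ) * M ^ (j + 1 - 1) * ‖u - v‖ := by
          rw [h3, Nat.add_sub_cancel]; push_cast; ring

theorem eval_sub_le {d : ℕ} {A₀ M : ℝ} (hM : 0 ≤ M) {q : ℂ[X]}
    (hq : q.natDegree ≤ d) (hqA : ∀ j, ‖q.coeff j‖ ≤ A₀) {u v : ℂ} (hu : ‖u‖ ≤ M)
    (hv : ‖v‖ ≤ M) : ‖q.eval u - q.eval v‖ ≤
      (∑ j ∈ Finset.range (d + 1), A₀ * (j * M ^ (j - 1))) * ‖u - v‖ := by
  have hA : 0 ≤ A₀ := (norm_nonneg _).trans (hqA 0)
  rw [eval_eq_sum_range' (Nat.lt_succ_of_le hq), eval_eq_sum_range' (Nat.lt_succ_of_le hq),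
    ← Finset.sum_sub_distrib, Finset.sum_mul]
  refine (norm_sum_le _ _).trans (Finset.sum_le_sum (fun j _ => ?_))
  rw [← mul_sub, norm_mul]
  calc ‖q.coeff j‖ * ‖u ^ j - v ^ j‖ ≤ A₀ * (j * M ^ (j - 1) * ‖u - v‖) :=
        mul_le_mul (hqA j) (pow_sub_le hM hu hv j) (norm_nonneg _) hA
    _ = _ := by ring

theorem coeff_le {D : ℂ[X]} {S B : ℝ} (hS : 1 ≤ S) (h : ∀ z : ℂ, ‖z‖ = S → ‖D.eval z‖ ≤ B)
    (j : ℕ) : ‖D.coeff j‖ ≤ B := by
  have hS0 : 0 < S := by linarith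
  have hB : 0 ≤ B := (norm_nonneg _).trans (h (S : ℂ) (by
    rw [Complex.norm_real, Real.norm_eq_abs, abs_of_pos hS0]))
  have h1 : (fun k => D.coeff k) = tc (fun z => D.eval z) := by
    apply tc_unique one_pos D.differentiable.differentiableOn
    filter_upwards with x
    have h2 : D.eval x = ∑ k ∈ Finset.range (D.natDegree + 1), D.coeff k * x ^ k :=
      eval_eq_sum_range x
    rw [h2]
    apply hasSum_sum_of_ne_finset_zero
    intro k hk
    rw [coeff_eq_zero_of_natDegree_lt, zero_mul]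
    simpa using hk
  have h3 : D.coeff j = ((j.factorial : ℂ))⁻¹ * iteratedDeriv j (fun z => D.eval z) 0 :=
    congrFun h1 j
  have h4 := Complex.norm_iteratedDeriv_le_of_forall_mem_sphere_norm_le (c := 0) (R := S) (C := B)
    (f := fun z => D.eval z) j hS0 D.differentiable.diffContOnCl (by
      intro z hz
      exact h z (by simpa using hz))
  have hf : (0 : ℝ) < j.factorial := by exact_mod_cast j.factorial_pos
  rw [h3, norm_mul, norm_inv, Complex.norm_natCast]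
  calc (j.factorial : ℝ)⁻¹ * ‖iteratedDeriv j (fun z => D.eval z) 0‖
      ≤ (j.factorial : ℝ)⁻¹ * (j.factorial * B / S ^ j) :=
        mul_le_mul_of_nonneg_left h4 (by positivity)
    _ = B / S ^ j := by field_simp
    _ ≤ B := div_le_self hB (one_le_pow₀ hS)

theorem taylor_pred {d : ℕ} (hd : 2 ≤ d) {q : ℂ[X]} (hq : q.natDegree ≤ d) (c : ℂ) :
    (taylor c q).coeff (d - 1) = q.coeff (d - 1) + d * q.coeff d * c := by
  obtain ⟨n, rfl⟩ : ∃ n, d = n + 1 := ⟨d - 1, by omega⟩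
  rw [Nat.add_sub_cancel, taylor_coeff]
  have h1 : (hasseDeriv n q).natDegree < 2 := by
    have := natDegree_hasseDeriv_le q n
    omega
  rw [eval_eq_sum_range' h1, Finset.sum_range_succ, Finset.sum_range_one, hasseDeriv_coeff,
    hasseDeriv_coeff]
  simp only [zero_add, Nat.choose_self, pow_zero, mul_one, pow_one, Nat.cast_one, one_mul]
  have h2 : (1 + n).choose n = n + 1 := by
    rw [add_comm 1 n]; exact Nat.choose_succ_self_right n
  rw [h2, add_comm 1 n]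

/-- the function at the origin -/
noncomputable def gg (Φ : ℂ → ℂ) (x : ℂ) : ℂ := if x = 0 then 1 else x * Φ x⁻¹

theorem gg_of_ne {Φ : ℂ → ℂ} {x : ℂ} (h : x ≠ 0) : gg Φ x = x * Φ x⁻¹ := if_neg h

theorem isExt {Φ : ℂ → ℂ} {R C : ℝ} (hR : 1 ≤ R)
    (hd : DifferentiableOn ℂ Φ {z : ℂ | R < ‖z‖}) (hi : InjOn Φ {z : ℂ | R < ‖z‖})
    (hC : ∀ z : ℂ, R < ‖z‖ → ‖Φ z - z‖ ≤ C) : IsExt R⁻¹ (gg Φ) := by
  have hR0 : 0 < R := by linarith
  have hinv : ∀ x ∈ ball (0 : ℂ) R⁻¹, x ≠ 0 → R < ‖x⁻¹‖ := by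
    intro x hx hx0
    rw [mem_ball_zero_iff] at hx
    rw [norm_inv]
    exact (lt_inv_comm₀ (norm_pos_iff.2 hx0) hR0).1 hx
  refine ⟨?_, by simp [gg], ?_⟩
  · have hs : ball (0 : ℂ) R⁻¹ ∈ 𝓝 (0 : ℂ) := ball_mem_nhds _ (inv_pos.2 hR0)
    rw [← Complex.differentiableOn_compl_singleton_and_continuousAt_iff hs]
    constructor
    · have h1 : DifferentiableOn ℂ (fun x => x * Φ x⁻¹) (ball (0 : ℂ) R⁻¹ \ {0}) := by
        apply differentiableOn_id.mul
        apply hd.comp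
        · intro x hx
          exact (differentiableAt_inv hx.2).differentiableWithinAt
        · intro x hx
          exact hinv x hx.1 hx.2
      apply h1.congr
      intro x hx
      exact gg_of_ne hx.2
    · have hg0 : gg Φ 0 = 1 := by simp [gg]
      rw [Metric.continuousAt_iff]
      intro ε hε
      have hC0 : 0 < |C| + 1 := by positivity
      refine ⟨min R⁻¹ (ε / (|C| + 1)), lt_min (inv_pos.2 hR0) (by positivity), fun x hx => ?_⟩
      rw [hg0, dist_eq_norm]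
      by_cases hx0 : x = 0
      · subst hx0; rw [hg0]; simpa using hε
      · have hxb : x ∈ ball (0 : ℂ) R⁻¹ := lt_of_lt_of_le hx (min_le_left _ _)
        have hx2 : ‖x‖ < ε / (|C| + 1) := by
          have := lt_of_lt_of_le hx (min_le_right _ _)
          rwa [dist_zero_right] at this
        rw [gg_of_ne hx0]
        have h1 : x * Φ x⁻¹ - 1 = x * (Φ x⁻¹ - x⁻¹) := by field_simp
        rw [h1, norm_mul]
        have h2 := hC _ (hinv x hxb hx0)
        calc ‖x‖ * ‖Φ x⁻¹ - x⁻¹‖ ≤ ‖x‖ * (|C| + 1) := by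
              apply mul_le_mul_of_nonneg_left _ (norm_nonneg _)
              linarith [le_abs_self C]
          _ < ε := by rwa [lt_div_iff₀ hC0] at hx2
  · intro x hx y hy hx0 hy0 hxy
    rw [gg_of_ne hx0, gg_of_ne hy0, ← mul_assoc, ← mul_assoc, inv_mul_cancel₀ hx0,
      inv_mul_cancel₀ hy0, one_mul, one_mul] at hxy
    exact inv_injective (hi (hinv x hx hx0) (hinv y hy hy0) hxy)

theorem UU_eq {Φ : ℂ → ℂ} {S : ℝ} (hS : 0 < S) :
    UU (gg Φ) S⁻¹ = Φ '' {z : ℂ | S < ‖z‖} := by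
  ext w
  simp only [UU, mem_image, mem_ofPred_eq]
  constructor
  · rintro ⟨x, ⟨hx0, hx⟩, rfl⟩
    refine ⟨x⁻¹, ?_, ?_⟩
    · rw [norm_inv]
      exact (lt_inv_comm₀ (norm_pos_iff.2 hx0) hS).1 hx
    · rw [gg_of_ne hx0, ← mul_assoc, inv_mul_cancel₀ hx0, one_mul]
  · rintro ⟨z, hz, rfl⟩
    have hz0 : z ≠ 0 := by
      rintro rfl
      rw [norm_zero] at hz
      linarith
    have hzi : z⁻¹ ≠ 0 := inv_ne_zero hz0
    refine ⟨z⁻¹, ⟨hzi, ?_⟩, ?_⟩
    · rw [norm_inv]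
      exact (inv_lt_inv₀ (norm_pos_iff.2 hz0) hS).2 hz
    · rw [gg_of_ne hzi, ← mul_assoc, inv_mul_cancel₀ hzi, one_mul, inv_inv]

/-- Area theorem: area of the complement and expansion of `Φ`. -/
theorem area {Φ : ℂ → ℂ} {R C S : ℝ} (hR : 1 ≤ R) (hS : R < S)
    (hd : DifferentiableOn ℂ Φ {z : ℂ | R < ‖z‖}) (hi : InjOn Φ {z : ℂ | R < ‖z‖})
    (hC : ∀ z : ℂ, R < ‖z‖ → ‖Φ z - z‖ ≤ C) :
    ∃ (σ : ℝ) (c : ℂ), 0 ≤ σ ∧ σ ≤ 1 ∧
      volume (Φ '' {z : ℂ | S < ‖z‖})ᶜ = ENNReal.ofReal (Real.pi * S ^ 2 * (1 - σ)) ∧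
      ∀ z : ℂ, 2 * S ≤ ‖z‖ → ‖Φ z - z - c‖ ≤ S * Real.sqrt σ := by
  have hR0 : 0 < R := by linarith
  have hS0 : 0 < S := by linarith
  have hext := isExt hR hd hi hC
  have hρ : 0 < S⁻¹ := inv_pos.2 hS0
  have hρR : S⁻¹ < R⁻¹ := (inv_lt_inv₀ hS0 hR0).2 hS
  obtain ⟨hsum, hint⟩ := area_formula hρ hρR hext (Q := X) (D := 1) (H := gg Φ) hext.diff (by
    intro x _ hx0
    rw [eval_X, pow_one, ← mul_assoc, mul_inv_cancel₀ hx0, one_mul])
  have hone : (fun z : ℂ => ‖(derivative (X : ℂ[X])).eval z‖ ^ 2) = fun _ => (1 : ℝ) := by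
    funext z; simp
  rw [hone] at hsum hint
  have hfin : volume (UU (gg Φ) S⁻¹)ᶜ < ⊤ := by
    rw [integrableOn_const_iff] at hint
    rcases hint with h | h
    · exact absurd h (by simp)
    · exact h
  set V : ℝ := (volume (UU (gg Φ) S⁻¹)ᶜ).toReal with hV
  have hVint : ∫ _ in (UU (gg Φ) S⁻¹)ᶜ, (1 : ℝ) = V := by
    rw [setIntegral_const, smul_eq_mul, mul_one]
    rfl
  rw [hVint] at hsum
  have h2 := (hasSum_nat_add_iff' 2).2 hsum
  rw [Finset.sum_range_succ, Finset.sum_range_one] at h2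
  have e0 : tc (gg Φ) 0 = 1 := by rw [tc_zero]; exact hext.zero
  rw [e0] at h2
  simp only [Nat.cast_one, Nat.cast_zero, sub_zero, norm_one, one_pow, mul_zero, pow_zero, mul_one,
    sub_self, zero_mul, add_zero] at h2
  have h3 : HasSum (fun k : ℕ => ((k : ℝ) + 1) * (‖tc (gg Φ) (k + 2)‖ ^ 2 * S⁻¹ ^ (2 * (k + 2))))
      (1 - S⁻¹ ^ (2 * 1) / Real.pi * V) := by
    have h4 := h2.neg
    have e1 : -(S⁻¹ ^ (2 * 1) / Real.pi * V - 1) = 1 - S⁻¹ ^ (2 * 1) / Real.pi * V := by ring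
    rw [e1] at h4
    refine h4.congr_fun ?_
    intro k
    push_cast
    ring
  set σ : ℝ := 1 - S⁻¹ ^ (2 * 1) / Real.pi * V with hσ
  have hterm : ∀ k : ℕ, 0 ≤ ((k : ℝ) + 1) * (‖tc (gg Φ) (k + 2)‖ ^ 2 * S⁻¹ ^ (2 * (k + 2))) :=
    fun k => by positivity
  have hσ0 : 0 ≤ σ := h3.nonneg hterm
  have hV0 : 0 ≤ V := ENNReal.toReal_nonneg
  have hσ1 : σ ≤ 1 := by
    have : 0 ≤ S⁻¹ ^ (2 * 1) / Real.pi * V := by positivity
    rw [hσ]; linarith
  have hVeq : V = Real.pi * S ^ 2 * (1 - σ) := by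
    rw [hσ]
    have hS2 : S ^ 2 * S⁻¹ ^ 2 = 1 := by rw [← mul_pow, mul_inv_cancel₀ hS0.ne', one_pow]
    have hpi : Real.pi / Real.pi = 1 := div_self Real.pi_ne_zero
    calc V = (S ^ 2 * S⁻¹ ^ 2) * V * (Real.pi / Real.pi) := by rw [hS2, hpi, one_mul, mul_one]
      _ = _ := by ring
  refine ⟨σ, tc (gg Φ) 1, hσ0, hσ1, ?_, ?_⟩
  · rw [← UU_eq hS0, ← hVeq, hV, ENNReal.ofReal_toReal hfin.ne]
  · intro z hz
    have hz0' : 0 < ‖z‖ := by linarith
    have hz0 : z ≠ 0 := norm_pos_iff.1 hz0'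
    have hzi : z⁻¹ ≠ 0 := inv_ne_zero hz0
    have hxn : ‖z⁻¹‖ ≤ S⁻¹ / 2 := by
      rw [norm_inv]
      have : S⁻¹ / 2 = (2 * S)⁻¹ := by rw [mul_inv]; ring
      rw [this]
      exact inv_anti₀ (by positivity) hz
    have hxb : z⁻¹ ∈ ball (0 : ℂ) R⁻¹ := by
      rw [mem_ball_zero_iff]
      linarith
    have h5 := hasSum_tc hext.diff hxb
    have h6 := (hasSum_nat_add_iff' 2).2 h5
    rw [Finset.sum_range_succ, Finset.sum_range_one, e0, gg_of_ne hzi, inv_inv] at h6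
    have h7 := h6.mul_left z
    have e2 : z * (z⁻¹ * Φ z - (1 * z⁻¹ ^ 0 + tc (gg Φ) 1 * z⁻¹ ^ 1)) = Φ z - z - tc (gg Φ) 1 := by
      field_simp
      ring
    rw [e2] at h7
    rw [← h7.tsum_eq]
    have hle : ∀ k : ℕ, ‖z * (tc (gg Φ) (k + 2) * z⁻¹ ^ (k + 2))‖ ≤
        (S * Real.sqrt σ) * ((1 / 2 : ℝ) / 2 ^ k) := by
      intro k
      have e3 : z * (tc (gg Φ) (k + 2) * z⁻¹ ^ (k + 2)) = tc (gg Φ) (k + 2) * z⁻¹ ^ (k + 1) := by
        rw [pow_succ z⁻¹ (k + 1)]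
        field_simp
      rw [e3, norm_mul, norm_pow]
      have h8 : ‖tc (gg Φ) (k + 2)‖ * S⁻¹ ^ (k + 2) ≤ Real.sqrt σ := by
        apply Real.le_sqrt_of_sq_le
        have h9 := le_hasSum h3 k (fun j _ => hterm j)
        have h10 : 0 ≤ ‖tc (gg Φ) (k + 2)‖ ^ 2 * S⁻¹ ^ (2 * (k + 2)) := by positivity
        have h11 : (‖tc (gg Φ) (k + 2)‖ * S⁻¹ ^ (k + 2)) ^ 2 =
            ‖tc (gg Φ) (k + 2)‖ ^ 2 * S⁻¹ ^ (2 * (k + 2)) := by
          rw [mul_pow, ← pow_mul, mul_comm (k + 2) 2]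
        rw [h11]
        have hk0 : (0 : ℝ) ≤ k := Nat.cast_nonneg k
        nlinarith
      calc ‖tc (gg Φ) (k + 2)‖ * ‖z⁻¹‖ ^ (k + 1)
          ≤ ‖tc (gg Φ) (k + 2)‖ * (S⁻¹ / 2) ^ (k + 1) :=
            mul_le_mul_of_nonneg_left (pow_le_pow_left₀ (norm_nonneg _) hxn _) (norm_nonneg _)
        _ = S * (‖tc (gg Φ) (k + 2)‖ * S⁻¹ ^ (k + 2)) * ((1 / 2 : ℝ) / 2 ^ k) := by
            rw [div_pow, pow_succ S⁻¹ (k + 1), pow_succ (2 : ℝ) k]
            field_simp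
        _ ≤ S * Real.sqrt σ * ((1 / 2 : ℝ) / 2 ^ k) := by
            apply mul_le_mul_of_nonneg_right _ (by positivity)
            exact mul_le_mul_of_nonneg_left h8 hS0.le
    have hgeo : HasSum (fun k : ℕ => (S * Real.sqrt σ) * ((1 / 2 : ℝ) / 2 ^ k))
        (S * Real.sqrt σ * 1) := by
      apply HasSum.mul_left
      exact hasSum_geometric_two' 1
    have := tsum_of_norm_bounded hgeo hle
    rwa [mul_one] at this

theorem norm_eval_ge {d : ℕ} {a : ℂ} {A₀ : ℝ} (hd : 2 ≤ d) {p : ℂ[X]} (hp : p.natDegree ≤ d)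
    (ha : p.coeff d = a) (hpA : ∀ j, ‖p.coeff j‖ ≤ A₀) {z : ℂ} (hz : 1 ≤ ‖z‖)
    (hz2 : 2 + A₀ * d ≤ ‖a‖ * ‖z‖) : 2 * ‖z‖ ≤ ‖p.eval z‖ := by
  have hA : 0 ≤ A₀ := (norm_nonneg _).trans (hpA 0)
  rw [eval_eq_sum_range' (Nat.lt_succ_of_le hp), Finset.sum_range_succ, ha]
  have h1 : ‖∑ j ∈ Finset.range d, p.coeff j * z ^ j‖ ≤ A₀ * d * ‖z‖ ^ (d - 1) := by
    refine (norm_sum_le _ _).trans ?_
    calc ∑ j ∈ Finset.range d, ‖p.coeff j * z ^ j‖
        ≤ ∑ j ∈ Finset.range d, A₀ * ‖z‖ ^ (d - 1) := by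
          apply Finset.sum_le_sum
          intro j hj
          rw [norm_mul, norm_pow]
          have := Finset.mem_range.1 hj
          exact mul_le_mul (hpA j) (pow_le_pow_right₀ hz (by omega)) (by positivity) hA
      _ = A₀ * d * ‖z‖ ^ (d - 1) := by
          rw [Finset.sum_const, Finset.card_range, nsmul_eq_mul]; ring
  have h2 : ‖a * z ^ d‖ = ‖a‖ * ‖z‖ * ‖z‖ ^ (d - 1) := by
    rw [norm_mul, norm_pow, mul_assoc, ← pow_succ']
    congr 2
    omega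
  have h3 := norm_sub_norm_le (a * z ^ d) (-∑ j ∈ Finset.range d, p.coeff j * z ^ j)
  rw [norm_neg, sub_neg_eq_add, add_comm (a * z ^ d)] at h3
  have h4 : ‖z‖ ≤ ‖z‖ ^ (d - 1) := le_self_pow₀ hz (by omega)
  have h5 : 0 ≤ ‖z‖ ^ (d - 1) := by positivity
  nlinarith

/-- the difference of the polynomials on the circle of radius `2 S` -/
theorem key {d : ℕ} {a : ℂ} {A₀ R C S : ℝ} (hd : 2 ≤ d) (ha : a ≠ 0) (hR : 1 ≤ R) (hC0 : 0 ≤ C)
    (hRS : R < S) (hS2 : 2 + A₀ * d ≤ ‖a‖ * S) {p q : ℂ[X]} {Φ : ℂ → ℂ}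
    (hp : p.natDegree ≤ d) (hq : q.natDegree ≤ d) (hpa : p.coeff d = a) (hqa : q.coeff d = a)
    (hpq : p.coeff (d - 1) = q.coeff (d - 1)) (hpA : ∀ j, ‖p.coeff j‖ ≤ A₀)
    (hqA : ∀ j, ‖q.coeff j‖ ≤ A₀) (hC : ∀ z : ℂ, R < ‖z‖ → ‖Φ z - z‖ ≤ C)
    (hconj : ∀ z : ℂ, R < ‖z‖ → R < ‖p.eval z‖ → q.eval (Φ z) = Φ (p.eval z)) {c : ℂ} {s : ℝ}
    (hs0 : 0 ≤ s) (hs1 : s ≤ 1) (hh : ∀ z : ℂ, 2 * S ≤ ‖z‖ → ‖Φ z - z - c‖ ≤ S * s) {L : ℝ}
    (hL : L = ∑ j ∈ Finset.range (d + 1), A₀ * (j * (4 * S + C) ^ (j - 1))) (j : ℕ) :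
    ‖q.coeff j - p.coeff j‖ ≤ (L + 1) * S * ((L + 1) / ‖a‖ + 1) * s := by
  have hA : 0 ≤ A₀ := (norm_nonneg _).trans (hpA 0)
  have hS0 : 0 < S := by linarith
  have hS1 : 1 ≤ S := by linarith
  have hS21 : 1 ≤ 2 * S := by linarith
  have ha0 : 0 < ‖a‖ := norm_pos_iff.2 ha
  have hL0 : 0 ≤ L := by
    rw [hL]
    exact Finset.sum_nonneg (fun j _ => by positivity)
  have hSs : S * s ≤ S := mul_le_of_le_one_right hS0.le hs1
  -- the bound of `c`
  have hcb : ‖c‖ ≤ C + S := by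
    have hz : ‖((2 * S : ℝ) : ℂ)‖ = 2 * S := by
      rw [Complex.norm_real, Real.norm_eq_abs, abs_of_pos (by linarith)]
    have h1 := hh ((2 * S : ℝ) : ℂ) hz.ge
    have h2 := hC ((2 * S : ℝ) : ℂ) (by rw [hz]; linarith)
    have h3 : c = (Φ ((2 * S : ℝ) : ℂ) - ((2 * S : ℝ) : ℂ)) -
      (Φ ((2 * S : ℝ) : ℂ) - ((2 * S : ℝ) : ℂ) - c) := by ring
    rw [h3]
    refine (norm_sub_le _ _).trans ?_
    linarith
  have hM : 0 ≤ 4 * S + C := by linarith
  -- the difference on the circle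
  have hD : ∀ z : ℂ, ‖z‖ = 2 * S → ‖(taylor c q - Polynomial.C c - p).eval z‖ ≤ (L + 1) * (S * s) := by
    intro z hz
    have hz1 : R < ‖z‖ := by rw [hz]; linarith
    have hpz : 2 * ‖z‖ ≤ ‖p.eval z‖ := norm_eval_ge hd hp hpa hpA (by rw [hz]; linarith) (by
      rw [hz]; nlinarith)
    have h1 := hconj z hz1 (by linarith)
    have h2 := hh z hz.ge
    have h3 := hh (p.eval z) (by rw [hz] at hpz; linarith)
    have h4 : (taylor c q - Polynomial.C c - p).eval z =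
        (q.eval (z + c) - q.eval (Φ z)) + (Φ (p.eval z) - p.eval z - c) := by
      rw [eval_sub, eval_sub, taylor_eval, eval_C, h1]
      ring
    rw [h4]
    refine (norm_add_le _ _).trans ?_
    have h5 : ‖z + c‖ ≤ 4 * S + C := by
      refine (norm_add_le _ _).trans ?_
      linarith
    have h6 : ‖Φ z‖ ≤ 4 * S + C := by
      have e : Φ z = (Φ z - z) + z := by ring
      rw [e]
      refine (norm_add_le _ _).trans ?_
      have := hC z hz1
      linarith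
    have h7 := eval_sub_le hM hq hqA h5 h6
    rw [← hL] at h7
    have h8 : ‖z + c - Φ z‖ ≤ S * s := by
      have e : z + c - Φ z = -(Φ z - z - c) := by ring
      rw [e, norm_neg]
      exact h2
    have h9 : L * ‖z + c - Φ z‖ ≤ L * (S * s) := mul_le_mul_of_nonneg_left h8 hL0
    linarith
  have hDj := coeff_le hS21 hD
  -- the constant `c`
  have hc : ‖c‖ ≤ (L + 1) * (S * s) / ‖a‖ := by
    have h1 := hDj (d - 1)
    have h2 : (taylor c q - Polynomial.C c - p).coeff (d - 1) = d * a * c := by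
      rw [coeff_sub, coeff_sub, taylor_pred hd hq, hqa, hpq, coeff_C_of_ne_zero (show d - 1 ≠ 0 by omega)]
      ring
    rw [h2, norm_mul, norm_mul, Complex.norm_natCast] at h1
    rw [le_div_iff₀ ha0]
    have h3 : (1 : ℝ) ≤ d := by exact_mod_cast (by omega : 1 ≤ d)
    have h4 : 0 ≤ ‖a‖ * ‖c‖ := by positivity
    nlinarith
  -- comparison of `q` with its translate
  have hE : ∀ z : ℂ, ‖z‖ = 2 * S → ‖(taylor c q - Polynomial.C c - q).eval z‖ ≤ (L + 1) * ‖c‖ := by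
    intro z hz
    have h4 : (taylor c q - Polynomial.C c - q).eval z = (q.eval (z + c) - q.eval z) + (-c) := by
      rw [eval_sub, eval_sub, taylor_eval, eval_C]
      ring
    rw [h4]
    refine (norm_add_le _ _).trans ?_
    have h5 : ‖z + c‖ ≤ 4 * S + C := by
      refine (norm_add_le _ _).trans ?_
      linarith
    have h6 : ‖z‖ ≤ 4 * S + C := by linarith
    have h7 := eval_sub_le hM hq hqA h5 h6
    rw [← hL] at h7
    have e : z + c - z = c := by ring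
    rw [e] at h7
    rw [norm_neg]
    linarith
  have hEj := coeff_le hS21 hE
  have e : q.coeff j - p.coeff j = (taylor c q - Polynomial.C c - p).coeff j -
      (taylor c q - Polynomial.C c - q).coeff j := by
    simp only [coeff_sub]
    ring
  rw [e]
  refine (norm_sub_le _ _).trans ?_
  have h1 := hDj j
  have h2 := hEj j
  have h3 : (L + 1) * ‖c‖ ≤ (L + 1) * ((L + 1) * (S * s) / ‖a‖) :=
    mul_le_mul_of_nonneg_left hc (by linarith)
  have h4 : (L + 1) * S * ((L + 1) / ‖a‖ + 1) * s =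
      (L + 1) * (S * s) + (L + 1) * ((L + 1) * (S * s) / ‖a‖) := by
    field_simp
    ring
  rw [h4]
  linarith

end GAIN

open GAIN in
/-- Area theorem with a quantitative gain for a conjugacy near infinity between two polynomials. -/
theorem gain_holds : StGAIN := by
  intro d a A₀ R C hd ha hA hR hC0
  have ha0 : 0 < ‖a‖ := norm_pos_iff.2 ha
  refine ⟨max (R + 1) ((2 + A₀ * d) / ‖a‖), lt_of_lt_of_le (by linarith) (le_max_left _ _), ?_⟩
  intro S hS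
  have hRS : R < S := by
    have := (le_max_left _ _).trans hS
    linarith
  have hS2 : 2 + A₀ * d ≤ ‖a‖ * S := by
    have := (le_max_right _ _).trans hS
    rw [div_le_iff₀ ha0] at this
    linarith
  have hS0 : 0 < S := by linarith
  set L : ℝ := ∑ j ∈ Finset.range (d + 1), A₀ * (j * (4 * S + C) ^ (j - 1)) with hL
  have hL0 : 0 ≤ L := Finset.sum_nonneg (fun j _ => by positivity)
  set C₄ : ℝ := (L + 1) * S * ((L + 1) / ‖a‖ + 1) with hC₄
  have hC₄0 : 0 ≤ C₄ := by positivity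
  refine ⟨Real.pi * S ^ 2 / ((d + 1) * C₄ ^ 2 + 1), by positivity, ?_⟩
  intro p q Φ hp hq hpa hqa hpq hpA hqA hΦ hinj hC hconj
  obtain ⟨σ, c, hσ0, hσ1, hvol, hexp⟩ := area hR hRS hΦ hinj hC
  rw [hvol]
  apply ENNReal.ofReal_le_ofReal
  have hs0 : 0 ≤ Real.sqrt σ := Real.sqrt_nonneg _
  have hs1 : Real.sqrt σ ≤ 1 := by
    rw [← Real.sqrt_one]; exact Real.sqrt_le_sqrt hσ1
  have hkey := key hd ha hR hC0 hRS hS2 hp hq hpa hqa hpq hpA hqA hC hconj hs0 hs1 hexp hL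
  have hsum : ∑ j ∈ Finset.range (d + 1), ‖q.coeff j - p.coeff j‖ ^ 2 ≤
      (d + 1) * C₄ ^ 2 * σ := by
    calc ∑ j ∈ Finset.range (d + 1), ‖q.coeff j - p.coeff j‖ ^ 2
        ≤ ∑ j ∈ Finset.range (d + 1), C₄ ^ 2 * σ := by
          apply Finset.sum_le_sum
          intro j _
          have h1 := pow_le_pow_left₀ (norm_nonneg _) (hkey j) 2
          rw [mul_pow, Real.sq_sqrt hσ0] at h1
          exact h1
      _ = (d + 1) * C₄ ^ 2 * σ := by
          rw [Finset.sum_const, Finset.card_range, nsmul_eq_mul]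
          push_cast
          ring
  have hK : 0 < (d + 1) * C₄ ^ 2 + 1 := by positivity
  have h1 : Real.pi * S ^ 2 / ((d + 1) * C₄ ^ 2 + 1) *
      ∑ j ∈ Finset.range (d + 1), ‖q.coeff j - p.coeff j‖ ^ 2 ≤ Real.pi * S ^ 2 * σ := by
    have hpS : 0 ≤ Real.pi * S ^ 2 := by positivity
    calc Real.pi * S ^ 2 / ((d + 1) * C₄ ^ 2 + 1) *
        ∑ j ∈ Finset.range (d + 1), ‖q.coeff j - p.coeff j‖ ^ 2
        ≤ Real.pi * S ^ 2 / ((d + 1) * C₄ ^ 2 + 1) * ((d + 1) * C₄ ^ 2 * σ) :=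
          mul_le_mul_of_nonneg_left hsum (by positivity)
      _ ≤ Real.pi * S ^ 2 / ((d + 1) * C₄ ^ 2 + 1) * (((d + 1) * C₄ ^ 2 + 1) * σ) := by
          apply mul_le_mul_of_nonneg_left _ (by positivity)
          linarith
      _ = Real.pi * S ^ 2 * σ := by
          field_simp
  nlinarith

end Pool.Agent.H713R3.ZA
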