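import Pool.Agent.H713R3.ZA.Defs

/-! Identity theorem in several variables (task IDEN, helper92). -/

set_option autoImplicit false

open Topology Filter Metric Set Polynomial MeasureTheory

namespace Pool.Agent.H713R3.ZA

namespace IDEN

theorem ball_zero {V : Type} [NormedAddCommGroup V] [NormedSpace ℂ V] (f : V → ℂ) (x y : V)
    (r : ℝ) (hf : DifferentiableOn ℂ f (ball x r)) (hy : y ∈ ball x r)
    (hy0 : ∀ᶠ w in 𝓝 y, f w = 0) (z : V) (hz : z ∈ ball x r) : f z = 0 := by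
  obtain ⟨ℓ, hℓ⟩ : ∃ ℓ : ℂ → V, ℓ = fun t => y + t • (z - y) := ⟨_, rfl⟩
  have hℓc : Continuous ℓ := by
    rw [hℓ]
    fun_prop
  have hℓd : Differentiable ℂ ℓ := by
    rw [hℓ]
    fun_prop
  have hℓ0 : ℓ 0 = y := by rw [hℓ]; simp
  have hℓ1 : ℓ 1 = z := by rw [hℓ]; simp
  have hU : IsOpen (ℓ ⁻¹' ball x r) := isOpen_ball.preimage hℓc
  have hconv : Convex ℝ (ℓ ⁻¹' ball x r) := by
    intro t₁ h₁ t₂ h₂ a b ha hb hab
    have h3 := (convex_ball x r) h₁ h₂ ha hb hab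
    have h4 : ℓ (a • t₁ + b • t₂) = a • ℓ t₁ + b • ℓ t₂ := by
      rw [hℓ]
      simp only
      have h5 : (a : ℂ) + (b : ℂ) = 1 := by exact_mod_cast hab
      rw [← Complex.coe_smul a (y + t₁ • (z - y)), ← Complex.coe_smul b (y + t₂ • (z - y)),
        Complex.real_smul, Complex.real_smul]
      calc y + ((a : ℂ) * t₁ + (b : ℂ) * t₂) • (z - y)
          = ((a : ℂ) + (b : ℂ)) • y + ((a : ℂ) * t₁ + (b : ℂ) * t₂) • (z - y) := by
            rw [h5, one_smul]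
        _ = _ := by module
    show ℓ (a • t₁ + b • t₂) ∈ ball x r
    rw [h4]
    exact h3
  have han : AnalyticOnNhd ℂ (f ∘ ℓ) (ℓ ⁻¹' ball x r) :=
    (hf.comp hℓd.differentiableOn (fun t ht => ht)).analyticOnNhd hU
  have h0 : (0 : ℂ) ∈ ℓ ⁻¹' ball x r := by
    show ℓ 0 ∈ ball x r
    rw [hℓ0]
    exact hy
  have h1 : (1 : ℂ) ∈ ℓ ⁻¹' ball x r := by
    show ℓ 1 ∈ ball x r
    rw [hℓ1]
    exact hz
  have hev : (f ∘ ℓ) =ᶠ[𝓝 0] 0 := by
    have h2 : Tendsto ℓ (𝓝 0) (𝓝 y) := by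
      have := hℓc.tendsto 0
      rwa [hℓ0] at this
    exact h2.eventually hy0
  have h3 := han.eqOn_zero_of_preconnected_of_eventuallyEq_zero hconv.isPreconnected h0 hev h1
  simpa [hℓ1] using h3

end IDEN

theorem iden_holds : StIDEN := by
  intro V _ _ _ Ω f hΩ hpre hf x₀ hx₀ hev
  have hA : IsOpen {x | ∀ᶠ w in 𝓝 x, f w = 0} := isOpen_setOfPred_eventually_nhds
  have hsub : Ω ⊆ {x | ∀ᶠ w in 𝓝 x, f w = 0} := by
    apply hpre.subset_of_closure_inter_subset hA ⟨x₀, hx₀, hev⟩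
    rintro x ⟨hxc, hxΩ⟩
    obtain ⟨r, hr, hball⟩ := Metric.isOpen_iff.1 hΩ x hxΩ
    obtain ⟨y, hyA, hyx⟩ := Metric.mem_closure_iff.1 hxc r hr
    have hy : y ∈ ball x r := by
      rw [mem_ball, dist_comm]
      exact hyx
    have h1 := IDEN.ball_zero f x y r (hf.mono hball) hy hyA
    exact Filter.mem_of_superset (ball_mem_nhds x hr) h1
  intro x hx
  exact (hsub hx).self_of_nhds

end Pool.Agent.H713R3.ZA
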