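import Pool.Agent.H713R3.ZA.Defs
import Pool.Agent.Helper540.Holo

set_option autoImplicit false

open Topology Filter Metric Set

namespace Pool.Agent.H713R3.ZA

namespace INV

variable {V : Type} [NormedAddCommGroup V] [NormedSpace ℂ V]

theorem contr {B : Set V} {R C : ℝ} {g : V × ℂ → ℂ} (hC : 0 < C)
    (hg : DifferentiableOn ℂ g (B ×ˢ {z : ℂ | R < ‖z‖}))
    (hb : ∀ x ∈ B, ∀ z : ℂ, R < ‖z‖ → ‖g (x, z)‖ ≤ C)
    {x : V} (hx : x ∈ B) {w z z' : ℂ} (hw : R + 10 * C < ‖w‖) (hz : ‖z - w‖ ≤ C)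
    (hz' : ‖z' - w‖ ≤ C) : ‖g (x, z') - g (x, z)‖ ≤ 1 / 2 * ‖z' - z‖ := by
  have hsub : ∀ u : ℂ, u ∈ ball z (9 * C) → R < ‖u‖ := by
    intro u hu
    rw [mem_ball, dist_eq_norm] at hu
    have h1 : ‖w‖ ≤ ‖u‖ + ‖u - z‖ + ‖z - w‖ := by
      calc ‖w‖ = ‖u - (u - z) - (z - w)‖ := by congr 1; ring
        _ ≤ ‖u - (u - z)‖ + ‖z - w‖ := norm_sub_le _ _
        _ ≤ ‖u‖ + ‖u - z‖ + ‖z - w‖ := by gcongr; exact norm_sub_le _ _
    linarith
  have hd : DifferentiableOn ℂ (fun u : ℂ => g (x, u)) (ball z (9 * C)) := by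
    refine hg.comp ((differentiableOn_const x).prodMk differentiableOn_id) ?_
    intro u hu
    exact ⟨hx, hsub u hu⟩
  have hcc : z ∈ ball z (9 * C) := mem_ball_self (by positivity)
  have hmaps : MapsTo (fun u : ℂ => g (x, u)) (ball z (9 * C)) (closedBall (g (x, z)) (2 * C)) := by
    intro u hu
    rw [mem_closedBall, dist_eq_norm]
    calc ‖g (x, u) - g (x, z)‖ ≤ ‖g (x, u)‖ + ‖g (x, z)‖ := norm_sub_le _ _
      _ ≤ 2 * C := by linarith [hb x hx u (hsub u hu), hb x hx z (hsub z hcc)]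
  have hz'' : z' ∈ ball z (9 * C) := by
    rw [mem_ball, dist_eq_norm]
    calc ‖z' - z‖ = ‖(z' - w) - (z - w)‖ := by congr 1; ring
      _ ≤ ‖z' - w‖ + ‖z - w‖ := norm_sub_le _ _
      _ < 9 * C := by linarith
  have h := Complex.dist_le_div_mul_dist_of_mapsTo_ball hd hmaps hz''
  rw [dist_eq_norm, dist_eq_norm] at h
  refine h.trans ?_
  refine mul_le_mul_of_nonneg_right ?_ (norm_nonneg _)
  rw [div_le_div_iff₀ (by positivity) (by norm_num)]
  linarith

/-- the iteration -/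
noncomputable def Z (g : V × ℂ → ℂ) : ℕ → V × ℂ → ℂ
  | 0, p => p.2
  | k + 1, p => p.2 - g (p.1, Z g k p)

end INV

open INV in
theorem inv_holds : StINV := by
  intro V _ _ _ B R C g hB hR hC hg hb R₁ hR₁
  have hD : IsOpen (B ×ˢ {w : ℂ | R₁ < ‖w‖}) :=
    hB.prod (isOpen_lt continuous_const continuous_norm)
  have hD0 : IsOpen (B ×ˢ {z : ℂ | R < ‖z‖}) :=
    hB.prod (isOpen_lt continuous_const continuous_norm)
  have hlow : ∀ w z : ℂ, R₁ < ‖w‖ → ‖z - w‖ ≤ C → R < ‖z‖ := by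
    intro w z hw hz
    have h1 : ‖w‖ ≤ ‖z‖ + ‖z - w‖ := by
      calc ‖w‖ = ‖z - (z - w)‖ := by congr 1; ring
        _ ≤ ‖z‖ + ‖z - w‖ := norm_sub_le _ _
    linarith
  have hZ : ∀ k, ∀ p : V × ℂ, p.1 ∈ B → R₁ < ‖p.2‖ → ‖Z g k p - p.2‖ ≤ C := by
    intro k
    induction k with
    | zero => intro p _ _; simp [Z, hC.le]
    | succ k ih =>
      intro p h1 h2
      have h3 := hb p.1 h1 (Z g k p) (hlow _ _ h2 (ih p h1 h2))
      calc ‖Z g (k + 1) p - p.2‖ = ‖-g (p.1, Z g k p)‖ := by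
            congr 1; simp [Z]
        _ ≤ C := by rw [norm_neg]; exact h3
  have hstep : ∀ k, ∀ p : V × ℂ, p.1 ∈ B → R₁ < ‖p.2‖ →
      dist (Z g k p) (Z g (k + 1) p) ≤ C * (1 / 2) ^ k := by
    intro k
    induction k with
    | zero =>
      intro p h1 h2
      rw [dist_comm, dist_eq_norm, pow_zero, mul_one]
      exact hZ 1 p h1 h2
    | succ k ih =>
      intro p h1 h2
      have h3 := contr hC hg hb h1 (w := p.2) (z := Z g (k + 1) p) (z' := Z g k p)
        (by linarith) (hZ _ p h1 h2) (hZ _ p h1 h2)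
      rw [dist_eq_norm]
      calc ‖Z g (k + 1) p - Z g (k + 1 + 1) p‖
          = ‖g (p.1, Z g (k + 1) p) - g (p.1, Z g k p)‖ := by
            congr 1
            simp only [Z]
            ring
        _ = ‖g (p.1, Z g k p) - g (p.1, Z g (k + 1) p)‖ := norm_sub_rev _ _
        _ ≤ 1 / 2 * ‖Z g k p - Z g (k + 1) p‖ := h3
        _ ≤ 1 / 2 * (C * (1 / 2) ^ k) := by
            have := ih p h1 h2
            rw [dist_eq_norm] at this
            gcongr
        _ = C * (1 / 2) ^ (k + 1) := by ring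
  have hZd : ∀ k, DifferentiableOn ℂ (Z g k) (B ×ˢ {w : ℂ | R₁ < ‖w‖}) := by
    intro k
    induction k with
    | zero => exact differentiable_snd.differentiableOn
    | succ k ih =>
      refine differentiable_snd.differentiableOn.sub ?_
      refine hg.comp (differentiable_fst.differentiableOn.prodMk ih) ?_
      intro p hp
      exact ⟨hp.1, hlow _ _ hp.2 (hZ k p hp.1 hp.2)⟩
  have hlim : ∀ p : V × ℂ, p ∈ B ×ˢ {w : ℂ | R₁ < ‖w‖} →
      ∃ L, Tendsto (fun k => Z g k p) atTop (𝓝 L) := by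
    intro p hp
    exact cauchySeq_tendsto_of_complete
      (cauchySeq_of_le_geometric (1 / 2) C (by norm_num) (fun k => hstep k p hp.1 hp.2))
  choose! ψ hψ using hlim
  have hunif : TendstoUniformlyOn (Z g) ψ atTop (B ×ˢ {w : ℂ | R₁ < ‖w‖}) := by
    rw [Metric.tendstoUniformlyOn_iff]
    intro ε hε
    have h1 : Tendsto (fun k : ℕ => C * (1 / 2 : ℝ) ^ k / (1 - 1 / 2)) atTop (𝓝 0) := by
      have := ((tendsto_pow_atTop_nhds_zero_of_lt_one (r := (1 / 2 : ℝ)) (by norm_num)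
        (by norm_num)).const_mul C).div_const (1 - 1 / 2)
      simpa using this
    filter_upwards [h1.eventually (gt_mem_nhds hε)] with k hk p hp
    rw [dist_comm]
    exact (dist_le_of_le_geometric_of_tendsto (1 / 2) C (by norm_num)
      (fun k => hstep k p hp.1 hp.2) (hψ p hp) k).trans_lt hk
  have hψd : DifferentiableOn ℂ ψ (B ×ˢ {w : ℂ | R₁ < ‖w‖}) := by
    intro p hp
    obtain ⟨ε, hε, hball⟩ := Metric.isOpen_iff.1 hD p hp
    have h1 := Helper540.differentiableOn_of_uniform_limit (c := p) (R := ε)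
      (fun k => (hZd k).mono hball) (hunif.mono hball)
    exact (h1.differentiableAt (isOpen_ball.mem_nhds (mem_ball_self (by positivity)))).differentiableWithinAt
  have hψC : ∀ x ∈ B, ∀ w : ℂ, R₁ < ‖w‖ → ‖ψ (x, w) - w‖ ≤ C := by
    intro x hx w hw
    have h1 : Tendsto (fun k => ‖Z g k (x, w) - w‖) atTop (𝓝 ‖ψ (x, w) - w‖) :=
      ((hψ (x, w) ⟨hx, hw⟩).sub_const w).norm
    exact le_of_tendsto h1 (Eventually.of_forall fun k => hZ k (x, w) hx hw)
  have hψe : ∀ x ∈ B, ∀ w : ℂ, R₁ < ‖w‖ → ψ (x, w) + g (x, ψ (x, w)) = w := by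
    intro x hx w hw
    have h1 := (hψ (x, w) ⟨hx, hw⟩)
    have hmem : (x, ψ (x, w)) ∈ B ×ˢ {z : ℂ | R < ‖z‖} := ⟨hx, hlow _ _ hw (hψC x hx w hw)⟩
    have hcont : ContinuousAt g (x, ψ (x, w)) :=
      (hg.differentiableAt (hD0.mem_nhds hmem)).continuousAt
    have h2 : Tendsto (fun k => w - g (x, Z g k (x, w))) atTop (𝓝 (w - g (x, ψ (x, w)))) := by
      refine tendsto_const_nhds.sub (hcont.tendsto.comp ?_)
      exact tendsto_const_nhds.prodMk_nhds h1
    have h3 : Tendsto (fun k => Z g (k + 1) (x, w)) atTop (𝓝 (ψ (x, w))) :=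
      (tendsto_add_atTop_iff_nat 1).2 h1
    have h4 := tendsto_nhds_unique h3 h2
    linear_combination h4
  refine ⟨ψ, hψd, fun x hx => ⟨fun w hw => ⟨hψC x hx w hw, hψe x hx w hw⟩, fun z hz hw => ?_⟩⟩
  set w := z + g (x, z) with hwdef
  have hzR : R < ‖z‖ := by linarith
  have hzw : ‖z - w‖ ≤ C := by
    calc ‖z - w‖ = ‖-g (x, z)‖ := by rw [hwdef]; congr 1; ring
      _ ≤ C := by rw [norm_neg]; exact hb x hx z hzR
  have h1 := contr hC hg hb hx (w := w) (z := z) (z' := ψ (x, w)) (by linarith) hzw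
    (hψC x hx w hw)
  have h2 := hψe x hx w hw
  have h3 : ψ (x, w) - z = -(g (x, ψ (x, w)) - g (x, z)) := by
    have : ψ (x, w) + g (x, ψ (x, w)) = z + g (x, z) := h2
    linear_combination this
  have h4 : ‖ψ (x, w) - z‖ ≤ 1 / 2 * ‖ψ (x, w) - z‖ := by
    calc ‖ψ (x, w) - z‖ = ‖g (x, ψ (x, w)) - g (x, z)‖ := by rw [h3, norm_neg]
      _ ≤ _ := h1
  have h5 : ‖ψ (x, w) - z‖ = 0 := by
    have := norm_nonneg (ψ (x, w) - z)
    linarith
  exact sub_eq_zero.1 (norm_eq_zero.1 h5)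

end Pool.Agent.H713R3.ZA
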