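import Pool.Agent.H713R3.ZA.Defs
import Pool.Agent.Helper540.Holo

/-! Task KER: a holomorphic kernel field of fewer functions than variables. -/

set_option autoImplicit false

open Topology Filter Metric Set Polynomial MeasureTheory

namespace Pool.Agent.H713R3.ZA

namespace KER

section ident

variable {V : Type} [NormedAddCommGroup V] [NormedSpace ℂ V]

/-- A holomorphic function on a ball vanishing near the centre vanishes. -/
theorem zero_on_ball {f : V → ℂ} {x : V} {r : ℝ} (hf : DifferentiableOn ℂ f (ball x r))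
    (h : ∀ᶠ y in 𝓝 x, f y = 0) : ∀ y ∈ ball x r, f y = 0 := by
  intro y hy
  by_cases hxy : y = x
  · rw [hxy]
    exact h.self_of_nhds
  have hd : 0 < ‖y - x‖ := norm_pos_iff.2 (sub_ne_zero.2 hxy)
  have hyr : ‖y - x‖ < r := by rwa [mem_ball, dist_eq_norm] at hy
  set g : ℂ → ℂ := fun t => f (x + t • (y - x)) with hg
  have hmaps : MapsTo (fun t : ℂ => x + t • (y - x)) (ball (0 : ℂ) (r / ‖y - x‖)) (ball x r) := by
    intro t ht
    rw [mem_ball, dist_zero_right, lt_div_iff₀ hd] at ht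
    rw [mem_ball, dist_eq_norm, add_sub_cancel_left, norm_smul]
    exact ht
  have hgd : DifferentiableOn ℂ g (ball (0 : ℂ) (r / ‖y - x‖)) := by
    refine hf.comp ?_ hmaps
    exact ((differentiable_const x).add (differentiable_id.smul_const (y - x))).differentiableOn
  have hga : AnalyticOnNhd ℂ g (ball (0 : ℂ) (r / ‖y - x‖)) := hgd.analyticOnNhd isOpen_ball
  have hr : 0 < r := hd.trans hyr
  have h0 : (0 : ℂ) ∈ ball (0 : ℂ) (r / ‖y - x‖) := mem_ball_self (by positivity)
  have hz : g =ᶠ[𝓝 0] 0 := by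
    have hcont : Continuous (fun t : ℂ => x + t • (y - x)) :=
      continuous_const.add (continuous_id.smul continuous_const)
    have ht : Tendsto (fun t : ℂ => x + t • (y - x)) (𝓝 0) (𝓝 x) := by
      have := hcont.tendsto 0
      simpa using this
    exact ht.eventually h
  have h1 : (1 : ℂ) ∈ ball (0 : ℂ) (r / ‖y - x‖) := by
    rw [mem_ball, dist_zero_right, norm_one, lt_div_iff₀ hd, one_mul]
    exact hyr
  have := hga.eqOn_zero_of_preconnected_of_eventuallyEq_zero
    (convex_ball (0 : ℂ) _).isPreconnected h0 hz h1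
  simpa [hg] using this

/-- Identity theorem. -/
theorem ident {Ω : Set V} {f : V → ℂ} (hΩ : IsOpen Ω) (hc : IsPreconnected Ω)
    (hf : DifferentiableOn ℂ f Ω) {x₀ : V} (hx₀ : x₀ ∈ Ω) (h : ∀ᶠ x in 𝓝 x₀, f x = 0) :
    ∀ x ∈ Ω, f x = 0 := by
  set A : Set V := {x | ∀ᶠ y in 𝓝 x, f y = 0} with hA
  have hAo : IsOpen A := by
    rw [isOpen_iff_mem_nhds]
    intro x hx
    exact eventually_eventually_nhds.2 hx
  have hsub : Ω ⊆ A := by
    refine hc.subset_of_closure_inter_subset hAo ⟨x₀, hx₀, h⟩ ?_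
    rintro y ⟨hyc, hyΩ⟩
    obtain ⟨r, hr, hball⟩ := Metric.isOpen_iff.1 hΩ y hyΩ
    obtain ⟨x, hxA, hxy⟩ := Metric.mem_closure_iff.1 hyc (r / 2) (by linarith)
    have hsub' : ball x (r / 2) ⊆ Ω := by
      intro z hz
      apply hball
      rw [mem_ball] at hz ⊢
      calc dist z y ≤ dist z x + dist x y := dist_triangle _ _ _
        _ < r / 2 + r / 2 := add_lt_add hz (by rwa [dist_comm])
        _ = r := by ring
    have hz := zero_on_ball (hf.mono hsub') hxA
    have hy : y ∈ ball x (r / 2) := hxy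
    exact (isOpen_ball.mem_nhds hy |> Filter.eventually_of_mem) hz
  exact fun x hx => (hsub hx).self_of_nhds

end ident

section ring

variable {κ : Type} [Fintype κ] (Ω : Set (κ → ℂ))

/-- The ring of the holomorphic functions on `Ω`. -/
def RR : Subring (Ω → ℂ) where
  carrier := {g | ∃ F : (κ → ℂ) → ℂ, DifferentiableOn ℂ F Ω ∧ ∀ x : Ω, g x = F x}
  mul_mem' := by
    rintro g h ⟨F, hF, hg⟩ ⟨H, hH, hh⟩
    exact ⟨fun x => F x * H x, hF.mul hH, fun x => by simp [hg, hh]⟩
  one_mem' := ⟨fun _ => 1, differentiableOn_const _, fun x => rfl⟩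
  add_mem' := by
    rintro g h ⟨F, hF, hg⟩ ⟨H, hH, hh⟩
    exact ⟨fun x => F x + H x, hF.add hH, fun x => by simp [hg, hh]⟩
  zero_mem' := ⟨fun _ => 0, differentiableOn_const _, fun x => rfl⟩
  neg_mem' := by
    rintro g ⟨F, hF, hg⟩
    exact ⟨fun x => - F x, hF.neg, fun x => by simp [hg]⟩

theorem isDomain (hΩ : IsOpen Ω) (hc : IsPreconnected Ω) (hne : Ω.Nonempty) : IsDomain (RR Ω) := by
  obtain ⟨x₁, hx₁⟩ := hne
  haveI : Nontrivial (RR Ω) := by
    refine ⟨⟨0, 1, fun h => ?_⟩⟩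
    have := congrFun (congrArg Subtype.val h) ⟨x₁, hx₁⟩
    simp at this
  haveI : NoZeroDivisors (RR Ω) := by
    refine ⟨fun {f g} hfg => ?_⟩
    by_cases hf : f = 0
    · exact Or.inl hf
    right
    obtain ⟨F, hF, hfF⟩ := f.2
    obtain ⟨G, hG, hgG⟩ := g.2
    have hne : ∃ x : Ω, f.1 x ≠ 0 := by
      by_contra hcon
      push Not at hcon
      exact hf (Subtype.ext (funext hcon))
    obtain ⟨x, hx⟩ := hne
    have hFx : F x ≠ 0 := by rwa [← hfF]
    have hFc : ContinuousAt F x := (hF.differentiableAt (hΩ.mem_nhds x.2)).continuousAt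
    have hev : ∀ᶠ y in 𝓝 (x : κ → ℂ), G y = 0 := by
      filter_upwards [hFc.eventually_ne hFx, hΩ.mem_nhds x.2] with y hy hyΩ
      have h1 := congrFun (congrArg Subtype.val hfg) ⟨y, hyΩ⟩
      have h2 : f.1 ⟨y, hyΩ⟩ * g.1 ⟨y, hyΩ⟩ = 0 := h1
      rw [hfF, hgG] at h2
      exact (mul_eq_zero.1 h2).resolve_left hy
    have hz := ident hΩ hc hG x.2 hev
    apply Subtype.ext
    funext y
    show g.1 y = 0
    rw [hgG]
    exact hz y y.2
  exact NoZeroDivisors.to_isDomain _

end ring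

end KER

open KER in
theorem ker_holds : StKER := by
  classical
  intro κ _ _ k₀ Ω G hΩ hc hne hG
  haveI := isDomain Ω hΩ hc hne
  have hent : ∀ k j, DifferentiableOn ℂ (fun x => fderiv ℂ (G k) x (Pi.single j 1)) Ω := fun k j =>
    Pool.Agent.Helper540.differentiableOn_fderiv_apply hΩ (hG k) _
  set M : Matrix κ κ (RR Ω) := fun k j => if k = k₀ then 0 else
    ⟨fun x => fderiv ℂ (G k) x (Pi.single j 1), _, hent k j, fun x => rfl⟩ with hM
  have hdet : M.det = 0 := Matrix.det_eq_zero_of_row_eq_zero k₀ fun j => by simp [hM]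
  obtain ⟨v, hv0, hv⟩ := Matrix.exists_mulVec_eq_zero_iff.2 hdet
  choose F hF hvF using fun j => (v j).2
  refine ⟨fun x j => F j x, differentiableOn_pi.2 hF, ?_, ?_⟩
  · obtain ⟨j, hj⟩ := Function.ne_iff.1 hv0
    have : ∃ x : Ω, (v j).1 x ≠ 0 := by
      by_contra hcon
      push Not at hcon
      exact hj (Subtype.ext (funext hcon))
    obtain ⟨x, hx⟩ := this
    refine ⟨x, x.2, fun h => hx ?_⟩
    rw [hvF]
    exact congrFun h j
  · intro x hx k hk
    have h1 := congrFun hv k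
    have h2 : ∑ j, M k j * v j = 0 := h1
    have h3 : ∑ j, fderiv ℂ (G k) x (Pi.single j 1) * F j x = 0 := by
      have h4 := congrFun (congrArg Subtype.val h2) ⟨x, hx⟩
      rw [AddSubmonoidClass.coe_finsetSum, Finset.sum_apply] at h4
      have h5 : ∀ j, ((M k j * v j : RR Ω) : Ω → ℂ) ⟨x, hx⟩ =
          fderiv ℂ (G k) x (Pi.single j 1) * F j x := by
        intro j
        have h6 : ((M k j * v j : RR Ω) : Ω → ℂ) ⟨x, hx⟩ =
          (M k j).1 ⟨x, hx⟩ * (v j).1 ⟨x, hx⟩ := rfl
        rw [h6, hvF]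
        simp only [hM, if_neg hk]
      rw [Finset.sum_congr rfl fun j _ => h5 j] at h4
      exact h4
    have h8 : fderiv ℂ (G k) x (fun j => F j x) =
        ∑ i, F i x • fderiv ℂ (G k) x (fun j => if i = j then 1 else 0) :=
      LinearMap.pi_apply_eq_sum_univ (fderiv ℂ (G k) x).toLinearMap (fun j => F j x)
    rw [h8]
    refine Eq.trans ?_ h3
    refine Finset.sum_congr rfl fun j _ => ?_
    have h7 : (fun j' : κ => if j = j' then (1 : ℂ) else 0) = Pi.single j 1 := by
      funext j'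
      simp [Pi.single_apply, eq_comm]
    rw [h7, smul_eq_mul, mul_comm]

end Pool.Agent.H713R3.ZA
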