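import Pool.Agent.H713R3.ZA.Defs

/-!
The differential of the family is injective where the critical points are distinct.
-/

set_option autoImplicit false

open Topology Filter Metric Set Polynomial MeasureTheory

namespace Pool.Agent.H713R3.ZA

namespace NDEG

theorem prod_diff {n : ℕ} (s : Finset (Fin n)) :
    ∀ m : ℕ, Differentiable ℂ (fun y : PE n => (∏ i ∈ s, (X - C (y (some i)))).coeff m) := by
  classical
  induction s using Finset.induction_on with
  | empty =>
    intro m
    simp only [Finset.prod_empty]
    exact differentiable_const _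
  | insert i s hi ih =>
    intro m
    have hy : Differentiable ℂ (fun y : PE n => y (some i)) := by fun_prop
    simp only [Finset.prod_insert hi, sub_mul, coeff_sub, coeff_C_mul]
    refine Differentiable.sub ?_ (hy.mul (ih m))
    rcases m with _ | m
    · simp only [coeff_X_mul_zero]
      exact differentiable_const _
    · simp only [coeff_X_mul]
      exact ih m

theorem prim_coeff_zero (N : ℕ) (p : ℂ[X]) : (prim N p).coeff 0 = 0 := by
  unfold prim
  rw [finsetSum_coeff]
  refine Finset.sum_eq_zero fun k _ => ?_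
  rw [coeff_monomial, if_neg (Nat.succ_ne_zero k)]

theorem prim_coeff_succ (N : ℕ) (p : ℂ[X]) (m : ℕ) :
    (prim N p).coeff (m + 1) = if m < N then p.coeff m / (m + 1) else 0 := by
  unfold prim
  rw [finsetSum_coeff]
  simp only [coeff_monomial, Nat.add_right_cancel_iff]
  rw [Finset.sum_ite_eq' (Finset.range N) m]
  simp only [Finset.mem_range]

theorem fam_coeff_zero (a : ℂ) (n : ℕ) (y : PE n) : (fam a n y).coeff 0 = y none := by
  unfold fam
  rw [coeff_add, prim_coeff_zero, coeff_C_zero, add_zero]

theorem fam_coeff_succ (a : ℂ) (n : ℕ) (y : PE n) (m : ℕ) (hm : m < n + 1) :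
    ((m : ℂ) + 1) * (fam a n y).coeff (m + 1) =
      a * ((n : ℂ) + 1) * (∏ i : Fin n, (X - C (y (some i)))).coeff m := by
  unfold fam
  have h1 : ((m : ℂ) + 1) ≠ 0 := Nat.cast_add_one_ne_zero m
  rw [coeff_add, prim_coeff_succ, if_pos hm, coeff_C_succ, zero_add, coeff_C_mul]
  field_simp

theorem fam_coeff_succ' (a : ℂ) (n : ℕ) (y : PE n) (m : ℕ) (hm : ¬ m < n + 1) :
    (fam a n y).coeff (m + 1) = 0 := by
  unfold fam
  rw [coeff_add, prim_coeff_succ, if_neg hm, coeff_C_succ, zero_add]

theorem fam_diff (a : ℂ) (n : ℕ) (j : ℕ) :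
    Differentiable ℂ (fun y : PE n => (fam a n y).coeff j) := by
  rcases j with _ | m
  · simp only [fam_coeff_zero]
    fun_prop
  · by_cases hm : m < n + 1
    · have h1 : ((m : ℂ) + 1) ≠ 0 := Nat.cast_add_one_ne_zero m
      have h2 : (fun y : PE n => (fam a n y).coeff (m + 1)) = fun y : PE n =>
          ((m : ℂ) + 1)⁻¹ * (a * ((n : ℂ) + 1) * (∏ i : Fin n, (X - C (y (some i)))).coeff m) := by
        funext y
        rw [← fam_coeff_succ a n y m hm, inv_mul_cancel_left₀ h1]
      rw [h2]
      exact (differentiable_const _).mul ((differentiable_const _).mul (prod_diff _ m))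
    · simp only [fam_coeff_succ' a n _ m hm]
      exact differentiable_const _

theorem eval_eq (a : ℂ) (n : ℕ) (y : PE n) (z : ℂ) :
    ∑ m ∈ Finset.range (n + 1), ((m : ℂ) + 1) * (fam a n y).coeff (m + 1) * z ^ m =
      a * ((n : ℂ) + 1) * ∏ i : Fin n, (z - y (some i)) := by
  have h1 : ∏ i : Fin n, (z - y (some i)) = (∏ i : Fin n, (X - C (y (some i)))).eval z := by
    rw [eval_prod]
    simp
  have hd : (∏ i : Fin n, (X - C (y (some i)))).natDegree < n + 1 := by
    rw [natDegree_prod_of_monic _ _ fun i _ => monic_X_sub_C _]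
    simp
  rw [h1, eval_eq_sum_range' hd, Finset.mul_sum]
  refine Finset.sum_congr rfl fun m hm => ?_
  rw [fam_coeff_succ a n y m (Finset.mem_range.1 hm)]
  ring

end NDEG

open NDEG in
theorem ndeg_holds : StNDEG := by
  intro n a x v _ ha hinj hf
  have hn1 : ((n : ℂ) + 1) ≠ 0 := Nat.cast_add_one_ne_zero n
  have h0 : v none = 0 := by
    have h := hf 0
    simp only [fam_coeff_zero] at h
    have h1 : HasFDerivAt (fun y : PE n => y none)
        (ContinuousLinearMap.proj (R := ℂ) (φ := fun _ : Option (Fin n) => ℂ) none) x :=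
      (ContinuousLinearMap.proj (R := ℂ) (φ := fun _ : Option (Fin n) => ℂ) none).hasFDerivAt
    rw [h1.fderiv] at h
    exact h
  have hi : ∀ i : Fin n, v (some i) = 0 := by
    intro i
    -- along the line `x + t v`
    have hline : ∀ j : ℕ, HasDerivAt (fun t : ℂ => (fam a n (x + t • v)).coeff j) 0 0 := by
      intro j
      have h1 := (fam_diff a n j x).hasFDerivAt
      have h2 : HasDerivAt (fun t : ℂ => x + t • v) v 0 := by
        have h3 := ((hasDerivAt_id (0 : ℂ)).smul_const v).const_add x
        simpa using h3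
      have h4 : HasFDerivAt (fun y : PE n => (fam a n y).coeff j)
          (fderiv ℂ (fun y : PE n => (fam a n y).coeff j) x) (x + (0 : ℂ) • v) := by
        rw [zero_smul, add_zero]
        exact h1
      have h5 := h4.comp_hasDerivAt (0 : ℂ) h2
      rw [hf j] at h5
      exact h5
    set z := x (some i) with hz
    have h6 : HasDerivAt (fun t : ℂ => ∑ m ∈ Finset.range (n + 1), ((m : ℂ) + 1) *
        (fam a n (x + t • v)).coeff (m + 1) * z ^ m) 0 0 := by
      have h7 : HasDerivAt (fun t : ℂ => ∑ m ∈ Finset.range (n + 1), ((m : ℂ) + 1) *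
          (fam a n (x + t • v)).coeff (m + 1) * z ^ m)
          (∑ m ∈ Finset.range (n + 1), ((m : ℂ) + 1) * 0 * z ^ m) 0 :=
        HasDerivAt.fun_sum fun m _ => ((hline (m + 1)).const_mul _).mul_const _
      simpa using h7
    simp only [eval_eq] at h6
    have h8 : HasDerivAt (fun t : ℂ => ∏ k : Fin n, (z - (x + t • v) (some k)))
        (∑ k : Fin n, (∏ j ∈ Finset.univ.erase k, (z - (x + (0 : ℂ) • v) (some j))) •
          (-(v (some k)))) 0 := by
      refine HasDerivAt.fun_finsetProd fun k _ => ?_
      have h9 : HasDerivAt (fun t : ℂ => z - (x (some k) + t * v (some k))) (-(v (some k))) 0 := by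
        have h10 := (((hasDerivAt_id (0 : ℂ)).mul_const (v (some k))).const_add
          (x (some k))).const_sub z
        simpa using h10
      exact h9
    have h11 := (h8.const_mul (a * ((n : ℂ) + 1))).unique h6
    have h12 := (mul_eq_zero.1 h11).resolve_left (mul_ne_zero ha hn1)
    rw [Finset.sum_eq_single i] at h12
    · have h13 : ∏ j ∈ Finset.univ.erase i, (z - (x + (0 : ℂ) • v) (some j)) ≠ 0 := by
        rw [Finset.prod_ne_zero_iff]
        intro j hj
        rw [zero_smul, add_zero, hz, sub_ne_zero]
        intro h14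
        exact Finset.ne_of_mem_erase hj (hinj h14).symm
      rw [smul_eq_mul] at h12
      exact neg_eq_zero.1 ((mul_eq_zero.1 h12).resolve_left h13)
    · intro k _ hk
      have h13 : ∏ j ∈ Finset.univ.erase k, (z - (x + (0 : ℂ) • v) (some j)) = 0 := by
        refine Finset.prod_eq_zero (Finset.mem_erase.2 ⟨hk.symm, Finset.mem_univ i⟩) ?_
        rw [zero_smul, add_zero, hz, sub_self]
      rw [h13, zero_smul]
    · intro h
      exact absurd (Finset.mem_univ i) h
  funext o
  rcases o with _ | i
  · exact h0
  · exact hi i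

end Pool.Agent.H713R3.ZA
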