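import Pool.Agent.H713R3.ZA.Defs

/-!
Task ROOT: holomorphic roots over a convex open set of parameters (helper998, following the one
variable case of helper713).
-/

set_option autoImplicit false

open Topology Filter Metric Set Polynomial MeasureTheory

namespace Pool.Agent.H713R3.ZA

namespace ROOT

variable {V : Type} [NormedAddCommGroup V] [NormedSpace ℂ V] [FiniteDimensional ℂ V]

/-- the derivative of `(s, z) ↦ (s, F s z)` at a simple root is invertible -/
theorem loc {U : Set V} {F : V → ℂ → ℂ} (hU : IsOpen U)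
    (hF : ContDiffOn ℂ 1 (fun p : V × ℂ => F p.1 p.2) (U ×ˢ univ))
    (hsimple : ∀ s ∈ U, ∀ z, F s z = 0 → deriv (F s) z ≠ 0) (p : V × ℂ) (hp1 : p.1 ∈ U)
    (hp2 : F p.1 p.2 = 0) :
    ∃ e : (V × ℂ) ≃L[ℂ] (V × ℂ),
      HasStrictFDerivAt (fun p : V × ℂ => (p.1, F p.1 p.2)) (e : (V × ℂ) →L[ℂ] (V × ℂ)) p := by
  obtain ⟨s, z⟩ := p
  simp only at hp1 hp2
  set G : V × ℂ → ℂ := fun p => F p.1 p.2 with hG
  have hopen : IsOpen (U ×ˢ (univ : Set ℂ)) := hU.prod isOpen_univ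
  have hGd : HasStrictFDerivAt G (fderiv ℂ G (s, z)) (s, z) :=
    (hF.contDiffAt (hopen.mem_nhds ⟨hp1, mem_univ _⟩)).hasStrictFDerivAt (by norm_num)
  set A := fderiv ℂ G (s, z) with hA
  have hβ : A (0, 1) = deriv (F s) z := by
    have h2 : HasDerivAt (fun y : ℂ => ((s, y) : V × ℂ)) ((0, 1) : V × ℂ) z :=
      (hasDerivAt_const z s).prodMk (hasDerivAt_id z)
    exact (hGd.hasFDerivAt.comp_hasDerivAt z h2).deriv.symm
  have hβ0 : A (0, 1) ≠ 0 := by rw [hβ]; exact hsimple s hp1 z hp2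
  set f₁ : (V × ℂ) →L[ℂ] (V × ℂ) := (ContinuousLinearMap.fst ℂ V ℂ).prod A with hf₁
  set f₂ : (V × ℂ) →L[ℂ] (V × ℂ) := (ContinuousLinearMap.fst ℂ V ℂ).prod
    ((A (0, 1))⁻¹ • (ContinuousLinearMap.snd ℂ V ℂ -
      (A.comp (ContinuousLinearMap.inl ℂ V ℂ)).comp (ContinuousLinearMap.fst ℂ V ℂ))) with hf₂
  have hAx : ∀ (x : V) (y : ℂ), A (x, y) = A (x, 0) + y * A (0, 1) := by
    intro x y
    have h3 : ((x, y) : V × ℂ) = ((x, 0) : V × ℂ) + y • ((0, 1) : V × ℂ) := by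
      simp
    rw [h3, map_add, map_smul, smul_eq_mul]
  refine ⟨ContinuousLinearEquiv.equivOfInverse f₁ f₂ ?_ ?_, ?_⟩
  · rintro ⟨x, y⟩
    simp only [hf₁, hf₂, ContinuousLinearMap.prod_apply, ContinuousLinearMap.coe_fst',
      _root_.smul_apply, _root_.sub_apply, ContinuousLinearMap.comp_apply,
      ContinuousLinearMap.inl_apply,
      ContinuousLinearMap.coe_snd', smul_eq_mul, Prod.mk.injEq, true_and]
    rw [hAx x y]
    field_simp
    ring
  · rintro ⟨x, y⟩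
    simp only [hf₁, hf₂, ContinuousLinearMap.prod_apply, ContinuousLinearMap.coe_fst',
      _root_.smul_apply, _root_.sub_apply, ContinuousLinearMap.comp_apply,
      ContinuousLinearMap.inl_apply,
      ContinuousLinearMap.coe_snd', smul_eq_mul, Prod.mk.injEq, true_and]
    rw [hAx]
    field_simp
    ring
  · have h4 : HasStrictFDerivAt (fun p : V × ℂ => (p.1, F p.1 p.2)) f₁ (s, z) := by
      exact hasStrictFDerivAt_fst.prodMk hGd
    exact h4

theorem main (U : Set V) (F : V → ℂ → ℂ) (hU : IsOpen U) (hconv : Convex ℝ U)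
    (hF : ContDiffOn ℂ 1 (fun p : V × ℂ => F p.1 p.2) (U ×ˢ univ))
    (hprop : ∀ K : Set V, K ⊆ U → IsCompact K → ∀ M : ℝ, ∃ B : ℝ, ∀ s ∈ K, ∀ z, ‖F s z‖ ≤ M →
      ‖z‖ ≤ B)
    (hsimple : ∀ s ∈ U, ∀ z, F s z = 0 → deriv (F s) z ≠ 0) (s₀ : V) (hs₀ : s₀ ∈ U) (u : ℂ)
    (hu : F s₀ u = 0) :
    ∃ Z : V → ℂ, DifferentiableOn ℂ Z U ∧ Z s₀ = u ∧ (∀ s ∈ U, F s (Z s) = 0) ∧
      ∀ Z' : V → ℂ, ContinuousOn Z' U → (∃ s₁ ∈ U, Z' s₁ = Z s₁) → (∀ s ∈ U, F s (Z' s) = 0) →
        ∀ s ∈ U, Z' s = Z s := by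
  have : CompleteSpace V := FiniteDimensional.complete ℂ V
  have : ProperSpace V := FiniteDimensional.proper ℂ V
  have : LocallyCompactSpace U := hU.locallyCompactSpace
  have hopen : IsOpen (U ×ˢ (univ : Set ℂ)) := hU.prod isOpen_univ
  set Φ' : V × ℂ → V × ℂ := fun p => (p.1, F p.1 p.2) with hΦ'
  set ι : U × ℂ → V × ℂ := fun p => ((p.1 : V), p.2) with hι
  have hιc : Continuous ι := by fun_prop
  have hιe : IsOpenEmbedding ι := (hU.isOpenEmbedding_subtypeVal).prodMap IsOpenEmbedding.id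
  set Φ : U × ℂ → U × ℂ := fun p => (p.1, F p.1 p.2) with hΦ
  have hΦc : Continuous Φ := by
    refine continuous_fst.prodMk ?_
    exact hF.continuousOn.comp_continuous hιc fun p => ⟨p.1.2, mem_univ _⟩
  have hcomp : ι ∘ Φ = Φ' ∘ ι := rfl
  set S : Set (U × ℂ) := {p | p.2 = 0} with hS
  -- local inverses
  have hlh' : IsLocalHomeomorphOn Φ' {p : V × ℂ | p.1 ∈ U ∧ F p.1 p.2 = 0} := by
    intro p hp
    obtain ⟨e, he⟩ := loc hU hF hsimple p hp.1 hp.2
    exact ⟨he.toOpenPartialHomeomorph Φ', he.mem_toOpenPartialHomeomorph_source, rfl⟩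
  have hlh : IsLocalHomeomorphOn Φ (Φ ⁻¹' S) := by
    refine IsLocalHomeomorphOn.of_comp_left (g := ι) ?_
      (hιe.isLocalHomeomorph.isLocalHomeomorphOn) (fun x _ => hΦc.continuousAt)
    rw [hcomp]
    refine hlh'.comp (hιe.isLocalHomeomorph.isLocalHomeomorphOn) ?_
    intro p hp
    exact ⟨p.1.2, hp⟩
  -- properness
  have hproper : IsProperMap Φ := by
    rw [isProperMap_iff_isCompact_preimage]
    refine ⟨hΦc, fun K hK => ?_⟩
    obtain ⟨C, hC⟩ := (hK.image continuous_snd).isBounded.subset_closedBall (0 : ℂ)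
    have hK1 : IsCompact (Prod.fst '' K) := hK.image continuous_fst
    have hK2 : IsCompact (Subtype.val '' (Prod.fst '' K) : Set V) :=
      hK1.image continuous_subtype_val
    obtain ⟨B, hB⟩ := hprop (Subtype.val '' (Prod.fst '' K)) (by
      rintro _ ⟨x, -, rfl⟩; exact x.2) hK2 C
    refine (hK1.prod (isCompact_closedBall (0 : ℂ) B)).of_isClosed_subset
      (hK.isClosed.preimage hΦc) ?_
    intro p hp
    have h1 : Φ p ∈ K := hp
    have h2 : p.1 ∈ Prod.fst '' K := ⟨Φ p, h1, rfl⟩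
    refine ⟨h2, ?_⟩
    rw [mem_closedBall_zero_iff]
    apply hB p.1 ⟨p.1, h2, rfl⟩
    have h3 := hC ⟨Φ p, h1, rfl⟩
    rwa [mem_closedBall_zero_iff] at h3
  have hfin : ∀ x ∈ S, (Φ ⁻¹' {x}).Finite := by
    intro x hx
    apply (hproper.isCompact_preimage isCompact_singleton).finite
    apply IsDiscrete.of_openPartialHomeomorph Φ (x := x) subset_rfl
    intro e he
    have he' : e ∈ Φ ⁻¹' S := by
      rw [mem_preimage]
      rw [mem_preimage, mem_singleton_iff] at he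
      rw [he]; exact hx
    obtain ⟨φ, h1, h2⟩ := hlh e he'
    exact ⟨φ, h1, h2.symm⟩
  have hcov : IsCoveringMapOn Φ S :=
    hproper.isClosedMap.isCoveringMapOn_of_isLocalHomeomorphOn hfin hlh
  -- lifting
  have : ContractibleSpace U := hconv.contractibleSpace ⟨s₀, hs₀⟩
  have : LocallyPathConnectedSpace U := hconv.locallyPathConnectedSpace
  set f : C(U, U × ℂ) := ⟨fun a => (a, 0), by fun_prop⟩ with hf
  have hlift := fun (a₀ : U) (e₀ : U × ℂ) (he : Φ e₀ = f a₀) =>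
    hcov.existsUnique_continuousMap_lifts f (a₀ := a₀) (e₀ := e₀) he (fun a => rfl)
  obtain ⟨L, ⟨hL0, hL⟩, -⟩ := hlift ⟨s₀, hs₀⟩ (⟨s₀, hs₀⟩, u) (by simp [hΦ, hf, hu])
  have hL1 : ∀ a, (L a).1 = a ∧ F (L a).1 (L a).2 = 0 := by
    intro a
    have h1 := congrFun hL a
    simp only [Function.comp, hΦ, hf, ContinuousMap.coe_mk, Prod.mk.injEq] at h1
    exact h1
  classical
  set Z : V → ℂ := fun s => if h : s ∈ U then (L ⟨s, h⟩).2 else 0 with hZ
  have hZs : ∀ s (h : s ∈ U), Z s = (L ⟨s, h⟩).2 := fun s h => by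
    simp only [hZ, dif_pos h]
  have hZF : ∀ s ∈ U, F s (Z s) = 0 := by
    intro s h
    have h1 := hL1 ⟨s, h⟩
    rw [hZs s h]
    have h2 : (L ⟨s, h⟩).1 = ⟨s, h⟩ := h1.1
    have h3 := h1.2
    rw [h2] at h3
    exact h3
  have hZc : ContinuousOn Z U := by
    rw [continuousOn_iff_continuous_domRestrict]
    have h1 : U.domRestrict Z = fun a => (L a).2 := by
      funext a
      exact hZs a a.2
    rw [h1]
    exact continuous_snd.comp L.continuous
  refine ⟨Z, ?_, ?_, hZF, ?_⟩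
  · intro s hs
    apply DifferentiableAt.differentiableWithinAt
    obtain ⟨e, he⟩ := loc hU hF hsimple (s, Z s) hs (hZF s hs)
    have hinv := he.to_localInverse
    have hev : ∀ᶠ p in 𝓝 (s, Z s), he.localInverse Φ' e (s, Z s) (Φ' p) = p :=
      he.eventually_left_inverse
    have hcs : ContinuousAt (fun t => ((t, Z t) : V × ℂ)) s :=
      continuousAt_id.prodMk ((hZc s hs).continuousAt (hU.mem_nhds hs))
    have h1 : ∀ᶠ t in 𝓝 s, he.localInverse Φ' e (s, Z s) (Φ' (t, Z t)) = (t, Z t) :=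
      hcs.eventually hev
    have h2 : ∀ᶠ t in 𝓝 s, Z t = (he.localInverse Φ' e (s, Z s) (t, 0)).2 := by
      filter_upwards [h1, hU.mem_nhds hs] with t ht1 ht2
      have h3 : Φ' (t, Z t) = (t, 0) := by
        simp only [hΦ', hZF t ht2]
      rw [h3] at ht1
      rw [ht1]
    have h3 : Φ' (s, Z s) = (s, 0) := by simp only [hΦ', hZF s hs]
    have h4 : DifferentiableAt ℂ (fun t : V => (he.localInverse Φ' e (s, Z s) (t, 0)).2) s := by
      have h5 : DifferentiableAt ℂ (fun t : V => ((t, 0) : V × ℂ)) s := by fun_prop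
      have h6 : DifferentiableAt ℂ (he.localInverse Φ' e (s, Z s)) ((s, 0) : V × ℂ) := by
        have := hinv.hasFDerivAt.differentiableAt
        rwa [show ((s, Z s).1, F (s, Z s).1 (s, Z s).2) = ((s, 0) : V × ℂ) from h3] at this
      exact (h6.comp s h5).snd
    exact h4.congr_of_eventuallyEq h2
  · rw [hZs s₀ hs₀, hL0]
  · rintro Z' hZ'c ⟨s₁, hs₁, h₁⟩ hZ'F s hs
    obtain ⟨L', -, hun⟩ := hlift ⟨s₁, hs₁⟩ (⟨s₁, hs₁⟩, Z s₁) (by
      simp only [hΦ, hf, ContinuousMap.coe_mk, Prod.mk.injEq, true_and]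
      exact hZF s₁ hs₁)
    have e1 : L = L' := by
      apply hun
      refine ⟨?_, hL⟩
      have h2 := hL1 ⟨s₁, hs₁⟩
      apply Prod.ext
      · exact h2.1
      · exact (hZs s₁ hs₁).symm
    set L2 : C(U, U × ℂ) := ⟨fun a => (a, Z' a), by
      refine continuous_id.prodMk ?_
      exact (continuousOn_iff_continuous_domRestrict.1 hZ'c)⟩ with hL2
    have e2 : L2 = L' := by
      apply hun
      refine ⟨?_, ?_⟩
      · apply Prod.ext
        · rfl
        · exact h₁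
      · funext a
        simp only [Function.comp, hΦ, hf, hL2, ContinuousMap.coe_mk, Prod.mk.injEq, true_and]
        exact hZ'F a a.2
    have e3 : L2 ⟨s, hs⟩ = L ⟨s, hs⟩ := by rw [e1, e2]
    have e4 := congrArg Prod.snd e3
    rw [hZs s hs]
    exact e4

end ROOT

/-- Task ROOT. -/
theorem root_holds : StROOT := by
  intro V _ _ _ U F hU hconv hF hprop hsimple s₀ hs₀ u hu
  exact ROOT.main U F hU hconv hF hprop hsimple s₀ hs₀ u hu

end Pool.Agent.H713R3.ZA
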