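import Pool.Agent.H713R3.ZA.Defs

/-! Task SEP: local injectivity of the family at one parameter. -/

set_option autoImplicit false

open Topology Filter Metric Set Polynomial MeasureTheory

namespace Pool.Agent.H713R3.ZA

namespace SEP

theorem prim_coeff_zero (N : ℕ) (p : ℂ[X]) : (prim N p).coeff 0 = 0 := by
  simp [prim, Polynomial.coeff_monomial]

theorem prim_coeff_succ (N : ℕ) (p : ℂ[X]) (m : ℕ) :
    (prim N p).coeff (m + 1) = if m < N then p.coeff m / (m + 1) else 0 := by
  simp only [prim, Polynomial.finsetSum_coeff, Polynomial.coeff_monomial]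
  by_cases h : m < N
  · rw [if_pos h, Finset.sum_eq_single m]
    · rw [if_pos rfl]
    · intro b _ hb
      rw [if_neg (by omega)]
    · intro hm
      exact absurd (Finset.mem_range.mpr h) hm
  · rw [if_neg h]
    apply Finset.sum_eq_zero
    intro b hb
    rw [Finset.mem_range] at hb
    rw [if_neg (by omega)]

theorem prod_natDegree (n : ℕ) (y : Fin n → ℂ) : (∏ i : Fin n, (X - C (y i))).natDegree = n := by
  rw [natDegree_prod_of_monic _ _ (fun i _ => monic_X_sub_C _)]
  simp

end SEP

open SEP in
theorem sep_holds : StSEP := by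
  intro n a x₀ hn ha
  have hfin : ∀ᶠ ρ : ℝ in 𝓝[>] 0, ∀ i j : Fin n, x₀ (some i) ≠ x₀ (some j) →
      ρ < ‖x₀ (some i) - x₀ (some j)‖ := by
    rw [eventually_all]
    intro i
    rw [eventually_all]
    intro j
    by_cases h : x₀ (some i) = x₀ (some j)
    · exact Eventually.of_forall fun ρ h' => absurd h h'
    · have hpos : 0 < ‖x₀ (some i) - x₀ (some j)‖ := norm_pos_iff.mpr (sub_ne_zero.mpr h)
      filter_upwards [Ioo_mem_nhdsGT hpos] with ρ hρ _
      exact hρ.2
  obtain ⟨ρ, hρ, hρ0⟩ := (hfin.and self_mem_nhdsWithin).exists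
  refine ⟨ρ, hρ0, ?_⟩
  intro x hx hfam
  have h0 : x none = x₀ none := by
    have := congrArg (fun p : ℂ[X] => p.coeff 0) hfam
    simpa [fam, prim_coeff_zero] using this
  have hA : a * ((n : ℂ) + 1) ≠ 0 := mul_ne_zero ha (by exact_mod_cast Nat.succ_ne_zero n)
  have hP : (∏ i : Fin n, (X - C (x (some i)))) = ∏ i : Fin n, (X - C (x₀ (some i))) := by
    ext m
    rcases lt_or_ge m (n + 1) with hm | hm
    · have := congrArg (fun p : ℂ[X] => p.coeff (m + 1)) hfam
      simp only [fam, coeff_add, coeff_C_succ, zero_add, prim_coeff_succ, if_pos hm,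
        coeff_C_mul] at this
      have hm1 : (m : ℂ) + 1 ≠ 0 := by exact_mod_cast Nat.succ_ne_zero m
      rw [div_left_inj' hm1] at this
      exact mul_left_cancel₀ hA this
    · rw [coeff_eq_zero_of_natDegree_lt (by rw [prod_natDegree]; omega),
        coeff_eq_zero_of_natDegree_lt (by rw [prod_natDegree]; omega)]
  funext o
  cases o with
  | none => exact h0
  | some i =>
    have h1 : (∏ j : Fin n, (x (some i) - x₀ (some j))) = 0 := by
      have h2 := congrArg (fun p : ℂ[X] => p.eval (x (some i))) hP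
      simp only [eval_prod, eval_sub, eval_X, eval_C] at h2
      rw [← h2]
      exact Finset.prod_eq_zero (Finset.mem_univ i) (sub_self _)
    rw [Finset.prod_eq_zero_iff] at h1
    obtain ⟨j, _, hj⟩ := h1
    have hj' : x (some i) = x₀ (some j) := sub_eq_zero.mp hj
    by_contra hne
    have h3 := hρ j i (by rw [← hj']; exact hne)
    have h4 : ‖x (some i) - x₀ (some i)‖ ≤ ρ := (norm_le_pi_norm (x - x₀) (some i)).trans hx
    rw [hj'] at h4
    linarith

end Pool.Agent.H713R3.ZA
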