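import Pool.Agent.H713R3.ZA.Defs

set_option autoImplicit false

open Topology Filter Metric Set Polynomial MeasureTheory

namespace Pool.Agent.H713R3.ZA

namespace SURJ

theorem exists_fun {n : ℕ} (s : Multiset ℂ) (hs : Multiset.card s = n) :
    ∃ f : Fin n → ℂ, ∏ i : Fin n, (X - C (f i)) = (s.map fun a => X - C a).prod := by
  obtain ⟨l, rfl⟩ := Quot.exists_rep s
  have hl : l.length = n := hs
  subst hl
  refine ⟨fun i => l[i], ?_⟩
  have h1 : (∏ i : Fin l.length, (X - C (l[i]) : ℂ[X])) = (l.map fun a => X - C a).prod := by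
    rw [← List.prod_ofFn]
    congr 1
    apply List.ext_getElem
    · simp
    · intro i h1 h2
      simp
  rw [h1]
  rfl

theorem deriv_coeff (T : ℂ[X]) (k : ℕ) : (derivative T).coeff k / ((k : ℂ) + 1) = T.coeff (k + 1) := by
  rw [coeff_derivative]
  have : ((k : ℂ) + 1) ≠ 0 := Nat.cast_add_one_ne_zero k
  field_simp

end SURJ

theorem surj_holds : StSURJ := by
  intro n T hn hT
  have hlc : T.coeff (n + 1) ≠ 0 := by
    have h := leadingCoeff_ne_zero.2 (show T ≠ 0 by rintro rfl; simp at hT)
    rwa [leadingCoeff, hT] at h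
  have hd : (derivative T).natDegree = n := by
    apply natDegree_eq_of_le_of_coeff_ne_zero
    · have := natDegree_derivative_le T
      omega
    · rw [coeff_derivative]
      exact mul_ne_zero hlc (Nat.cast_add_one_ne_zero n)
  have hsplit : (derivative T).Splits := IsAlgClosed.splits _
  have hcard : Multiset.card (derivative T).roots = n := by
    rw [← hd]; exact hsplit.natDegree_eq_card_roots.symm
  obtain ⟨f, hf⟩ := SURJ.exists_fun _ hcard
  have hl : (derivative T).leadingCoeff = T.coeff (n + 1) * ((n : ℂ) + 1) := by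
    rw [leadingCoeff, hd, coeff_derivative]
  have hprod : C (T.coeff (n + 1) * ((n : ℂ) + 1)) * ∏ i : Fin n, (X - C (f i)) = derivative T := by
    rw [hf, ← hl]
    exact hsplit.eq_prod_roots.symm
  refine ⟨fun o => o.elim (T.coeff 0) f, ?_⟩
  unfold fam
  simp only [Option.elim]
  rw [hprod]
  unfold prim
  have h2 : ∀ k ∈ Finset.range (n + 1), (monomial (k + 1) ((derivative T).coeff k / ((k : ℂ) + 1)) : ℂ[X]) =
      monomial (k + 1) (T.coeff (k + 1)) := by
    intro k _
    rw [SURJ.deriv_coeff]
  rw [Finset.sum_congr rfl h2]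
  conv_rhs => rw [as_sum_range' T (n + 2) (by omega), Finset.sum_range_succ']
  rw [add_comm]
  simp

end Pool.Agent.H713R3.ZA
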