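import Pool.Agent.H713R3.ZA.Defs

/-! USC: upper semicontinuity of the area of the filled Julia set at parameters of zero area. -/

set_option autoImplicit false

open Topology Filter Metric Set Polynomial MeasureTheory

namespace Pool.Agent.H713R3.ZA

namespace USC

/-- the coefficients of a finite product of polynomials with continuous coefficients -/
theorem cont_prod {Y ι : Type} [TopologicalSpace Y] (s : Finset ι) (f : ι → Y → ℂ[X])
    (h : ∀ i ∈ s, ∀ k, Continuous fun y => (f i y).coeff k) (k : ℕ) :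
    Continuous fun y => (∏ i ∈ s, f i y).coeff k := by
  classical
  induction s using Finset.induction_on generalizing k with
  | empty =>
    simp only [Finset.prod_empty]
    exact continuous_const
  | insert i s hi ih =>
    have e : ∀ y, (∏ j ∈ insert i s, f j y).coeff k =
        ∑ p ∈ Finset.HasAntidiagonal.antidiagonal k, (f i y).coeff p.1 * (∏ j ∈ s, f j y).coeff p.2 := by
      intro y
      rw [Finset.prod_insert hi, coeff_mul]
    simp only [e]
    refine continuous_finset_sum _ fun p _ => ?_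
    exact (h i (Finset.mem_insert_self i s) p.1).mul
      (ih (fun j hj => h j (Finset.mem_insert_of_mem hj)) p.2)

/-- the derivative of the family -/
noncomputable def q (a : ℂ) (n : ℕ) (x : PE n) : ℂ[X] :=
  C (a * ((n : ℂ) + 1)) * ∏ i : Fin n, (X - C (x (some i)))

theorem cont_q (a : ℂ) (n : ℕ) (k : ℕ) : Continuous fun x : PE n => (q a n x).coeff k := by
  unfold q
  simp only [coeff_C_mul]
  refine continuous_const.mul (cont_prod _ _ ?_ k)
  intro i _ k
  simp only [coeff_sub, coeff_C]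
  by_cases hk : k = 0
  · simp only [hk, if_true]
    exact continuous_const.sub (continuous_apply _)
  · simp only [hk, if_false]
    exact continuous_const.sub continuous_const

theorem q_coeff (a : ℂ) (n : ℕ) (x : PE n) : (q a n x).coeff n = a * ((n : ℂ) + 1) := by
  unfold q
  rw [coeff_C_mul]
  have hm : (∏ i : Fin n, (X - C (x (some i)))).Monic := monic_prod_of_monic _ _
    fun i _ => monic_X_sub_C _
  have hd : (∏ i : Fin n, (X - C (x (some i)))).natDegree = n := by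
    rw [natDegree_prod_of_monic _ _ fun i _ => monic_X_sub_C _]
    simp
  have : (∏ i : Fin n, (X - C (x (some i)))).coeff n = 1 := by
    have h1 := hm.coeff_natDegree
    rwa [hd] at h1
  rw [this, mul_one]

theorem eval_fam (a : ℂ) (n : ℕ) (x : PE n) (z : ℂ) : (fam a n x).eval z =
    x none + ∑ m ∈ Finset.range n, (q a n x).coeff m / (m + 1) * z ^ (m + 1) +
      a * z ^ (n + 1) := by
  unfold fam prim
  rw [eval_add, eval_C, eval_finset_sum, Finset.sum_range_succ]
  have h1 := q_coeff a n x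
  unfold q at h1 ⊢
  simp only [eval_monomial]
  rw [h1]
  have h2 : ((n : ℂ) + 1) ≠ 0 := by exact_mod_cast Nat.succ_ne_zero n
  rw [mul_div_assoc, div_self h2, mul_one, add_assoc]

theorem cont_eval (a : ℂ) (n : ℕ) :
    Continuous fun p : PE n × ℂ => (fam a n p.1).eval p.2 := by
  simp only [eval_fam]
  refine ((((continuous_apply _).comp continuous_fst).add ?_)).add ?_
  · refine continuous_finset_sum _ fun m _ => ?_
    exact (((cont_q a n m).comp continuous_fst).div_const _).mul (continuous_snd.pow _)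
  · exact continuous_const.mul (continuous_snd.pow _)

/-- uniform escape radius -/
theorem escape (a : ℂ) (n : ℕ) (x₀ : PE n) (hn : 1 ≤ n) (ha : a ≠ 0) :
    ∃ R : ℝ, 1 ≤ R ∧ ∀ x : PE n, ‖x - x₀‖ ≤ 1 → ∀ z : ℂ, R ≤ ‖z‖ →
      2 * ‖z‖ ≤ ‖(fam a n x).eval z‖ := by
  have hc : Continuous fun x : PE n => ‖x none‖ +
      ∑ m ∈ Finset.range n, ‖(q a n x).coeff m / (m + 1)‖ := by
    refine ((continuous_apply _).norm).add (continuous_finset_sum _ fun m _ => ?_)
    exact ((cont_q a n m).div_const _).norm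
  obtain ⟨B, hB⟩ := (isCompact_closedBall x₀ 1).exists_bound_of_continuousOn hc.continuousOn
  have hB0 : 0 ≤ B := le_trans (norm_nonneg _) (hB x₀ (by simp))
  have ha' : 0 < ‖a‖ := norm_pos_iff.mpr ha
  refine ⟨max 1 ((B + 2) / ‖a‖), le_max_left _ _, fun x hx z hz => ?_⟩
  have hz1 : 1 ≤ ‖z‖ := le_trans (le_max_left _ _) hz
  have hz2 : B + 2 ≤ ‖a‖ * ‖z‖ := by
    have := le_trans (le_max_right _ _) hz
    rw [div_le_iff₀ ha'] at this
    linarith
  have hBx := hB x (by rw [mem_closedBall, dist_eq_norm]; exact hx)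
  rw [Real.norm_of_nonneg (by positivity)] at hBx
  rw [eval_fam]
  have hzn : 1 ≤ ‖z‖ ^ n := one_le_pow₀ hz1
  have h1 : ‖x none + ∑ m ∈ Finset.range n, (q a n x).coeff m / (m + 1) * z ^ (m + 1)‖ ≤
      B * ‖z‖ ^ n := by
    refine (norm_add_le _ _).trans ?_
    have h2 : ‖∑ m ∈ Finset.range n, (q a n x).coeff m / (m + 1) * z ^ (m + 1)‖ ≤
        (∑ m ∈ Finset.range n, ‖(q a n x).coeff m / (m + 1)‖) * ‖z‖ ^ n := by
      refine (norm_sum_le _ _).trans ?_
      rw [Finset.sum_mul]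
      refine Finset.sum_le_sum fun m hm => ?_
      rw [norm_mul, norm_pow]
      refine mul_le_mul_of_nonneg_left ?_ (norm_nonneg _)
      exact pow_le_pow_right₀ hz1 (by rw [Finset.mem_range] at hm; omega)
    have h3 : ‖x none‖ ≤ ‖x none‖ * ‖z‖ ^ n := le_mul_of_one_le_right (norm_nonneg _) hzn
    calc _ ≤ ‖x none‖ * ‖z‖ ^ n +
          (∑ m ∈ Finset.range n, ‖(q a n x).coeff m / (m + 1)‖) * ‖z‖ ^ n := add_le_add h3 h2
      _ = (‖x none‖ + ∑ m ∈ Finset.range n, ‖(q a n x).coeff m / (m + 1)‖) * ‖z‖ ^ n := by ring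
      _ ≤ B * ‖z‖ ^ n := mul_le_mul_of_nonneg_right hBx (by positivity)
  have h4 : ‖a * z ^ (n + 1)‖ = ‖a‖ * ‖z‖ * ‖z‖ ^ n := by
    rw [norm_mul, norm_pow, pow_succ]; ring
  have h5 : ‖a * z ^ (n + 1)‖ - ‖x none + ∑ m ∈ Finset.range n,
      (q a n x).coeff m / (m + 1) * z ^ (m + 1)‖ ≤
      ‖x none + ∑ m ∈ Finset.range n, (q a n x).coeff m / (m + 1) * z ^ (m + 1) +
        a * z ^ (n + 1)‖ := by
    have := norm_sub_norm_le (a * z ^ (n + 1)) (-(x none + ∑ m ∈ Finset.range n,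
      (q a n x).coeff m / (m + 1) * z ^ (m + 1)))
    rw [norm_neg, sub_neg_eq_add, add_comm (a * z ^ (n + 1))] at this
    exact this
  have h6 : 2 * ‖z‖ ^ n ≤ (‖a‖ * ‖z‖ - B) * ‖z‖ ^ n :=
    mul_le_mul_of_nonneg_right (by linarith) (by positivity)
  have h7 : ‖z‖ ≤ ‖z‖ ^ n := by
    calc ‖z‖ = ‖z‖ ^ 1 := (pow_one _).symm
      _ ≤ ‖z‖ ^ n := pow_le_pow_right₀ hz1 hn
  nlinarith

theorem escape_tendsto {f : ℂ → ℂ} {R : ℝ} (hR : 1 ≤ R)
    (h : ∀ z : ℂ, R ≤ ‖z‖ → 2 * ‖z‖ ≤ ‖f z‖) (z : ℂ) (k : ℕ) (hk : R ≤ ‖f^[k] z‖) :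
    Tendsto (fun k : ℕ => ‖f^[k] z‖) atTop atTop := by
  have key : ∀ j : ℕ, 2 ^ j ≤ ‖f^[j + k] z‖ ∧ R ≤ ‖f^[j + k] z‖ := by
    intro j
    induction j with
    | zero => rw [Nat.zero_add, pow_zero]; exact ⟨hR.trans hk, hk⟩
    | succ j ih =>
      rw [show j + 1 + k = (j + k) + 1 by ring, Function.iterate_succ_apply']
      have h1 := h _ ih.2
      have h2 : (2:ℝ) ^ (j + 1) = 2 * 2 ^ j := by ring
      exact ⟨by rw [h2]; linarith [ih.1], by linarith [ih.2]⟩
  rw [← tendsto_add_atTop_iff_nat k]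
  exact tendsto_atTop_mono (fun j => (key j).1)
    (tendsto_pow_atTop_atTop_of_one_lt (by norm_num))

/-- the general statement -/
theorem general {Y : Type} [PseudoMetricSpace Y] (f : Y → ℂ → ℂ)
    (hcont : Continuous fun p : Y × ℂ => f p.1 p.2) (x₀ : Y) (R : ℝ) (hR : 1 ≤ R)
    (hesc : ∀ x, dist x x₀ ≤ 1 → ∀ z : ℂ, R ≤ ‖z‖ → 2 * ‖z‖ ≤ ‖f x z‖)
    (h0 : volume {z : ℂ | ¬ Tendsto (fun k : ℕ => ‖(f x₀)^[k] z‖) atTop atTop} = 0)
    (η : ℝ) (hη : 0 < η) : ∃ σ : ℝ, 0 < σ ∧ ∀ x, dist x x₀ < σ →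
      volume {z : ℂ | ¬ Tendsto (fun k : ℕ => ‖(f x)^[k] z‖) atTop atTop} ≤
        ENNReal.ofReal η := by
  -- the iterates are jointly continuous
  have hiter : ∀ k : ℕ, Continuous fun p : Y × ℂ => (f p.1)^[k] p.2 := by
    intro k
    induction k with
    | zero => exact continuous_snd
    | succ k ih =>
      simp only [Function.iterate_succ_apply']
      exact hcont.comp (continuous_fst.prodMk ih)
  have hiter0 : ∀ k : ℕ, Continuous fun z : ℂ => (f x₀)^[k] z := fun k =>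
    (hiter k).comp (continuous_const.prodMk continuous_id)
  obtain ⟨L, hL⟩ : ∃ L : ℕ → Set ℂ, ∀ N z, z ∈ L N ↔ ∀ k ≤ N, ‖(f x₀)^[k] z‖ ≤ R + 1 :=
    ⟨fun N => {z | ∀ k ≤ N, ‖(f x₀)^[k] z‖ ≤ R + 1}, fun N z => Iff.rfl⟩
  have hLc : ∀ N, IsClosed (L N) := by
    intro N
    have : L N = ⋂ k, ⋂ (_ : k ≤ N), {z : ℂ | ‖(f x₀)^[k] z‖ ≤ R + 1} := by
      ext z; simp [hL]
    rw [this]
    exact isClosed_iInter fun k => isClosed_iInter fun _ =>
      isClosed_le (hiter0 k).norm continuous_const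
  have hLb : ∀ N, L N ⊆ closedBall 0 (R + 1) := by
    intro N z hz
    rw [mem_closedBall_zero_iff]
    exact (hL N z).mp hz 0 (Nat.zero_le _)
  have hLanti : Antitone L := fun N M hNM z hz =>
    (hL N z).mpr fun k hk => (hL M z).mp hz k (hk.trans hNM)
  have hLinf : ⋂ N, L N ⊆ {z : ℂ | ¬ Tendsto (fun k : ℕ => ‖(f x₀)^[k] z‖) atTop atTop} := by
    intro z hz
    rw [mem_iInter] at hz
    intro hcon
    obtain ⟨k, hk⟩ := (hcon.eventually_gt_atTop (R + 1)).exists
    exact absurd ((hL k z).mp (hz k) k le_rfl) (not_le.mpr hk)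
  have hvol : Tendsto (fun N => volume (L N)) atTop (𝓝 0) := by
    have h1 : volume (⋂ N, L N) = 0 := measure_mono_null hLinf h0
    rw [← h1]
    refine tendsto_measure_iInter_atTop (fun N => (hLc N).measurableSet.nullMeasurableSet)
      hLanti ⟨0, ?_⟩
    exact ne_top_of_le_ne_top measure_closedBall_lt_top.ne (measure_mono (hLb 0))
  have hη' : (0 : ENNReal) < ENNReal.ofReal η := ENNReal.ofReal_pos.mpr hη
  obtain ⟨N, hN⟩ := ((tendsto_order.mp hvol).2 _ hη').exists
  -- continuity of finitely many iterates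
  have hev : ∀ᶠ x in 𝓝 x₀, ∀ z ∈ closedBall (0 : ℂ) R, ∀ k ≤ N,
      ‖(f x)^[k] z - (f x₀)^[k] z‖ < 1 := by
    apply IsCompact.eventually_forall_of_forall_eventually (isCompact_closedBall (0 : ℂ) R)
    intro z _
    have : ∀ k ∈ Finset.range (N + 1), ∀ᶠ p : Y × ℂ in 𝓝 (x₀, z),
        ‖(f p.1)^[k] p.2 - (f x₀)^[k] p.2‖ < 1 := by
      intro k _
      have hc : Continuous fun p : Y × ℂ => ‖(f p.1)^[k] p.2 - (f x₀)^[k] p.2‖ :=
        ((hiter k).sub ((hiter0 k).comp continuous_snd)).norm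
      have h1 := hc.tendsto (x₀, z)
      simp only [sub_self, norm_zero] at h1
      exact (tendsto_order.mp h1).2 _ one_pos
    filter_upwards [(Filter.eventually_all_finset _).mpr this] with p hp k hk
    exact hp k (Finset.mem_range.mpr (by omega))
  obtain ⟨σ, hσ, hσ'⟩ := Metric.eventually_nhds_iff.mp hev
  refine ⟨min σ 1, lt_min hσ one_pos, fun x hx => ?_⟩
  have hx1 : dist x x₀ ≤ 1 := (hx.trans_le (min_le_right _ _)).le
  have hx2 := hσ' (y := x) (hx.trans_le (min_le_left _ _))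
  refine le_trans (measure_mono ?_) hN.le
  intro z hz
  rw [hL]
  intro k hk
  have hlt : ∀ k : ℕ, ‖(f x)^[k] z‖ < R := by
    intro k
    by_contra hcon
    push Not at hcon
    exact hz (escape_tendsto hR (hesc x hx1) z k hcon)
  have h1 := hx2 z (by rw [mem_closedBall_zero_iff]; exact (hlt 0).le) k hk
  have h2 := hlt k
  have h3 : ‖(f x₀)^[k] z‖ ≤ ‖(f x)^[k] z‖ + ‖(f x)^[k] z - (f x₀)^[k] z‖ := by
    have := norm_sub_norm_le ((f x₀)^[k] z) ((f x)^[k] z)
    rw [norm_sub_rev] at this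
    linarith
  linarith

end USC

theorem usc_holds : StUSC := by
  intro n a x₀ hn ha h0 η hη
  obtain ⟨R, hR, hesc⟩ := USC.escape a n x₀ hn ha
  obtain ⟨σ, hσ, h⟩ := USC.general (fun (x : PE n) (z : ℂ) => (fam a n x).eval z)
    (USC.cont_eval a n) x₀ R hR (fun x hx => hesc x (by rwa [dist_eq_norm] at hx)) h0 η hη
  exact ⟨σ, hσ, fun x hx => h x (by rwa [dist_eq_norm])⟩

end Pool.Agent.H713R3.ZA
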