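import Mathlib
import Pool.Agent.H713R3.ZA.Core
import Pool.Agent.H713R3.ZA.TAVG
import Pool.Agent.H713R3.ZA.TBSUM
import Pool.Agent.H713R3.ZA.TFLOW
import Pool.Agent.H713R3.ZA.TGAIN
import Pool.Agent.H713R3.ZA.TIDEN
import Pool.Agent.H713R3.ZA.TINV
import Pool.Agent.H713R3.ZA.TKER
import Pool.Agent.H713R3.ZA.TNDEG
import Pool.Agent.H713R3.ZA.TROOT
import Pool.Agent.H713R3.ZA.TSEP
import Pool.Agent.H713R3.ZA.TSURJ
import Pool.Agent.H713R3.ZA.TUSC

set_option autoImplicit false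

open Topology Filter Metric Set Polynomial MeasureTheory

namespace Pool.Agent.H713R3.ZA

theorem main_fam {a : ℂ} (ha : a ≠ 0) {n : ℕ} (hn : 1 ≤ n) (xT : PE n)
    (hT : volume (KJ (fam a n xT)) = 0) {ε : ℝ} (hε : 0 < ε) :
    ∃ x : PE n, ‖x - xT‖ < ε ∧ ∀ i : Fin n, x (some i) ∉ KJ (fam a n x) := by
  classical
  set P : Finset (Fin n) → Prop := fun E => ∀ ε : ℝ, 0 < ε → ∃ x : PE n, ‖x - xT‖ < ε ∧
    ∀ i ∈ E, x (some i) ∉ KJ (fam a n x) with hP
  have hP0 : P ∅ := fun ε hε => ⟨xT, by simpa using hε, fun i hi => by simp at hi⟩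
  obtain ⟨E₀, hE₀⟩ := (Set.toFinite {E | P E}).exists_maximal ⟨∅, hP0⟩
  by_cases hall : ∀ j, j ∈ E₀
  · obtain ⟨x, h1, h2⟩ := hE₀.prop ε hε
    exact ⟨x, h1, fun i => h2 i (hall i)⟩
  · exfalso
    push Not at hall
    obtain ⟨j₀, hj₀⟩ := hall
    have hev : ∀ᶠ x : PE n in 𝓝 xT, ∀ j : Fin n, j ∉ E₀ →
        (∀ i ∈ E₀, x (some i) ∉ KJ (fam a n x)) → x (some j) ∈ KJ (fam a n x) := by
      rw [Filter.eventually_all]
      intro j
      by_cases hj : j ∈ E₀
      · exact Filter.Eventually.of_forall fun x h => absurd hj h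
      · have h1 : ¬ P (insert j E₀) := by
          intro h
          have h2 := hE₀.le_of_ge h (Finset.subset_insert j E₀)
          exact hj (h2 (Finset.mem_insert_self j E₀))
        simp only [hP] at h1
        push Not at h1
        obtain ⟨δ, hδ, h2⟩ := h1
        filter_upwards [Metric.ball_mem_nhds xT hδ] with x hx _ hesc
        rw [mem_ball, dist_eq_norm] at hx
        obtain ⟨i, hi, hi2⟩ := h2 x hx
        rcases Finset.mem_insert.mp hi with rfl | hi'
        · exact hi2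
        · exact absurd hi2 (hesc i hi')
    obtain ⟨ρ₀, hρ₀, hball⟩ := Metric.mem_nhds_iff.mp hev
    exact core root_holds inv_holds bsum_holds iden_holds ker_holds flow_holds gain_holds avg_holds
      sep_holds ndeg_holds usc_holds ha hn xT hT hj₀ hE₀.prop hρ₀
      (fun x hx h1 j hj => hball (by rw [mem_ball, dist_eq_norm]; exact hx) j hj h1)

theorem main (T : ℂ[X]) (hd : 2 ≤ T.natDegree)
    (hT : volume {z : ℂ | ¬ Tendsto (fun k : ℕ => ‖(fun w : ℂ => T.eval w)^[k] z‖) atTop atTop} = 0)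
    {ε : ℝ} (hε : 0 < ε) :
    ∃ S : ℂ[X], S.natDegree = T.natDegree ∧ (∀ i : ℕ, ‖S.coeff i - T.coeff i‖ < ε) ∧
      ∀ c : ℂ, (derivative S).eval c = 0 →
        Tendsto (fun k : ℕ => ‖(fun w : ℂ => S.eval w)^[k] c‖) atTop atTop := by
  obtain ⟨n, hn⟩ : ∃ n, T.natDegree = n + 1 := ⟨T.natDegree - 1, by omega⟩
  have hn1 : 1 ≤ n := by omega
  obtain ⟨xT, hxT⟩ := surj_holds n T hn1 hn
  set a : ℂ := T.coeff (n + 1) with ha
  have ha0 : a ≠ 0 := by
    rw [ha, ← hn, coeff_natDegree, Ne, leadingCoeff_eq_zero]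
    rintro rfl
    simp at hd
  -- closeness of the coefficients
  have h1 : ∀ᶠ x : PE n in 𝓝 xT, ∀ j ∈ Finset.range (n + 2),
      ‖(fam a n x).coeff j - (fam a n xT).coeff j‖ < ε := by
    rw [Filter.eventually_all_finset]
    intro j _
    have hc : Continuous (fun x : PE n => ‖(fam a n x).coeff j - (fam a n xT).coeff j‖) :=
      ((pfe_fam a n j).continuous.sub continuous_const).norm
    have h0 : ‖(fam a n xT).coeff j - (fam a n xT).coeff j‖ < ε := by simpa using hε
    exact (hc.tendsto xT).eventually (Iio_mem_nhds h0)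
  obtain ⟨σ, hσ, hball⟩ := Metric.mem_nhds_iff.mp h1
  obtain ⟨x, hx, hesc⟩ := main_fam ha0 hn1 xT (by rw [hxT]; exact hT) hσ
  refine ⟨fam a n x, ?_, ?_, ?_⟩
  · rw [natDegree_fam ha0, hn]
  · intro j
    rw [← hxT]
    by_cases hj : j < n + 2
    · exact hball (by rw [mem_ball, dist_eq_norm]; exact hx) j (Finset.mem_range.mpr hj)
    · rw [coeff_eq_zero_of_natDegree_lt (by have := natDegree_fam_le a n x; omega),
        coeff_eq_zero_of_natDegree_lt (by have := natDegree_fam_le a n xT; omega)]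
      simpa using hε
  · intro c hc
    have h2 : deriv (fx a n x) c = 0 := by
      have : deriv (fx a n x) c = (derivative (fam a n x)).eval c := (fam a n x).deriv
      rw [this, hc]
    obtain ⟨i, rfl⟩ := exists_crit ha0 h2
    exact not_not.mp (hesc i)

end Pool.Agent.H713R3.ZA
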